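import Pool.Agent.Helper21.BS.Cell

/-!
# MP_be0fb5: closest lattice points lie in one cell, the theorem
-/

set_option autoImplicit false

namespace Pool.Agent.Helper21.BS

open Matrix
open Pool.Agent.Helper22.Sym (Superb bil toR toR_add toR_neg bil_comm)
open Pool.Agent.Helper84.FL (Superbase)

theorem posE_mem : ∀ T : Fin 6, (2 : Fin 6) ∈ posE T ∧ (4 : Fin 6) ∈ posE T ∧
    ((5 : Fin 6) ∈ posE T ∨ (3 : Fin 6) ∈ posE T) := by decide

theorem box {T : Fin 6} {k : Fin 6 → Bool} {d : Fin 4 → ℤ} (h : region T k d) (h3 : d 3 = 0) :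
    d 0 ∈ ([-1, 0, 1] : List ℤ) ∧ d 1 ∈ ([-1, 0, 1] : List ℤ) ∧ d 2 ∈ ([-2, -1, 0, 1, 2] : List ℤ) := by
  have hp : ∀ e ∈ posE T, -1 ≤ d (ed e).1 - d (ed e).2 ∧ d (ed e).1 - d (ed e).2 ≤ 1 := by
    intro e he
    rcases h e he with h1 | h1
    · omega
    · rw [h1]
      cases k e <;> simp
  have hd : (-1 ≤ d 0 ∧ d 0 ≤ 1) ∧ (-1 ≤ d 1 ∧ d 1 ≤ 1) ∧ (-2 ≤ d 2 ∧ d 2 ≤ 2) := by
    obtain ⟨e2, e4or, e5⟩ := posE_mem T
    have a2 := hp 2 e2
    have a4 := hp 4 e4or
    have b2 : ed 2 = (0, 3) := rfl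
    have b4 : ed 4 = (1, 3) := rfl
    rw [b2] at a2
    rw [b4] at a4
    simp only [h3, sub_zero] at a2 a4
    refine ⟨a2, a4, ?_⟩
    rcases e5 with e5 | e5
    · have a5 := hp 5 e5
      have b5 : ed 5 = (2, 3) := rfl
      rw [b5] at a5
      simp only [h3, sub_zero] at a5
      omega
    · have a5 := hp 3 e5
      have b5 : ed 3 = (1, 2) := rfl
      rw [b5] at a5
      simp only at a5
      omega
  simp only [List.mem_cons, List.not_mem_nil, or_false]
  omega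

theorem superb_perm {f u : Fin 4 → Fin 3 → ℤ} (h : Superb f u) {σ : Fin 4 → Fin 4}
    (hσ : ∀ i j, σ i = σ j → i = j) : Superb (fun l => f (σ l)) (fun l => u (σ l)) := by
  have hb : Function.Bijective σ := (Finite.injective_iff_bijective).1 fun i j hij => hσ i j hij
  refine ⟨?_, fun i j l => ?_⟩
  · rw [← h.1]
    exact hb.sum_comp f
  · have h1 := h.2 (σ i) (σ j) (σ l)
    rw [h1]
    have h2 : (σ i = σ l) = (i = l) := propext ⟨hσ i l, fun h => by rw [h]⟩
    have h3 : (σ j = σ l) = (j = l) := propext ⟨hσ j l, fun h => by rw [h]⟩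
    simp only [h2, h3]

/-- the numbers of a form on a superbase -/
theorem bil_row {Q : Matrix (Fin 3) (Fin 3) ℝ} {f : Fin 4 → Fin 3 → ℤ} (hf : ∑ l, f l = 0) (i : Fin 4) :
    ∑ j, bil Q (f i) (f j) = 0 := by
  unfold bil
  rw [← dotProduct_sum, ← Matrix.mulVec_sum, ← toR_sum', hf]
  have h : toR (0 : Fin 3 → ℤ) = 0 := by funext i; simp [toR]
  rw [h, Matrix.mulVec_zero, dotProduct_zero]

theorem bil_pos {Q : Matrix (Fin 3) (Fin 3) ℝ} (hQ : Q.PosDef) {v : Fin 3 → ℤ} (hv : v ≠ 0) : 0 < bil Q v v := by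
  have h1 : toR v ≠ 0 := by
    intro h
    apply hv
    funext i
    have := congrFun h i
    simpa [toR] using this
  have h2 := hQ.dotProduct_mulVec_pos h1
  simpa [bil] using h2

theorem superb_ne {f u : Fin 4 → Fin 3 → ℤ} (h : Superb f u) {a : Fin 4 → ℤ} {i j : Fin 4} (hij : a i ≠ a j) :
    ∑ l, a l • f l ≠ 0 := by
  intro h0
  have h1 : (u i - u j) ⬝ᵥ ∑ l, a l • f l = a i - a j := by
    rw [dotProduct_sum]
    simp only [dotProduct_smul, h.2, smul_eq_mul, mul_sub, Finset.sum_sub_distrib, mul_ite, mul_one, mul_zero,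
      Finset.sum_ite_eq, Finset.mem_univ, if_true]
  rw [h0, dotProduct_zero] at h1
  omega

theorem conn_of {Q : Matrix (Fin 3) (Fin 3) ℝ} (hQ : Q.PosDef) {f u : Fin 4 → Fin 3 → ℤ} (h : Superb f u)
    (hobt : ∀ i j, i ≠ j → bil Q (f i) (f j) ≤ 0) {g : Fin 6 → Bool}
    (hg : ∀ e, g e = true ↔ bil Q (f (ed e).1) (f (ed e).2) < 0) : Conn g := by
  intro b0 b1 b2 b3 hne
  by_contra hcon
  push Not at hcon
  set S : Fin 4 → Bool := ![b0, b1, b2, b3] with hS
  set a : Fin 4 → ℤ := fun i => if S i then 1 else 0 with ha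
  have hB0 : ∀ i j, S i ≠ S j → bil Q (f i) (f j) = 0 := by
    intro i j hij
    have hne' : i ≠ j := fun h => hij (by rw [h])
    have h1 : ¬bil Q (f i) (f j) < 0 := by
      rcases eix_spec i j hne' with h2 | h2
      · have h3 := hcon (eix i j)
        rw [h2.1, h2.2] at h3
        have h4 := h3 hij
        intro h5
        exact h4 ((hg (eix i j)).2 (by rw [h2.1, h2.2]; exact h5))
      · have h3 := hcon (eix i j)
        rw [h2.1, h2.2] at h3
        have h4 := h3 (Ne.symm hij)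
        intro h5
        exact h4 ((hg (eix i j)).2 (by rw [h2.1, h2.2, bil_comm hQ]; exact h5))
    have h6 := hobt i j hne'
    exact le_antisymm h6 (not_lt.1 h1)
  have h1 : bil Q (∑ i, a i • f i) (∑ i, a i • f i) = 0 := by
    rw [bil_comb, bil_polar (fun i => bil_row h.1 i) (fun i j => bil_comm hQ _ _)]
    refine Finset.sum_eq_zero fun i _ => Finset.sum_eq_zero fun j _ => ?_
    by_cases hij : S i = S j
    · have h2 : (a i : ℝ) = a j := by simp only [ha, hij]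
      rw [h2, sub_self, zero_mul, mul_zero]
    · rw [hB0 i j hij, mul_zero, zero_mul]
  have h2 : ∃ i j, S i ≠ S j := by
    by_contra hc
    push Not at hc
    exact hne ⟨hc 0 1, hc 1 2, hc 2 3⟩
  obtain ⟨i, j, hij⟩ := h2
  have h3 : a i ≠ a j := by
    intro h4
    apply hij
    simp only [ha] at h4
    cases hi : S i <;> cases hj : S j <;> simp [hi, hj] at h4 ⊢
  exact absurd h1 (bil_pos hQ (superb_ne h h3)).ne'

/-- two closest points -/
theorem near_pts {Q : Matrix (Fin 3) (Fin 3) ℝ} (hQ : Q.PosDef) {f : Fin 4 → Fin 3 → ℤ} (hf : ∑ l, f l = 0)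
    (hobt : ∀ i j, i ≠ j → bil Q (f i) (f j) ≤ 0) (x : Fin 3 → ℝ) {z z' z0 : Fin 3 → ℤ}
    (hz : ∀ y : Fin 3 → ℤ, (x - toR z) ⬝ᵥ Q *ᵥ (x - toR z) ≤ (x - toR y) ⬝ᵥ Q *ᵥ (x - toR y))
    (hz' : ∀ y : Fin 3 → ℤ, (x - toR z') ⬝ᵥ Q *ᵥ (x - toR z') ≤ (x - toR y) ⬝ᵥ Q *ᵥ (x - toR y))
    {a b : Fin 4 → ℤ} (ha : z = z0 + ∑ l, a l • f l) (hb : z' = z0 + ∑ l, b l • f l) {i j : Fin 4}
    (hB : bil Q (f i) (f j) < 0) : (a i - a j) - (b i - b j) ≤ 1 := by
  set x0 : Fin 3 → ℝ := x - toR z0 with hx0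
  have hs : Qᵀ = Q := by
    have := hQ.isHermitian.eq
    rwa [conjTranspose_eq_transpose_of_trivial] at this
  have hval : ∀ c : Fin 4 → ℤ, (x - toR (z0 + ∑ l, c l • f l)) ⬝ᵥ Q *ᵥ (x - toR (z0 + ∑ l, c l • f l)) =
      x0 ⬝ᵥ Q *ᵥ x0 + (HB (fun i j => bil Q (f i) (f j)) c - ∑ i, (2 * (x0 ⬝ᵥ Q *ᵥ toR (f i))) * c i) := by
    intro c
    have h1 : HB (fun i j => bil Q (f i) (f j)) c = bil Q (∑ l, c l • f l) (∑ l, c l • f l) := (bil_comb Q f c c).symm
    have h2 : ∑ i, (2 * (x0 ⬝ᵥ Q *ᵥ toR (f i))) * (c i : ℝ) = 2 * (x0 ⬝ᵥ Q *ᵥ toR (∑ l, c l • f l)) := by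
      rw [toR_sum', Matrix.mulVec_sum, dotProduct_sum, Finset.mul_sum]
      refine Finset.sum_congr rfl fun l _ => ?_
      rw [toR_smul', Matrix.mulVec_smul, dotProduct_smul, smul_eq_mul]
      ring
    rw [h1, h2]
    set v : Fin 3 → ℤ := ∑ l, c l • f l
    have h3 : x - toR (z0 + v) = x0 - toR v := by
      rw [toR_add, hx0]
      abel
    have h4 : toR v ⬝ᵥ Q *ᵥ x0 = x0 ⬝ᵥ Q *ᵥ toR v := by
      rw [dotProduct_mulVec, ← mulVec_transpose, hs, dotProduct_comm]
    rw [h3, Matrix.mulVec_sub, sub_dotProduct, dotProduct_sub, dotProduct_sub, h4]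
    unfold bil
    ring
  have hrow : ∀ i, ∑ j, (fun i j => bil Q (f i) (f j)) i j = 0 := fun i => bil_row hf i
  have hsym : ∀ i j, (fun i j => bil Q (f i) (f j)) i j = (fun i j => bil Q (f i) (f j)) j i := fun i j => bil_comm hQ _ _
  refine near (B := fun i j => bil Q (f i) (f j)) hrow hsym (fun i j hij => hobt i j hij)
    (fun i => 2 * (x0 ⬝ᵥ Q *ᵥ toR (f i)))
    (HB (fun i j => bil Q (f i) (f j)) a - ∑ i, (2 * (x0 ⬝ᵥ Q *ᵥ toR (f i))) * a i) (fun c => ?_) rfl ?_ hB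
  · have h1 := hz (z0 + ∑ l, c l • f l)
    rw [ha, hval, hval] at h1
    linarith
  · have h1 := hz z'
    have h2 := hz' z
    rw [ha, hb, hval, hval] at h1 h2
    linarith

/-- **All closest lattice points of a point lie in one canonical cell of an obtuse superbase.** -/
theorem cell_state {Q : Matrix (Fin 3) (Fin 3) ℝ} (hQ : Q.PosDef) (x : Fin 3 → ℝ) (D : Finset (Fin 3 → ℤ))
    (hD : D.Nonempty)
    (hmin : ∀ z ∈ D, ∀ y : Fin 3 → ℤ, (x - toR z) ⬝ᵥ Q *ᵥ (x - toR z) ≤ (x - toR y) ⬝ᵥ Q *ᵥ (x - toR y)) :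
    ∃ f : Fin 4 → Fin 3 → ℤ, Superbase f ∧ (∀ i j, i ≠ j → bil Q (f i) (f j) ≤ 0) ∧
      ∃ (c : Fin 3 → ℤ) (τ : Fin 5), (∀ h ∈ Hz τ, bil Q (f h.1) (f h.2) = 0) ∧
        ∀ z ∈ D, ∃ p ∈ pts τ, z = c + ∑ i, p i • f i := by
  classical
  obtain ⟨f0, u0, hs0, hobt0⟩ := Pool.Agent.Helper22.Sym.selling Q hQ
  -- a permutation to one of the six types
  set g : Fin 6 → Bool := fun e => decide (bil Q (f0 (ed e).1) (f0 (ed e).2) < 0) with hg
  have hconn : Conn g := conn_of hQ hs0 hobt0 (g := g) fun e => by simp [hg]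
  rw [vec6 g] at hconn
  obtain ⟨σ, hσm, T, hT⟩ := perm_all _ _ _ _ _ _ hconn
  rw [← vec6 g] at hT
  have hσ := perms_inj σ hσm
  set f : Fin 4 → Fin 3 → ℤ := fun l => f0 (σ l) with hfdef
  set u : Fin 4 → Fin 3 → ℤ := fun l => u0 (σ l) with hudef
  have hs : Superb f u := superb_perm hs0 hσ
  have hobt : ∀ i j, i ≠ j → bil Q (f i) (f j) ≤ 0 := fun i j hij => hobt0 _ _ fun h => hij (hσ i j h)
  have hpos : ∀ e, bil Q (f (ed e).1) (f (ed e).2) < 0 ↔ e ∈ posE T := by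
    intro e
    rw [← hT e]
    have hne : σ (ed e).1 ≠ σ (ed e).2 := fun h => ed_ne e (hσ _ _ h)
    simp only [hg, decide_eq_true_eq, hfdef]
    rcases eix_spec _ _ hne with h1 | h1
    · rw [h1.1, h1.2]
    · rw [h1.1, h1.2, bil_comm hQ]
  have hsb : Superbase f := Pool.Agent.Helper36.FX.superbase_of_superb hs
  -- coordinates
  obtain ⟨z0, hz0⟩ := hD
  have hco : ∀ z : Fin 3 → ℤ, ∃ d : Fin 4 → ℤ, d 3 = 0 ∧ z = z0 + ∑ l, d l • f l := by
    intro z
    obtain ⟨a, ha⟩ := hsb.span (z - z0)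
    refine ⟨fun l => a l - a 3, by simp, ?_⟩
    have h1 : ∑ l, (a l - a 3) • f l = ∑ l, a l • f l := by
      simp only [sub_smul, Finset.sum_sub_distrib]
      rw [← Finset.smul_sum, hsb.sum, smul_zero, sub_zero]
    rw [h1, ← ha]
    abel
  choose d hd3 hd using hco
  have hd0 : ∀ i j, d z0 i = d z0 j := by
    intro i j
    by_contra hne
    have h1 := superb_ne hs hne
    have h2 := hd z0
    apply h1
    have h3 : z0 + ∑ l, d z0 l • f l = z0 + 0 := by rw [← h2, add_zero]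
    exact add_left_cancel h3
  -- the pattern
  set k : Fin 6 → Bool := fun e => decide (∃ z ∈ D, d z (ed e).1 - d z (ed e).2 = -1) with hk
  have hreg : ∀ z ∈ D, region T k (d z) := by
    intro z hz e he
    have hB := (hpos e).2 he
    have hB' : bil Q (f (ed e).2) (f (ed e).1) < 0 := by rw [bil_comm hQ]; exact hB
    have h1 := near_pts hQ hs.1 hobt x (hmin z hz) (hmin z0 hz0) (hd z) (hd z0) hB
    have h2 := near_pts hQ hs.1 hobt x (hmin z hz) (hmin z0 hz0) (hd z) (hd z0) hB'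
    have h3 := hd0 (ed e).1 (ed e).2
    by_cases hke : ∃ z ∈ D, d z (ed e).1 - d z (ed e).2 = -1
    · obtain ⟨z', hz', h4⟩ := hke
      have h5 := near_pts hQ hs.1 hobt x (hmin z hz) (hmin z' hz') (hd z) (hd z') hB
      have h6 : k e = true := by
        simp only [hk, decide_eq_true_eq]
        exact ⟨z', hz', h4⟩
      rw [h6, if_pos rfl]
      omega
    · have h6 : k e = false := by
        simp only [hk, decide_eq_false_iff_not]
        exact hke
      rw [h6]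
      simp only [Bool.false_eq_true, if_false]
      have h7 : d z (ed e).1 - d z (ed e).2 ≠ -1 := fun h => hke ⟨z, hz, h⟩
      omega
  -- the row of the table
  have hgood := good_all T (k 0) (k 1) (k 2) (k 3) (k 4) (k 5)
  rw [← vec6 k] at hgood
  set r := look T k with hr
  obtain ⟨g1, g2, g3, g4, g5⟩ := hgood
  have hprod : ∀ (i j : Fin 4) (P : ℤ → Prop), (∀ e ∈ posE T, P (pr2 r.M i j e)) → ∀ k l : Fin 4, k ≠ l →
      bil Q (f k) (f l) = 0 ∨ P ((r.M i k - r.M i l) * (r.M j k - r.M j l)) := by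
    intro i j P hP k l hkl
    rcases eix_spec k l hkl with h1 | h1
    · by_cases he : eix k l ∈ posE T
      · right
        have h2 := hP _ he
        unfold pr2 at h2
        rwa [h1.1, h1.2] at h2
      · left
        have h2 := fun h => he ((hpos _).1 h)
        rw [h1.1, h1.2] at h2
        exact le_antisymm (hobt k l hkl) (not_lt.1 h2)
    · by_cases he : eix k l ∈ posE T
      · right
        have h2 := hP _ he
        unfold pr2 at h2
        rw [h1.1, h1.2] at h2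
        have h3 : (r.M i k - r.M i l) * (r.M j k - r.M j l) = (r.M i l - r.M i k) * (r.M j l - r.M j k) := by ring
        rwa [h3]
      · left
        have h2 := fun h => he ((hpos _).1 h)
        rw [h1.1, h1.2, bil_comm hQ] at h2
        exact le_antisymm (hobt k l hkl) (not_lt.1 h2)
  have hbil : ∀ i j, bil Q (nf r.M f i) (nf r.M f j) = ∑ k, ∑ l, -(1 / 2) * bil Q (f k) (f l) *
      (((r.M i k : ℝ) - r.M i l) * ((r.M j k : ℝ) - r.M j l)) := by
    intro i j
    unfold nf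
    rw [bil_comb, bil_polar (fun i => bil_row hs.1 i) (fun i j => bil_comm hQ _ _)]
  refine ⟨nf r.M f, nf_superbase hsb g3 g4, fun i j hij => ?_, z0 + ∑ l, r.s l • f l, r.τ, fun h hh => ?_,
    fun z hz => ?_⟩
  · rw [hbil]
    refine Finset.sum_nonpos fun k _ => Finset.sum_nonpos fun l _ => ?_
    by_cases hkl : k = l
    · subst hkl
      simp
    · rcases hprod i j (fun t => t ≤ 0) (g1 i j hij) k l hkl with h1 | h1
      · rw [h1]
        simp
      · have h2 : ((r.M i k : ℝ) - r.M i l) * ((r.M j k : ℝ) - r.M j l) ≤ 0 := by exact_mod_cast h1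
        have h3 := hobt k l hkl
        nlinarith [mul_nonneg_of_nonpos_of_nonpos h3 h2]
  · rw [hbil]
    refine Finset.sum_eq_zero fun k _ => Finset.sum_eq_zero fun l _ => ?_
    by_cases hkl : k = l
    · subst hkl
      simp
    · rcases hprod h.1 h.2 (fun t => t = 0) (g2 h hh) k l hkl with h1 | h1
      · rw [h1]
        simp
      · have h2 : ((r.M h.1 k : ℝ) - r.M h.1 l) * ((r.M h.2 k : ℝ) - r.M h.2 l) = 0 := by exact_mod_cast h1
        rw [h2, mul_zero]
  · obtain ⟨b0, b1, b2⟩ := box (hreg z hz) (hd3 z)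
    have hvec : (d z) = ![d z 0, d z 1, d z 2, 0] := by
      rw [vec4 (d z), hd3 z]
      rfl
    have h1 := hreg z hz
    rw [hvec] at h1
    obtain ⟨p, hp, e0, e1, e2⟩ := g5 _ b0 _ b1 _ b2 h1
    refine ⟨p, hp, ?_⟩
    rw [comb_nf]
    have h2 : ∑ i, (d z i - r.s i - cmb r.M p i) • f i = 0 := by
      refine comb_const hs.1 fun i => ?_
      rw [hd3 z]
      fin_cases i
      · exact e0
      · exact e1
      · exact e2
      · show d z 3 - r.s 3 - cmb r.M p 3 = _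
        rw [hd3 z]
    simp only [sub_smul, Finset.sum_sub_distrib] at h2
    have h3 : ∑ i, d z i • f i = ∑ i, r.s i • f i + ∑ i, cmb r.M p i • f i := by
      have h4 := sub_eq_zero.1 h2
      rw [sub_eq_iff_eq_add] at h4
      rw [h4]
      abel
    conv_lhs => rw [hd z, h3]
    abel

end Pool.Agent.Helper21.BS
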