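import Pool.Agent.Helper21.BS.StateP
import Pool.Agent.Helper21.BS.CellMain

/-!
# MP_be0fb5: the cell state of an anti-blocking body

The body is `{x | w i · x ≤ b i, ∑ i, cc t i * (b i - w i · x) ≤ 1}` with three independent `w i` and any finite number
of planes `cc t`, `0 < cc t i`.
-/

set_option autoImplicit false

namespace Pool.Agent.Helper21.BS

open Matrix
open Pool.Agent.Helper21.FX (ct)
open Pool.Agent.Helper22.Sym (toR bil)
open Pool.Agent.Helper84.FL (Superbase)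

/-- the four-row form of three rows: the fourth row is minus their sum -/
def BF (n : Fin 3 → Fin 3 → ℝ) (y y' : Fin 3 → ℝ) : ℝ :=
  ∑ k, (n k ⬝ᵥ y) * (n k ⬝ᵥ y') + ((∑ k, n k) ⬝ᵥ y) * ((∑ k, n k) ⬝ᵥ y')

/-- **The cell state of an anti-blocking body.**  Put `P i z = h i - n i · z`.  The planes `P i ≥ 0` and
`∑ i, C t i * P i ≤ 1`; weights `lam` with `∑ t, lam t • C t = (1, 1, 1)`; `f` is an obtuse superbase of the four-row
form and the cell `τ` at `c` carries the labels `0, 1, 2` and every label `t` with `lam t ≠ 0`. -/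
structure AntiState {G : Type} [Fintype G] (f : Fin 4 → Fin 3 → ℤ) (c : Fin 3 → ℤ) (τ : Fin 5)
    (n : Fin 3 → Fin 3 → ℝ) (h : Fin 3 → ℝ) (C : G → Fin 3 → ℝ) (lam : G → ℝ)
    (lab : (Fin 3 → ℤ) → Fin 3 ⊕ G) : Prop where
  sb : Superbase f
  obt : ∀ i j, i ≠ j → BF n (toR (f i)) (toR (f j)) ≤ 0
  zero : ∀ e ∈ Hz τ, BF n (toR (f e.1)) (toR (f e.2)) = 0
  det : (Matrix.of n).det ≠ 0
  lam0 : ∀ t, 0 ≤ lam t
  lam1 : ∑ t, lam t = 1
  C0 : ∀ t i, 0 < C t i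
  avg : ∀ i, ∑ t, lam t * C t i = 1
  lab1 : ∀ z i, lab z = Sum.inl i → h i ≤ n i ⬝ᵥ toR z
  lab2 : ∀ z t, lab z = Sum.inr t → (∀ i, n i ⬝ᵥ toR z ≤ h i) ∧ 1 ≤ ∑ i, C t i * (h i - n i ⬝ᵥ toR z)
  occ1 : ∀ i, ∃ p ∈ pts τ, lab (c + ∑ j, p j • f j) = Sum.inl i
  occ2 : ∀ t, lam t ≠ 0 → ∃ p ∈ pts τ, lab (c + ∑ j, p j • f j) = Sum.inr t

section

variable {G : Type} [Fintype G]

/-- the groups -/
def AA (G : Type) : (Fin 3 ⊕ Unit) → (Fin 3 ⊕ G) → ℝ :=
  Sum.elim (fun i => Sum.elim (fun j => if j = i then 1 else 0) (fun _ => 0)) (fun _ => Sum.elim (fun _ => 0) (fun _ => 1))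

theorem AA_sum (L : Fin 3 ⊕ G → ℝ) (w : Fin 3 ⊕ G → Fin 3 → ℝ) (y : Fin 3 → ℝ) :
    ∑ g, (∑ t, AA G g t * (L t * (w t ⬝ᵥ y))) ^ 2 =
      ∑ i, (L (Sum.inl i) * (w (Sum.inl i) ⬝ᵥ y)) ^ 2 + (∑ t, L (Sum.inr t) * (w (Sum.inr t) ⬝ᵥ y)) ^ 2 := by
  rw [Fintype.sum_sum_type]
  simp [AA, Fintype.sum_sum_type]

theorem rel_of {w : Fin 3 → Fin 3 → ℝ} (hdet : (Matrix.of w).det ≠ 0) {cc : G → Fin 3 → ℝ}
    {L : Fin 3 ⊕ G → ℝ} (h : Nv (Sum.elim w fun t => - ∑ i, cc t i • w i) L = 0) (i : Fin 3) :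
    L (Sum.inl i) = ∑ t, L (Sum.inr t) * cc t i := by
  have h1 : (fun i => L (Sum.inl i) - ∑ t, L (Sum.inr t) * cc t i) ᵥ* (Matrix.of w) = 0 := by
    funext a
    have h2 := congrFun h a
    simp only [Nv, Fintype.sum_sum_type, Sum.elim_inl, Sum.elim_inr, Pi.neg_apply, Pi.zero_apply,
      Finset.sum_apply, Pi.smul_apply, smul_eq_mul, mul_neg, Finset.sum_neg_distrib] at h2
    simp only [Matrix.vecMul, dotProduct, Matrix.of_apply, sub_mul, Finset.sum_sub_distrib, Pi.zero_apply]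
    have h3 : ∑ x, (∑ t, L (Sum.inr t) * cc t x) * w x a = ∑ x, L (Sum.inr x) * ∑ x_1, cc x x_1 * w x_1 a := by
      simp only [Finset.sum_mul, Finset.mul_sum]
      rw [Finset.sum_comm]
      exact Finset.sum_congr rfl fun _ _ => Finset.sum_congr rfl fun _ _ => by ring
    rw [h3]
    linarith
  have h2 := congrFun (Matrix.eq_zero_of_vecMul_eq_zero hdet h1) i
  simp only [Pi.zero_apply] at h2
  linarith

/-- **Every anti-blocking body without interior lattice points gives a cell state.** -/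
theorem exists_anti (w : Fin 3 → Fin 3 → ℝ) (b : Fin 3 → ℝ) (cc : G → Fin 3 → ℝ)
    (hdet : (Matrix.of w).det ≠ 0) (hcc : ∀ t i, 0 < cc t i)
    (hno : ∀ z : Fin 3 → ℤ, (∃ i, b i ≤ w i ⬝ᵥ toR z) ∨ ∃ t, 1 ≤ ∑ i, cc t i * (b i - w i ⬝ᵥ toR z)) :
    ∃ (f : Fin 4 → Fin 3 → ℤ) (c : Fin 3 → ℤ) (τ : Fin 5) (s : Fin 3 → ℝ) (lam : G → ℝ)
      (lab : (Fin 3 → ℤ) → Fin 3 ⊕ G), (∀ i, 0 < s i) ∧
      AntiState f c τ (fun i => s i • w i) (fun i => s i * b i) (fun t i => cc t i / s i) lam lab := by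
  classical
  have hex : ∀ z : Fin 3 → ℤ, ∃ l : Fin 3 ⊕ G, (∀ i, l = Sum.inl i → b i ≤ w i ⬝ᵥ toR z) ∧
      (∀ t, l = Sum.inr t → (∀ i, w i ⬝ᵥ toR z ≤ b i) ∧ 1 ≤ ∑ i, cc t i * (b i - w i ⬝ᵥ toR z)) := by
    intro z
    by_cases h1 : ∃ i, b i ≤ w i ⬝ᵥ toR z
    · obtain ⟨i, hi⟩ := h1
      refine ⟨Sum.inl i, fun j hj => ?_, fun t ht => ?_⟩
      · rw [← Sum.inl.inj hj]
        exact hi
      · exact absurd ht Sum.inl_ne_inr
    · obtain ⟨t, ht⟩ := (hno z).resolve_left h1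
      push Not at h1
      refine ⟨Sum.inr t, fun j hj => ?_, fun t' ht' => ?_⟩
      · exact absurd hj Sum.inr_ne_inl
      · rw [← Sum.inr.inj ht']
        exact ⟨fun i => (h1 i).le, ht⟩
  choose lab hlab using hex
  set w' : Fin 3 ⊕ G → Fin 3 → ℝ := Sum.elim w fun t => - ∑ i, cc t i • w i with hw'
  have hposL : ∀ L : Fin 3 ⊕ G → ℝ, (∀ t, 0 ≤ L t) → ∑ t, L t = 1 → Nv w' L = 0 → ∀ i, 0 < L (Sum.inl i) := by
    intro L hL0 hL1 hrel i
    have h1 := rel_of hdet hrel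
    obtain ⟨t0, ht0⟩ : ∃ t, 0 < L (Sum.inr t) := by
      by_contra hcon
      push Not at hcon
      have h2 : ∀ t, L (Sum.inr t) = 0 := fun t => le_antisymm (hcon t) (hL0 _)
      rw [Fintype.sum_sum_type] at hL1
      have h3 : ∀ i, L (Sum.inl i) = 0 := fun i => by
        rw [h1 i]
        exact Finset.sum_eq_zero fun t _ => by rw [h2 t, zero_mul]
      rw [Finset.sum_eq_zero fun i _ => h3 i, Finset.sum_eq_zero fun t _ => h2 t] at hL1
      norm_num at hL1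
    rw [h1 i]
    exact Finset.sum_pos' (fun t _ => mul_nonneg (hL0 _) (hcc t i).le) ⟨t0, Finset.mem_univ _, mul_pos ht0 (hcc t0 i)⟩
  have hsep : ∀ y : Fin 3 → ℝ, y ≠ 0 → ∃ i, w i ⬝ᵥ y ≠ 0 := by
    intro y hy
    by_contra hcon
    push Not at hcon
    exact hy (Matrix.eq_zero_of_mulVec_eq_zero hdet (funext hcon))
  have hposS : ∀ L : Fin 3 ⊕ G → ℝ, (∀ i, 0 < L (Sum.inl i)) → ∀ y : Fin 3 → ℝ, y ≠ 0 →
      0 < ∑ i, (L (Sum.inl i) * (w i ⬝ᵥ y)) ^ 2 := by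
    intro L hL y hy
    obtain ⟨i, hi⟩ := hsep y hy
    refine Finset.sum_pos' (fun t _ => sq_nonneg _) ⟨i, Finset.mem_univ _, ?_⟩
    have := hL i
    positivity
  obtain ⟨x, L, μ, D, hμ, hμ1, hL, hrel, hmin⟩ := brouwer_stateP (AA G) w' b cc (fun t i => (hcc t i).le)
    (fun t => rfl) hdet lab (fun z i h => (hlab z).1 i h) (fun z t h => ((hlab z).2 t h).1)
    (fun L hL0 hL1 hrel y hy => by
      rw [AA_sum]
      exact add_pos_of_pos_of_nonneg (hposS L (hposL L hL0 hL1 hrel) y hy) (sq_nonneg _))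
  have hL0 : ∀ t, 0 ≤ L t := by
    intro t
    rw [hL]
    exact Finset.sum_nonneg fun z hz => by
      split_ifs
      · exact (hμ z hz).le
      · exact le_rfl
  have hL1 : ∑ t, L t = 1 := by
    rw [← hμ1, Finset.sum_congr rfl fun t _ => hL t, Finset.sum_comm]
    refine Finset.sum_congr rfl fun z _ => ?_
    simp
  have hLi := hposL L hL0 hL1 hrel
  have hLr := rel_of hdet hrel
  -- the form
  set r : Fin 3 → Fin 3 → ℝ := fun i => L (Sum.inl i) • w i with hr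
  set Q : Matrix (Fin 3) (Fin 3) ℝ := Matrix.of fun a c => ∑ i, r i a * r i c + (∑ i, r i a) * (∑ i, r i c) with hQdef
  have hQv : ∀ y y' : Fin 3 → ℝ, y ⬝ᵥ Q *ᵥ y' = BF r y y' := by
    intro y y'
    simp only [hQdef, BF, Matrix.mulVec, dotProduct, Matrix.of_apply, Fin.sum_univ_three, Pi.add_apply]
    ring
  have hwt : ∀ y : Fin 3 → ℝ, ∑ t, L (Sum.inr t) * (w' (Sum.inr t) ⬝ᵥ y) = - ((∑ k, r k) ⬝ᵥ y) := by
    intro y
    simp only [hw', hr, Sum.elim_inr, neg_dotProduct, sum_dotProduct, smul_dotProduct, smul_eq_mul, hLr,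
      Finset.mul_sum, Finset.sum_mul, mul_neg, Finset.sum_neg_distrib]
    rw [Finset.sum_comm]
    congr 1
    exact Finset.sum_congr rfl fun _ _ => Finset.sum_congr rfl fun _ _ => by ring
  have hform : ∀ y : Fin 3 → ℝ, ∑ g, (∑ t, AA G g t * (L t * (w' t ⬝ᵥ y))) ^ 2 = y ⬝ᵥ Q *ᵥ y := by
    intro y
    rw [AA_sum, hQv, hwt, BF, neg_sq, sq ((∑ k, r k) ⬝ᵥ y)]
    congr 1
    refine Finset.sum_congr rfl fun i _ => ?_
    rw [hr]
    simp only [hw', Sum.elim_inl, smul_dotProduct, smul_eq_mul]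
    ring
  have hQ : Q.PosDef := by
    refine Matrix.PosDef.of_dotProduct_mulVec_pos ?_ fun y hy => ?_
    · rw [Matrix.IsHermitian]
      ext a c
      simp only [hQdef, Matrix.conjTranspose_apply, Matrix.of_apply, star_trivial]
      rw [mul_comm (∑ i, r i c)]
      congr 1
      exact Finset.sum_congr rfl fun t _ => by ring
    · simp only [star_trivial]
      rw [← hform, AA_sum]
      exact add_pos_of_pos_of_nonneg (hposS L hLi y hy) (sq_nonneg _)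
  have hDne : D.Nonempty := by
    by_contra hcon
    rw [Finset.not_nonempty_iff_eq_empty] at hcon
    rw [hcon, Finset.sum_empty] at hμ1
    exact zero_ne_one hμ1
  have hmin' : ∀ z ∈ D, ∀ y : Fin 3 → ℤ, (x - toR z) ⬝ᵥ Q *ᵥ (x - toR z) ≤ (x - toR y) ⬝ᵥ Q *ᵥ (x - toR y) := by
    intro z hz y
    rw [← hform, ← hform]
    exact hmin z hz y
  obtain ⟨f, hsb, hobt, c, τ, hz, hcell⟩ := cell_state hQ x D hDne hmin'
  have hocc : ∀ t, L t ≠ 0 → ∃ p ∈ pts τ, lab (c + ∑ j, p j • f j) = t := by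
    intro t ht
    have h1 : ∃ z ∈ D, lab z = t := by
      by_contra hcon
      push Not at hcon
      apply ht
      rw [hL]
      exact Finset.sum_eq_zero fun z hz' => if_neg (hcon z hz')
    obtain ⟨z, hzD, hzl⟩ := h1
    obtain ⟨p, hp, hzp⟩ := hcell z hzD
    exact ⟨p, hp, by rw [← hzp, hzl]⟩
  -- the total weight of the other planes
  obtain ⟨S, hS⟩ : ∃ S, S = ∑ t, L (Sum.inr t) := ⟨_, rfl⟩
  have hS0 : 0 < S := by
    rw [hS]
    by_contra hcon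
    have h1 : ∀ t, L (Sum.inr t) = 0 := by
      have h2 := le_antisymm (not_lt.1 hcon) (Finset.sum_nonneg fun t _ => hL0 (Sum.inr t))
      intro t
      exact (Finset.sum_eq_zero_iff_of_nonneg fun t _ => hL0 (Sum.inr t)).1 h2 t (Finset.mem_univ t)
    have h2 := hLr 0
    rw [Finset.sum_eq_zero fun t _ => by rw [h1 t, zero_mul]] at h2
    exact (hLi 0).ne' h2
  have hSi : 0 < S⁻¹ := inv_pos.2 hS0
  have hsi : ∀ i, 0 < S⁻¹ * L (Sum.inl i) := fun i => mul_pos hSi (hLi i)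
  have hBF : ∀ y y' : Fin 3 → ℝ, BF (fun i => (S⁻¹ * L (Sum.inl i)) • w i) y y' = S⁻¹ ^ 2 * (y ⬝ᵥ Q *ᵥ y') := by
    intro y y'
    rw [hQv]
    have h1 : (fun i => (S⁻¹ * L (Sum.inl i)) • w i) = fun i => S⁻¹ • r i := by
      funext i
      rw [hr, mul_smul]
    rw [h1]
    unfold BF
    rw [← Finset.smul_sum]
    simp only [smul_dotProduct, smul_eq_mul, mul_add, Finset.mul_sum]
    congr 1
    · exact Finset.sum_congr rfl fun i _ => by ring
    · ring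
  refine ⟨f, c, τ, fun i => S⁻¹ * L (Sum.inl i), fun t => S⁻¹ * L (Sum.inr t), lab, hsi, ⟨hsb, ?_, ?_, ?_, ?_, ?_, ?_,
    ?_, ?_, ?_, ?_, ?_⟩⟩
  · intro i j hij
    rw [hBF]
    exact mul_nonpos_of_nonneg_of_nonpos (by positivity) (hobt i j hij)
  · intro e he
    rw [hBF]
    have h1 : toR (f e.1) ⬝ᵥ Q *ᵥ toR (f e.2) = 0 := hz e he
    rw [h1, mul_zero]
  · have h1 : (Matrix.of fun i => (S⁻¹ * L (Sum.inl i)) • w i).det =
        (S⁻¹ * L (Sum.inl 0)) * (S⁻¹ * L (Sum.inl 1)) * (S⁻¹ * L (Sum.inl 2)) * (Matrix.of w).det := by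
      simp only [Matrix.det_fin_three, Matrix.of_apply, Pi.smul_apply, smul_eq_mul]
      ring
    rw [h1]
    exact mul_ne_zero (mul_pos (mul_pos (hsi 0) (hsi 1)) (hsi 2)).ne' hdet
  · exact fun t => mul_nonneg hSi.le (hL0 _)
  · rw [← Finset.mul_sum, ← hS]
    exact inv_mul_cancel₀ hS0.ne'
  · exact fun t i => div_pos (hcc t i) (hsi i)
  · intro i
    have h1 : ∀ t, S⁻¹ * L (Sum.inr t) * (cc t i / (S⁻¹ * L (Sum.inl i))) =
        (L (Sum.inr t) * cc t i) / L (Sum.inl i) := by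
      intro t
      have := (hLi i).ne'
      have := hSi.ne'
      field_simp
    rw [Finset.sum_congr rfl fun t _ => h1 t, ← Finset.sum_div, ← hLr i]
    exact div_self (hLi i).ne'
  · intro z i hl
    show S⁻¹ * L (Sum.inl i) * b i ≤ ((S⁻¹ * L (Sum.inl i)) • w i) ⬝ᵥ toR z
    rw [smul_dotProduct, smul_eq_mul]
    exact mul_le_mul_of_nonneg_left ((hlab z).1 i hl) (hsi i).le
  · intro z t hl
    obtain ⟨h1, h2⟩ := (hlab z).2 t hl
    refine ⟨fun i => ?_, ?_⟩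
    · show ((S⁻¹ * L (Sum.inl i)) • w i) ⬝ᵥ toR z ≤ S⁻¹ * L (Sum.inl i) * b i
      rw [smul_dotProduct, smul_eq_mul]
      exact mul_le_mul_of_nonneg_left (h1 i) (hsi i).le
    · refine h2.trans (le_of_eq (Finset.sum_congr rfl fun i _ => ?_))
      show _ = cc t i / (S⁻¹ * L (Sum.inl i)) * (S⁻¹ * L (Sum.inl i) * b i - ((S⁻¹ * L (Sum.inl i)) • w i) ⬝ᵥ toR z)
      rw [smul_dotProduct, smul_eq_mul, ← mul_sub, ← mul_assoc, div_mul_cancel₀ _ (hsi i).ne']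
  · exact fun i => hocc _ (hLi i).ne'
  · intro t ht
    refine hocc _ fun h0 => ht ?_
    show S⁻¹ * L (Sum.inr t) = 0
    rw [h0, mul_zero]

end

end Pool.Agent.Helper21.BS
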