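import Pool.Agent.Helper21.BS.Poly
import Pool.Agent.Helper21.BS.State
import Pool.Agent.Helper21.BS.CellMain

/-!
# MP_be0fb5: the hypotheses of the state theorem for a polytope in general position
-/

set_option autoImplicit false

namespace Pool.Agent.Helper21.BS

open Matrix Filter Topology
open Pool.Agent.Helper12.LW (LFree)
open Pool.Agent.Helper21.FX (ct)
open Pool.Agent.Helper22.Sym (toR bil)
open Pool.Agent.Helper84.FL (Superbase)

/-- independent normals: a positive relation involves three distinct normals -/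
theorem three_of_rel {N : ℕ} (hN : 3 ≤ N) {n : Fin N → Fin 3 → ℝ}
    (hgen : ∀ i j k, i ≠ j → j ≠ k → i ≠ k → (Matrix.of ![n i, n j, n k]).det ≠ 0) {L : Fin N → ℝ}
    (hsum : ∑ i, L i = 1) (hrel : ∑ i, L i • n i = 0) :
    ∃ i j k, i ≠ j ∧ j ≠ k ∧ i ≠ k ∧ L i ≠ 0 ∧ L j ≠ 0 ∧ L k ≠ 0 := by
  classical
  set S : Finset (Fin N) := Finset.univ.filter fun i => L i ≠ 0 with hS
  by_contra hcon
  have hcard : S.card ≤ 2 := by
    by_contra h
    push Not at h
    obtain ⟨i, j, k, hi, hj, hk, hij, hik, hjk⟩ := Finset.two_lt_card_iff.1 h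
    rw [hS, Finset.mem_filter] at hi hj hk
    exact hcon ⟨i, j, k, hij, hjk, hik, hi.2, hj.2, hk.2⟩
  -- three distinct indices containing the support
  obtain ⟨U, hSU, hU⟩ : ∃ U : Finset (Fin N), S ⊆ U ∧ U.card = 3 := by
    have h1 : 3 ≤ (Finset.univ : Finset (Fin N)).card := by simpa using hN
    obtain ⟨U, h2, -, h3⟩ := Finset.exists_subsuperset_card_eq (Finset.subset_univ S) (by omega : S.card ≤ 3) h1
    exact ⟨U, h2, h3⟩
  obtain ⟨i, j, k, hij, hik, hjk, rfl⟩ := Finset.card_eq_three.1 hU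
  have h0 : ∀ l, l ∉ ({i, j, k} : Finset (Fin N)) → L l = 0 := by
    intro l hl
    by_contra hne
    exact hl (hSU (by rw [hS, Finset.mem_filter]; exact ⟨Finset.mem_univ _, hne⟩))
  have e1 : L i + L j + L k = 1 := by
    rw [← hsum, ← Finset.sum_subset (Finset.subset_univ ({i, j, k} : Finset (Fin N))) fun l _ hl => h0 l hl,
      Finset.sum_insert (by simp [hij, hik]), Finset.sum_insert (by simp [hjk]), Finset.sum_singleton]
    ring
  have e2 : L i • n i + (L j • n j + L k • n k) = 0 := by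
    rw [← hrel, ← Finset.sum_subset (Finset.subset_univ ({i, j, k} : Finset (Fin N)))
      fun l _ hl => by rw [h0 l hl, zero_smul],
      Finset.sum_insert (by simp [hij, hik]), Finset.sum_insert (by simp [hjk]), Finset.sum_singleton]
  refine hgen i j k hij hjk hik (Matrix.exists_vecMul_eq_zero_iff.1 ⟨![L i, L j, L k], ?_, ?_⟩)
  · intro h3
    have a := congrFun h3 0
    have b := congrFun h3 1
    have c := congrFun h3 2
    simp at a b c
    rw [a, b, c] at e1
    norm_num at e1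
  · funext a
    have h4 := congrFun e2 a
    simp only [Pi.add_apply, Pi.smul_apply, smul_eq_mul, Pi.zero_apply] at h4
    simp [Matrix.vecMul, dotProduct, Fin.sum_univ_three]
    linarith

theorem hpos_of {N : ℕ} (hN : 3 ≤ N) {n : Fin N → Fin 3 → ℝ}
    (hgen : ∀ i j k, i ≠ j → j ≠ k → i ≠ k → (Matrix.of ![n i, n j, n k]).det ≠ 0) {L : Fin N → ℝ}
    (hsum : ∑ i, L i = 1) (hrel : Nv n L = 0) {y : Fin 3 → ℝ} (hy : y ≠ 0) :
    0 < ∑ t, (L t * (n t ⬝ᵥ y)) ^ 2 := by
  have hrel' : ∑ i, L i • n i = 0 := by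
    funext a
    have := congrFun hrel a
    simpa [Nv, Finset.sum_apply] using this
  obtain ⟨i, j, k, hij, hjk, hik, hi, hj, hk⟩ := three_of_rel hN hgen hsum hrel'
  rcases (Finset.sum_nonneg fun t (_ : t ∈ Finset.univ) => sq_nonneg (L t * (n t ⬝ᵥ y))).lt_or_eq with h | h
  · exact h
  · exfalso
    have h0 : ∀ t, L t * (n t ⬝ᵥ y) = 0 := by
      intro t
      have := (Finset.sum_eq_zero_iff_of_nonneg fun t _ => sq_nonneg (L t * (n t ⬝ᵥ y))).1 h.symm t (Finset.mem_univ _)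
      exact pow_eq_zero_iff (two_ne_zero) |>.1 this
    have hi' := (mul_eq_zero.1 (h0 i)).resolve_left hi
    have hj' := (mul_eq_zero.1 (h0 j)).resolve_left hj
    have hk' := (mul_eq_zero.1 (h0 k)).resolve_left hk
    refine hgen i j k hij hjk hik (Matrix.exists_mulVec_eq_zero_iff.1 ⟨y, hy, ?_⟩)
    funext a
    fin_cases a
    · exact hi'
    · exact hj'
    · exact hk'

/-- the label of a lattice point: the most violated plane -/
theorem exists_lab {N : ℕ} (hN : 3 ≤ N) {n : Fin N → Fin 3 → ℝ} {c : Fin 3 → ℝ} {β : Fin N → ℝ}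
    (hβ : ∀ i, 0 < β i) (hcomp : IsCompact (Pol n c β)) (hno : ∀ z : Fin 3 → ℤ, toR z ∉ Pol n c β) :
    ∃ lab : (Fin 3 → ℤ) → Fin N, (∀ z, β (lab z) < n (lab z) ⬝ᵥ (toR z - c)) ∧
      ∃ κ : ℝ, 0 < κ ∧ ∀ z : Fin 3 → ℤ, κ * ‖toR z - c‖ ≤ n (lab z) ⬝ᵥ (toR z - c) := by
  classical
  have hne : Nonempty (Fin N) := ⟨⟨0, by omega⟩⟩
  obtain ⟨R0, hR0⟩ := hcomp.isBounded.exists_norm_le
  set R : ℝ := max 1 (R0 + ‖c‖) with hR
  have hR1 : 1 ≤ R := le_max_left _ _
  have hRK : ∀ x ∈ Pol n c β, ‖x - c‖ ≤ R := by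
    intro x hx
    exact ((norm_sub_le x c).trans (by linarith [hR0 x hx])).trans (le_max_right _ _)
  have hex : ∀ z : Fin 3 → ℤ, ∃ i, ∀ j, n j ⬝ᵥ (toR z - c) / β j ≤ n i ⬝ᵥ (toR z - c) / β i := fun z =>
    Finite.exists_max fun i => n i ⬝ᵥ (toR z - c) / β i
  choose lab hlab using hex
  have hone : ∀ z, 1 < n (lab z) ⬝ᵥ (toR z - c) / β (lab z) := by
    intro z
    have h1 := hno z
    have h2 : ∃ j, β j < n j ⬝ᵥ (toR z - c) := by
      by_contra hcon
      push Not at hcon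
      exact h1 hcon
    obtain ⟨j, hj⟩ := h2
    exact lt_of_lt_of_le ((one_lt_div (hβ j)).2 hj) (hlab z j)
  obtain ⟨i0, hi0⟩ := Finite.exists_min β
  refine ⟨lab, fun z => (one_lt_div (hβ _)).1 (hone z), β i0 / (2 * R), div_pos (hβ i0) (by linarith), fun z => ?_⟩
  set y : Fin 3 → ℝ := toR z - c with hy
  by_cases hy0 : y = 0
  · rw [hy0]
    simp
  · have hny : 0 < ‖y‖ := norm_pos_iff.2 hy0
    set t : ℝ := 2 * R / ‖y‖ with ht
    have ht0 : 0 < t := by rw [ht]; exact div_pos (by linarith) hny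
    have hout : c + t • y ∉ Pol n c β := by
      intro hin
      have h1 := hRK _ hin
      rw [add_sub_cancel_left, norm_smul, Real.norm_eq_abs, abs_of_pos ht0, ht, div_mul_cancel₀ _ hny.ne'] at h1
      linarith
    have h2 : ∃ j, β j < n j ⬝ᵥ (c + t • y - c) := by
      by_contra hcon
      push Not at hcon
      exact hout hcon
    obtain ⟨j, hj⟩ := h2
    rw [add_sub_cancel_left, dotProduct_smul, smul_eq_mul] at hj
    have h3 : 1 / t < n j ⬝ᵥ y / β j := by
      rw [div_lt_div_iff₀ ht0 (hβ j)]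
      linarith
    have h4 := lt_of_lt_of_le h3 (hlab z j)
    have h5 : 1 / t * β (lab z) < n (lab z) ⬝ᵥ y := by
      rwa [lt_div_iff₀ (hβ _)] at h4
    have h6 : 1 / t = ‖y‖ / (2 * R) := by
      rw [ht]
      field_simp
    rw [h6] at h5
    have h7 : β i0 / (2 * R) * ‖y‖ = ‖y‖ / (2 * R) * β i0 := by ring
    rw [h7]
    exact (mul_le_mul_of_nonneg_left (hi0 _) (by positivity)).trans h5.le

end Pool.Agent.Helper21.BS
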