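import Mathlib

/-!
# MP_be0fb5: Delaunay cells of obtuse forms, the finite part
-/

set_option autoImplicit false

namespace Pool.Agent.Helper21.BS

/-- a change of superbase, its inverse, a shift and a cell type -/
structure Row where
  M : Fin 4 → Fin 4 → ℤ
  N : Fin 4 → Fin 4 → ℤ
  s : Fin 4 → ℤ
  τ : Fin 5

/-- the six edges -/
def ed : Fin 6 → Fin 4 × Fin 4 := ![(0, 1), (0, 2), (0, 3), (1, 2), (1, 3), (2, 3)]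

/-- the positive edges of the six types of graphs -/
def posE : Fin 6 → List (Fin 6) :=
  ![[0, 1, 2, 3, 4, 5], [1, 2, 3, 4, 5], [1, 2, 3, 4], [2, 3, 4, 5], [2, 4, 5], [2, 3, 4]]

/-- the points of the five cells in superbase coordinates: simplex, pyramid, octahedron, prism, cube -/
def pts : Fin 5 → List (Fin 4 → ℤ) :=
  ![[![0, 0, 0, 0], ![1, 0, 0, 0], ![1, 1, 0, 0], ![1, 1, 1, 0]],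
    [![0, 0, 0, 0], ![1, 0, 0, 0], ![1, 1, 0, 0], ![0, 1, 0, 0], ![1, 1, 1, 0]],
    [![0, 0, 0, 0], ![1, 0, 0, 0], ![1, 1, 0, 0], ![0, 1, 0, 0], ![0, 0, -1, 0], ![0, 0, 0, -1]],
    [![0, 0, 0, 0], ![0, 1, 0, 0], ![0, 1, 1, 0], ![1, 0, 0, 0], ![1, 1, 0, 0], ![1, 1, 1, 0]],
    [![0, 0, 0, 0], ![1, 0, 0, 0], ![0, 1, 0, 0], ![0, 0, 1, 0], ![1, 1, 0, 0], ![1, 0, 1, 0], ![0, 1, 1, 0],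
      ![1, 1, 1, 0]]]

/-- the orthogonal pairs of the five cells -/
def Hz : Fin 5 → List (Fin 4 × Fin 4) :=
  ![[], [(0, 1)], [(0, 1), (2, 3)], [(0, 1), (0, 2)], [(0, 1), (0, 2), (1, 2)]]

/-- the table -/
def rows : Fin 6 → List Row := ![
  [⟨![![-1, -1, -1, 0], ![1, 0, 0, 0], ![0, 1, 0, 0], ![0, 0, 1, 0]], ![![0, 1, 0, 0], ![0, 0, 1, 0], ![-1, -1, -1, 0], ![1, 0, 0, 0]], ![1, 1, 1, 0], 0⟩,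
   ⟨![![-1, -1, -1, 0], ![0, 0, 1, 0], ![1, 0, 0, 0], ![0, 1, 0, 0]], ![![0, 0, 1, 0], ![-1, -1, -1, 0], ![0, 1, 0, 0], ![1, 0, 0, 0]], ![1, 1, 0, 0], 0⟩,
   ⟨![![-1, -1, -1, 0], ![0, 0, 1, 0], ![0, 1, 0, 0], ![1, 0, 0, 0]], ![![-1, -1, -1, 0], ![0, 0, 1, 0], ![0, 1, 0, 0], ![1, 0, 0, 0]], ![1, 0, 0, 0], 0⟩,
   ⟨![![-1, -1, -1, 0], ![0, 1, 0, 0], ![0, 0, 1, 0], ![1, 0, 0, 0]], ![![-1, -1, -1, 0], ![0, 1, 0, 0], ![0, 0, 1, 0], ![1, 0, 0, 0]], ![1, 0, 0, 0], 0⟩,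
   ⟨![![-1, -1, -1, 0], ![1, 0, 0, 0], ![0, 0, 1, 0], ![0, 1, 0, 0]], ![![0, 1, 0, 0], ![-1, -1, -1, 0], ![0, 0, 1, 0], ![1, 0, 0, 0]], ![1, 1, 1, 0], 0⟩,
   ⟨![![-1, -1, -1, 0], ![0, 0, 1, 0], ![0, 1, 0, 0], ![1, 0, 0, 0]], ![![-1, -1, -1, 0], ![0, 0, 1, 0], ![0, 1, 0, 0], ![1, 0, 0, 0]], ![1, 0, 0, 0], 0⟩,
   ⟨![![-1, -1, -1, 0], ![0, 1, 0, 0], ![1, 0, 0, 0], ![0, 0, 1, 0]], ![![0, 0, 1, 0], ![0, 1, 0, 0], ![-1, -1, -1, 0], ![1, 0, 0, 0]], ![1, 0, 1, 0], 0⟩,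
   ⟨![![-1, -1, -1, 0], ![0, 0, 1, 0], ![0, 1, 0, 0], ![1, 0, 0, 0]], ![![-1, -1, -1, 0], ![0, 0, 1, 0], ![0, 1, 0, 0], ![1, 0, 0, 0]], ![1, 0, 0, 0], 0⟩,
   ⟨![![-1, -1, -1, 0], ![0, 0, 1, 0], ![0, 1, 0, 0], ![1, 0, 0, 0]], ![![-1, -1, -1, 0], ![0, 0, 1, 0], ![0, 1, 0, 0], ![1, 0, 0, 0]], ![0, 0, 0, 0], 0⟩,
   ⟨![![-1, -1, -1, 0], ![0, 0, 1, 0], ![0, 1, 0, 0], ![1, 0, 0, 0]], ![![-1, -1, -1, 0], ![0, 0, 1, 0], ![0, 1, 0, 0], ![1, 0, 0, 0]], ![1, 1, 0, 0], 0⟩,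
   ⟨![![-1, -1, -1, 0], ![0, 0, 1, 0], ![0, 1, 0, 0], ![1, 0, 0, 0]], ![![-1, -1, -1, 0], ![0, 0, 1, 0], ![0, 1, 0, 0], ![1, 0, 0, 0]], ![0, 0, 0, 0], 0⟩,
   ⟨![![-1, -1, -1, 0], ![1, 0, 0, 0], ![0, 1, 0, 0], ![0, 0, 1, 0]], ![![0, 1, 0, 0], ![0, 0, 1, 0], ![-1, -1, -1, 0], ![1, 0, 0, 0]], ![0, 0, 0, 0], 0⟩,
   ⟨![![-1, -1, -1, 0], ![0, 0, 1, 0], ![0, 1, 0, 0], ![1, 0, 0, 0]], ![![-1, -1, -1, 0], ![0, 0, 1, 0], ![0, 1, 0, 0], ![1, 0, 0, 0]], ![0, 0, 0, 0], 0⟩,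
   ⟨![![-1, -1, -1, 0], ![0, 0, 1, 0], ![0, 1, 0, 0], ![1, 0, 0, 0]], ![![-1, -1, -1, 0], ![0, 0, 1, 0], ![0, 1, 0, 0], ![1, 0, 0, 0]], ![0, 0, 0, 0], 0⟩,
   ⟨![![-1, -1, -1, 0], ![0, 0, 1, 0], ![0, 1, 0, 0], ![1, 0, 0, 0]], ![![-1, -1, -1, 0], ![0, 0, 1, 0], ![0, 1, 0, 0], ![1, 0, 0, 0]], ![1, 0, 0, 0], 0⟩,
   ⟨![![-1, -1, -1, 0], ![1, 0, 0, 0], ![0, 0, 1, 0], ![0, 1, 0, 0]], ![![0, 1, 0, 0], ![-1, -1, -1, 0], ![0, 0, 1, 0], ![1, 0, 0, 0]], ![0, 0, 0, 0], 0⟩,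
   ⟨![![-1, -1, -1, 0], ![0, 0, 1, 0], ![0, 1, 0, 0], ![1, 0, 0, 0]], ![![-1, -1, -1, 0], ![0, 0, 1, 0], ![0, 1, 0, 0], ![1, 0, 0, 0]], ![1, 1, 1, 0], 0⟩,
   ⟨![![-1, -1, -1, 0], ![0, 0, 1, 0], ![0, 1, 0, 0], ![1, 0, 0, 0]], ![![-1, -1, -1, 0], ![0, 0, 1, 0], ![0, 1, 0, 0], ![1, 0, 0, 0]], ![0, 0, 0, 0], 0⟩,
   ⟨![![-1, -1, -1, 0], ![0, 0, 1, 0], ![0, 1, 0, 0], ![1, 0, 0, 0]], ![![-1, -1, -1, 0], ![0, 0, 1, 0], ![0, 1, 0, 0], ![1, 0, 0, 0]], ![0, 0, 0, 0], 0⟩,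
   ⟨![![-1, -1, -1, 0], ![0, 0, 1, 0], ![0, 1, 0, 0], ![1, 0, 0, 0]], ![![-1, -1, -1, 0], ![0, 0, 1, 0], ![0, 1, 0, 0], ![1, 0, 0, 0]], ![0, 0, 0, 0], 0⟩,
   ⟨![![-1, -1, -1, 0], ![0, 0, 1, 0], ![1, 0, 0, 0], ![0, 1, 0, 0]], ![![0, 0, 1, 0], ![-1, -1, -1, 0], ![0, 1, 0, 0], ![1, 0, 0, 0]], ![1, 1, 1, 0], 0⟩,
   ⟨![![-1, -1, -1, 0], ![0, 0, 1, 0], ![0, 1, 0, 0], ![1, 0, 0, 0]], ![![-1, -1, -1, 0], ![0, 0, 1, 0], ![0, 1, 0, 0], ![1, 0, 0, 0]], ![0, 0, 0, 0], 0⟩,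
   ⟨![![-1, -1, -1, 0], ![0, 1, 0, 0], ![0, 0, 1, 0], ![1, 0, 0, 0]], ![![-1, -1, -1, 0], ![0, 1, 0, 0], ![0, 0, 1, 0], ![1, 0, 0, 0]], ![1, 0, 1, 0], 0⟩,
   ⟨![![-1, -1, -1, 0], ![0, 0, 1, 0], ![0, 1, 0, 0], ![1, 0, 0, 0]], ![![-1, -1, -1, 0], ![0, 0, 1, 0], ![0, 1, 0, 0], ![1, 0, 0, 0]], ![1, 0, 0, 0], 0⟩,
   ⟨![![-1, -1, -1, 0], ![0, 0, 1, 0], ![0, 1, 0, 0], ![1, 0, 0, 0]], ![![-1, -1, -1, 0], ![0, 0, 1, 0], ![0, 1, 0, 0], ![1, 0, 0, 0]], ![0, 0, 0, 0], 0⟩,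
   ⟨![![-1, -1, -1, 0], ![0, 0, 1, 0], ![0, 1, 0, 0], ![1, 0, 0, 0]], ![![-1, -1, -1, 0], ![0, 0, 1, 0], ![0, 1, 0, 0], ![1, 0, 0, 0]], ![0, 0, 0, 0], 0⟩,
   ⟨![![-1, -1, -1, 0], ![0, 0, 1, 0], ![0, 1, 0, 0], ![1, 0, 0, 0]], ![![-1, -1, -1, 0], ![0, 0, 1, 0], ![0, 1, 0, 0], ![1, 0, 0, 0]], ![0, 0, 0, 0], 0⟩,
   ⟨![![-1, -1, -1, 0], ![0, 0, 1, 0], ![0, 1, 0, 0], ![1, 0, 0, 0]], ![![-1, -1, -1, 0], ![0, 0, 1, 0], ![0, 1, 0, 0], ![1, 0, 0, 0]], ![0, 0, 0, 0], 0⟩,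
   ⟨![![-1, -1, -1, 0], ![0, 0, 1, 0], ![0, 1, 0, 0], ![1, 0, 0, 0]], ![![-1, -1, -1, 0], ![0, 0, 1, 0], ![0, 1, 0, 0], ![1, 0, 0, 0]], ![1, 1, 1, 0], 0⟩,
   ⟨![![-1, -1, -1, 0], ![0, 0, 1, 0], ![0, 1, 0, 0], ![1, 0, 0, 0]], ![![-1, -1, -1, 0], ![0, 0, 1, 0], ![0, 1, 0, 0], ![1, 0, 0, 0]], ![0, 0, 0, 0], 0⟩,
   ⟨![![-1, -1, -1, 0], ![1, 0, 0, 0], ![0, 1, 0, 0], ![0, 0, 1, 0]], ![![0, 1, 0, 0], ![0, 0, 1, 0], ![-1, -1, -1, 0], ![1, 0, 0, 0]], ![0, 0, 1, 0], 0⟩,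
   ⟨![![-1, -1, -1, 0], ![0, 0, 1, 0], ![1, 0, 0, 0], ![0, 1, 0, 0]], ![![0, 0, 1, 0], ![-1, -1, -1, 0], ![0, 1, 0, 0], ![1, 0, 0, 0]], ![0, 0, 0, 0], 0⟩,
   ⟨![![-1, -1, -1, 0], ![0, 1, 0, 0], ![1, 0, 0, 0], ![0, 0, 1, 0]], ![![0, 0, 1, 0], ![0, 1, 0, 0], ![-1, -1, -1, 0], ![1, 0, 0, 0]], ![1, 1, 1, 0], 0⟩,
   ⟨![![-1, -1, -1, 0], ![0, 0, 1, 0], ![0, 1, 0, 0], ![1, 0, 0, 0]], ![![-1, -1, -1, 0], ![0, 0, 1, 0], ![0, 1, 0, 0], ![1, 0, 0, 0]], ![1, 1, 0, 0], 0⟩,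
   ⟨![![-1, -1, -1, 0], ![0, 0, 1, 0], ![0, 1, 0, 0], ![1, 0, 0, 0]], ![![-1, -1, -1, 0], ![0, 0, 1, 0], ![0, 1, 0, 0], ![1, 0, 0, 0]], ![0, 0, 0, 0], 0⟩,
   ⟨![![-1, -1, -1, 0], ![0, 0, 1, 0], ![0, 1, 0, 0], ![1, 0, 0, 0]], ![![-1, -1, -1, 0], ![0, 0, 1, 0], ![0, 1, 0, 0], ![1, 0, 0, 0]], ![1, 1, 0, 0], 0⟩,
   ⟨![![-1, -1, -1, 0], ![0, 0, 1, 0], ![0, 1, 0, 0], ![1, 0, 0, 0]], ![![-1, -1, -1, 0], ![0, 0, 1, 0], ![0, 1, 0, 0], ![1, 0, 0, 0]], ![1, 1, 1, 0], 0⟩,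
   ⟨![![-1, -1, -1, 0], ![0, 0, 1, 0], ![0, 1, 0, 0], ![1, 0, 0, 0]], ![![-1, -1, -1, 0], ![0, 0, 1, 0], ![0, 1, 0, 0], ![1, 0, 0, 0]], ![0, 0, 0, 0], 0⟩,
   ⟨![![-1, -1, -1, 0], ![0, 0, 1, 0], ![0, 1, 0, 0], ![1, 0, 0, 0]], ![![-1, -1, -1, 0], ![0, 0, 1, 0], ![0, 1, 0, 0], ![1, 0, 0, 0]], ![0, 0, 0, 0], 0⟩,
   ⟨![![-1, -1, -1, 0], ![0, 0, 1, 0], ![0, 1, 0, 0], ![1, 0, 0, 0]], ![![-1, -1, -1, 0], ![0, 0, 1, 0], ![0, 1, 0, 0], ![1, 0, 0, 0]], ![0, 0, 0, 0], 0⟩,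
   ⟨![![-1, -1, -1, 0], ![0, 0, 1, 0], ![0, 1, 0, 0], ![1, 0, 0, 0]], ![![-1, -1, -1, 0], ![0, 0, 1, 0], ![0, 1, 0, 0], ![1, 0, 0, 0]], ![1, 1, 0, 0], 0⟩,
   ⟨![![-1, -1, -1, 0], ![1, 0, 0, 0], ![0, 0, 1, 0], ![0, 1, 0, 0]], ![![0, 1, 0, 0], ![-1, -1, -1, 0], ![0, 0, 1, 0], ![1, 0, 0, 0]], ![0, 1, 0, 0], 0⟩,
   ⟨![![-1, -1, -1, 0], ![0, 0, 1, 0], ![0, 1, 0, 0], ![1, 0, 0, 0]], ![![-1, -1, -1, 0], ![0, 0, 1, 0], ![0, 1, 0, 0], ![1, 0, 0, 0]], ![0, 0, 0, 0], 0⟩,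
   ⟨![![-1, -1, -1, 0], ![0, 1, 0, 0], ![1, 0, 0, 0], ![0, 0, 1, 0]], ![![0, 0, 1, 0], ![0, 1, 0, 0], ![-1, -1, -1, 0], ![1, 0, 0, 0]], ![0, 0, 0, 0], 0⟩,
   ⟨![![-1, -1, -1, 0], ![0, 0, 1, 0], ![0, 1, 0, 0], ![1, 0, 0, 0]], ![![-1, -1, -1, 0], ![0, 0, 1, 0], ![0, 1, 0, 0], ![1, 0, 0, 0]], ![0, 0, 0, 0], 0⟩,
   ⟨![![-1, -1, -1, 0], ![0, 0, 1, 0], ![0, 1, 0, 0], ![1, 0, 0, 0]], ![![-1, -1, -1, 0], ![0, 0, 1, 0], ![0, 1, 0, 0], ![1, 0, 0, 0]], ![0, 0, 0, 0], 0⟩,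
   ⟨![![-1, -1, -1, 0], ![0, 0, 1, 0], ![0, 1, 0, 0], ![1, 0, 0, 0]], ![![-1, -1, -1, 0], ![0, 0, 1, 0], ![0, 1, 0, 0], ![1, 0, 0, 0]], ![0, 0, 0, 0], 0⟩,
   ⟨![![-1, -1, -1, 0], ![0, 0, 1, 0], ![0, 1, 0, 0], ![1, 0, 0, 0]], ![![-1, -1, -1, 0], ![0, 0, 1, 0], ![0, 1, 0, 0], ![1, 0, 0, 0]], ![0, 0, 0, 0], 0⟩,
   ⟨![![-1, -1, -1, 0], ![0, 1, 0, 0], ![0, 0, 1, 0], ![1, 0, 0, 0]], ![![-1, -1, -1, 0], ![0, 1, 0, 0], ![0, 0, 1, 0], ![1, 0, 0, 0]], ![1, 1, 1, 0], 0⟩,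
   ⟨![![-1, -1, -1, 0], ![0, 0, 1, 0], ![0, 1, 0, 0], ![1, 0, 0, 0]], ![![-1, -1, -1, 0], ![0, 0, 1, 0], ![0, 1, 0, 0], ![1, 0, 0, 0]], ![1, 1, 0, 0], 0⟩,
   ⟨![![-1, -1, -1, 0], ![0, 0, 1, 0], ![0, 1, 0, 0], ![1, 0, 0, 0]], ![![-1, -1, -1, 0], ![0, 0, 1, 0], ![0, 1, 0, 0], ![1, 0, 0, 0]], ![0, 0, 0, 0], 0⟩,
   ⟨![![-1, -1, -1, 0], ![0, 0, 1, 0], ![0, 1, 0, 0], ![1, 0, 0, 0]], ![![-1, -1, -1, 0], ![0, 0, 1, 0], ![0, 1, 0, 0], ![1, 0, 0, 0]], ![0, 0, 0, 0], 0⟩,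
   ⟨![![-1, -1, -1, 0], ![0, 0, 1, 0], ![0, 1, 0, 0], ![1, 0, 0, 0]], ![![-1, -1, -1, 0], ![0, 0, 1, 0], ![0, 1, 0, 0], ![1, 0, 0, 0]], ![1, 1, 1, 0], 0⟩,
   ⟨![![-1, -1, -1, 0], ![0, 0, 1, 0], ![0, 1, 0, 0], ![1, 0, 0, 0]], ![![-1, -1, -1, 0], ![0, 0, 1, 0], ![0, 1, 0, 0], ![1, 0, 0, 0]], ![0, 0, 0, 0], 0⟩,
   ⟨![![-1, -1, -1, 0], ![0, 0, 1, 0], ![0, 1, 0, 0], ![1, 0, 0, 0]], ![![-1, -1, -1, 0], ![0, 0, 1, 0], ![0, 1, 0, 0], ![1, 0, 0, 0]], ![1, 1, 1, 0], 0⟩,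
   ⟨![![-1, -1, -1, 0], ![0, 0, 1, 0], ![0, 1, 0, 0], ![1, 0, 0, 0]], ![![-1, -1, -1, 0], ![0, 0, 1, 0], ![0, 1, 0, 0], ![1, 0, 0, 0]], ![0, 0, 0, 0], 0⟩,
   ⟨![![-1, -1, -1, 0], ![1, 0, 0, 0], ![0, 1, 0, 0], ![0, 0, 1, 0]], ![![0, 1, 0, 0], ![0, 0, 1, 0], ![-1, -1, -1, 0], ![1, 0, 0, 0]], ![0, 1, 1, 0], 0⟩,
   ⟨![![-1, -1, -1, 0], ![0, 0, 1, 0], ![1, 0, 0, 0], ![0, 1, 0, 0]], ![![0, 0, 1, 0], ![-1, -1, -1, 0], ![0, 1, 0, 0], ![1, 0, 0, 0]], ![0, 1, 0, 0], 0⟩,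
   ⟨![![-1, -1, -1, 0], ![0, 0, 1, 0], ![0, 1, 0, 0], ![1, 0, 0, 0]], ![![-1, -1, -1, 0], ![0, 0, 1, 0], ![0, 1, 0, 0], ![1, 0, 0, 0]], ![0, 0, 0, 0], 0⟩,
   ⟨![![-1, -1, -1, 0], ![0, 1, 0, 0], ![0, 0, 1, 0], ![1, 0, 0, 0]], ![![-1, -1, -1, 0], ![0, 1, 0, 0], ![0, 0, 1, 0], ![1, 0, 0, 0]], ![0, 0, 0, 0], 0⟩,
   ⟨![![-1, -1, -1, 0], ![1, 0, 0, 0], ![0, 0, 1, 0], ![0, 1, 0, 0]], ![![0, 1, 0, 0], ![-1, -1, -1, 0], ![0, 0, 1, 0], ![1, 0, 0, 0]], ![0, 1, 1, 0], 0⟩,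
   ⟨![![-1, -1, -1, 0], ![0, 0, 1, 0], ![0, 1, 0, 0], ![1, 0, 0, 0]], ![![-1, -1, -1, 0], ![0, 0, 1, 0], ![0, 1, 0, 0], ![1, 0, 0, 0]], ![0, 0, 0, 0], 0⟩,
   ⟨![![-1, -1, -1, 0], ![0, 1, 0, 0], ![1, 0, 0, 0], ![0, 0, 1, 0]], ![![0, 0, 1, 0], ![0, 1, 0, 0], ![-1, -1, -1, 0], ![1, 0, 0, 0]], ![0, 0, 1, 0], 0⟩,
   ⟨![![-1, -1, -1, 0], ![0, 0, 1, 0], ![0, 1, 0, 0], ![1, 0, 0, 0]], ![![-1, -1, -1, 0], ![0, 0, 1, 0], ![0, 1, 0, 0], ![1, 0, 0, 0]], ![0, 0, 0, 0], 0⟩],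
  [⟨![![-1, 0, 0, 0], ![0, -1, 0, 0], ![1, 1, 1, 0], ![0, 0, -1, 0]], ![![-1, 0, 0, 0], ![0, -1, 0, 0], ![1, 1, 1, 0], ![0, 0, -1, 0]], ![1, 1, 0, 0], 1⟩,
   ⟨![![-1, 0, 0, 0], ![0, -1, 0, 0], ![0, 0, -1, 0], ![1, 1, 1, 0]], ![![-1, 0, 0, 0], ![0, -1, 0, 0], ![0, 0, -1, 0], ![1, 1, 1, 0]], ![1, 1, 0, 0], 1⟩,
   ⟨![![-1, -1, -1, 0], ![0, 0, 1, 0], ![0, 1, 0, 0], ![1, 0, 0, 0]], ![![-1, -1, -1, 0], ![0, 0, 1, 0], ![0, 1, 0, 0], ![1, 0, 0, 0]], ![1, 0, 0, 0], 0⟩,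
   ⟨![![-1, -1, -1, 0], ![0, 1, 0, 0], ![0, 0, 1, 0], ![1, 0, 0, 0]], ![![-1, -1, -1, 0], ![0, 1, 0, 0], ![0, 0, 1, 0], ![1, 0, 0, 0]], ![1, 0, 0, 0], 0⟩,
   ⟨![![-1, -1, -1, 0], ![1, 0, 0, 0], ![0, 0, 1, 0], ![0, 1, 0, 0]], ![![0, 1, 0, 0], ![-1, -1, -1, 0], ![0, 0, 1, 0], ![1, 0, 0, 0]], ![1, 1, 1, 0], 0⟩,
   ⟨![![-1, -1, -1, 0], ![0, 0, 1, 0], ![0, 1, 0, 0], ![1, 0, 0, 0]], ![![-1, -1, -1, 0], ![0, 0, 1, 0], ![0, 1, 0, 0], ![1, 0, 0, 0]], ![1, 0, 0, 0], 0⟩,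
   ⟨![![-1, 0, 0, 0], ![0, -1, 0, 0], ![1, 1, 1, 0], ![0, 0, -1, 0]], ![![-1, 0, 0, 0], ![0, -1, 0, 0], ![1, 1, 1, 0], ![0, 0, -1, 0]], ![1, 0, 0, 0], 1⟩,
   ⟨![![-1, 0, 0, 0], ![0, -1, 0, 0], ![0, 0, -1, 0], ![1, 1, 1, 0]], ![![-1, 0, 0, 0], ![0, -1, 0, 0], ![0, 0, -1, 0], ![1, 1, 1, 0]], ![1, 0, 0, 0], 1⟩,
   ⟨![![-1, -1, -1, 0], ![0, 0, 1, 0], ![0, 1, 0, 0], ![1, 0, 0, 0]], ![![-1, -1, -1, 0], ![0, 0, 1, 0], ![0, 1, 0, 0], ![1, 0, 0, 0]], ![1, 1, 0, 0], 0⟩,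
   ⟨![![-1, -1, -1, 0], ![1, 0, 0, 0], ![0, 0, 1, 0], ![0, 1, 0, 0]], ![![0, 1, 0, 0], ![-1, -1, -1, 0], ![0, 0, 1, 0], ![1, 0, 0, 0]], ![0, 1, 0, 0], 0⟩,
   ⟨![![-1, -1, -1, 0], ![0, 0, 1, 0], ![0, 1, 0, 0], ![1, 0, 0, 0]], ![![-1, -1, -1, 0], ![0, 0, 1, 0], ![0, 1, 0, 0], ![1, 0, 0, 0]], ![0, 0, 0, 0], 0⟩,
   ⟨![![-1, 0, 0, 0], ![0, -1, 0, 0], ![1, 1, 1, 0], ![0, 0, -1, 0]], ![![-1, 0, 0, 0], ![0, -1, 0, 0], ![1, 1, 1, 0], ![0, 0, -1, 0]], ![0, 0, -1, 0], 1⟩,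
   ⟨![![-1, -1, -1, 0], ![0, 0, 1, 0], ![0, 1, 0, 0], ![1, 0, 0, 0]], ![![-1, -1, -1, 0], ![0, 0, 1, 0], ![0, 1, 0, 0], ![1, 0, 0, 0]], ![0, 0, 0, 0], 0⟩,
   ⟨![![-1, -1, -1, 0], ![0, 0, 1, 0], ![0, 1, 0, 0], ![1, 0, 0, 0]], ![![-1, -1, -1, 0], ![0, 0, 1, 0], ![0, 1, 0, 0], ![1, 0, 0, 0]], ![0, 0, 0, 0], 0⟩,
   ⟨![![-1, -1, -1, 0], ![0, 0, 1, 0], ![0, 1, 0, 0], ![1, 0, 0, 0]], ![![-1, -1, -1, 0], ![0, 0, 1, 0], ![0, 1, 0, 0], ![1, 0, 0, 0]], ![1, 0, 0, 0], 0⟩,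
   ⟨![![-1, -1, -1, 0], ![1, 0, 0, 0], ![0, 0, 1, 0], ![0, 1, 0, 0]], ![![0, 1, 0, 0], ![-1, -1, -1, 0], ![0, 0, 1, 0], ![1, 0, 0, 0]], ![0, 0, 0, 0], 0⟩,
   ⟨![![-1, -1, -1, 0], ![0, 1, 0, 0], ![0, 0, 1, 0], ![1, 0, 0, 0]], ![![-1, -1, -1, 0], ![0, 1, 0, 0], ![0, 0, 1, 0], ![1, 0, 0, 0]], ![1, 1, 1, 0], 0⟩,
   ⟨![![-1, -1, -1, 0], ![0, 0, 1, 0], ![0, 1, 0, 0], ![1, 0, 0, 0]], ![![-1, -1, -1, 0], ![0, 0, 1, 0], ![0, 1, 0, 0], ![1, 0, 0, 0]], ![1, 1, 0, 0], 0⟩,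
   ⟨![![-1, -1, -1, 0], ![0, 0, 1, 0], ![0, 1, 0, 0], ![1, 0, 0, 0]], ![![-1, -1, -1, 0], ![0, 0, 1, 0], ![0, 1, 0, 0], ![1, 0, 0, 0]], ![0, 0, 0, 0], 0⟩,
   ⟨![![-1, -1, -1, 0], ![0, 0, 1, 0], ![0, 1, 0, 0], ![1, 0, 0, 0]], ![![-1, -1, -1, 0], ![0, 0, 1, 0], ![0, 1, 0, 0], ![1, 0, 0, 0]], ![0, 0, 0, 0], 0⟩,
   ⟨![![-1, 0, 0, 0], ![0, -1, 0, 0], ![0, 0, -1, 0], ![1, 1, 1, 0]], ![![-1, 0, 0, 0], ![0, -1, 0, 0], ![0, 0, -1, 0], ![1, 1, 1, 0]], ![1, 1, 1, 0], 1⟩,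
   ⟨![![-1, -1, -1, 0], ![0, 0, 1, 0], ![0, 1, 0, 0], ![1, 0, 0, 0]], ![![-1, -1, -1, 0], ![0, 0, 1, 0], ![0, 1, 0, 0], ![1, 0, 0, 0]], ![0, 0, 0, 0], 0⟩,
   ⟨![![-1, -1, -1, 0], ![0, 1, 0, 0], ![0, 0, 1, 0], ![1, 0, 0, 0]], ![![-1, -1, -1, 0], ![0, 1, 0, 0], ![0, 0, 1, 0], ![1, 0, 0, 0]], ![1, 0, 1, 0], 0⟩,
   ⟨![![-1, -1, -1, 0], ![0, 0, 1, 0], ![0, 1, 0, 0], ![1, 0, 0, 0]], ![![-1, -1, -1, 0], ![0, 0, 1, 0], ![0, 1, 0, 0], ![1, 0, 0, 0]], ![1, 0, 0, 0], 0⟩,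
   ⟨![![-1, 0, 0, 0], ![0, -1, 0, 0], ![1, 1, 1, 0], ![0, 0, -1, 0]], ![![-1, 0, 0, 0], ![0, -1, 0, 0], ![1, 1, 1, 0], ![0, 0, -1, 0]], ![0, 1, 0, 0], 1⟩,
   ⟨![![-1, 0, 0, 0], ![0, -1, 0, 0], ![0, 0, -1, 0], ![1, 1, 1, 0]], ![![-1, 0, 0, 0], ![0, -1, 0, 0], ![0, 0, -1, 0], ![1, 1, 1, 0]], ![0, 1, 0, 0], 1⟩,
   ⟨![![-1, -1, -1, 0], ![0, 0, 1, 0], ![0, 1, 0, 0], ![1, 0, 0, 0]], ![![-1, -1, -1, 0], ![0, 0, 1, 0], ![0, 1, 0, 0], ![1, 0, 0, 0]], ![0, 0, 0, 0], 0⟩,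
   ⟨![![-1, -1, -1, 0], ![0, 1, 0, 0], ![0, 0, 1, 0], ![1, 0, 0, 0]], ![![-1, -1, -1, 0], ![0, 1, 0, 0], ![0, 0, 1, 0], ![1, 0, 0, 0]], ![0, 0, 0, 0], 0⟩,
   ⟨![![-1, -1, -1, 0], ![1, 0, 0, 0], ![0, 0, 1, 0], ![0, 1, 0, 0]], ![![0, 1, 0, 0], ![-1, -1, -1, 0], ![0, 0, 1, 0], ![1, 0, 0, 0]], ![0, 1, 1, 0], 0⟩,
   ⟨![![-1, -1, -1, 0], ![0, 0, 1, 0], ![0, 1, 0, 0], ![1, 0, 0, 0]], ![![-1, -1, -1, 0], ![0, 0, 1, 0], ![0, 1, 0, 0], ![1, 0, 0, 0]], ![0, 0, 0, 0], 0⟩,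
   ⟨![![-1, 0, 0, 0], ![0, -1, 0, 0], ![1, 1, 1, 0], ![0, 0, -1, 0]], ![![-1, 0, 0, 0], ![0, -1, 0, 0], ![1, 1, 1, 0], ![0, 0, -1, 0]], ![0, 0, 0, 0], 1⟩,
   ⟨![![-1, 0, 0, 0], ![0, -1, 0, 0], ![0, 0, -1, 0], ![1, 1, 1, 0]], ![![-1, 0, 0, 0], ![0, -1, 0, 0], ![0, 0, -1, 0], ![1, 1, 1, 0]], ![0, 0, 0, 0], 1⟩],
  [⟨![![-1, -1, -1, 0], ![0, 0, 1, 0], ![0, 1, 0, 0], ![1, 0, 0, 0]], ![![-1, -1, -1, 0], ![0, 0, 1, 0], ![0, 1, 0, 0], ![1, 0, 0, 0]], ![1, 1, 0, 0], 2⟩,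
   ⟨![![-1, -1, -1, 0], ![0, 1, 0, 0], ![0, 0, 1, 0], ![1, 0, 0, 0]], ![![-1, -1, -1, 0], ![0, 1, 0, 0], ![0, 0, 1, 0], ![1, 0, 0, 0]], ![1, 0, 0, 0], 0⟩,
   ⟨![![-1, -1, -1, 0], ![1, 0, 0, 0], ![0, 0, 1, 0], ![0, 1, 0, 0]], ![![0, 1, 0, 0], ![-1, -1, -1, 0], ![0, 0, 1, 0], ![1, 0, 0, 0]], ![1, 1, 1, 0], 0⟩,
   ⟨![![-1, -1, -1, 0], ![0, 0, 1, 0], ![0, 1, 0, 0], ![1, 0, 0, 0]], ![![-1, -1, -1, 0], ![0, 0, 1, 0], ![0, 1, 0, 0], ![1, 0, 0, 0]], ![1, 0, 0, 0], 2⟩,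
   ⟨![![-1, -1, -1, 0], ![1, 0, 0, 0], ![0, 0, 1, 0], ![0, 1, 0, 0]], ![![0, 1, 0, 0], ![-1, -1, -1, 0], ![0, 0, 1, 0], ![1, 0, 0, 0]], ![0, 1, 0, 0], 0⟩,
   ⟨![![-1, -1, -1, 0], ![0, 0, 1, 0], ![0, 1, 0, 0], ![1, 0, 0, 0]], ![![-1, -1, -1, 0], ![0, 0, 1, 0], ![0, 1, 0, 0], ![1, 0, 0, 0]], ![0, 0, -1, 0], 2⟩,
   ⟨![![-1, -1, -1, 0], ![0, 0, 1, 0], ![0, 1, 0, 0], ![1, 0, 0, 0]], ![![-1, -1, -1, 0], ![0, 0, 1, 0], ![0, 1, 0, 0], ![1, 0, 0, 0]], ![0, 0, 0, 0], 0⟩,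
   ⟨![![-1, -1, -1, 0], ![1, 0, 0, 0], ![0, 0, 1, 0], ![0, 1, 0, 0]], ![![0, 1, 0, 0], ![-1, -1, -1, 0], ![0, 0, 1, 0], ![1, 0, 0, 0]], ![0, 0, 0, 0], 0⟩,
   ⟨![![-1, -1, -1, 0], ![0, 1, 0, 0], ![0, 0, 1, 0], ![1, 0, 0, 0]], ![![-1, -1, -1, 0], ![0, 1, 0, 0], ![0, 0, 1, 0], ![1, 0, 0, 0]], ![1, 1, 1, 0], 0⟩,
   ⟨![![-1, -1, -1, 0], ![0, 0, 1, 0], ![0, 1, 0, 0], ![1, 0, 0, 0]], ![![-1, -1, -1, 0], ![0, 0, 1, 0], ![0, 1, 0, 0], ![1, 0, 0, 0]], ![0, 0, 0, 0], 0⟩,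
   ⟨![![-1, -1, -1, 0], ![0, 0, 1, 0], ![0, 1, 0, 0], ![1, 0, 0, 0]], ![![-1, -1, -1, 0], ![0, 0, 1, 0], ![0, 1, 0, 0], ![1, 0, 0, 0]], ![1, 1, 1, 0], 2⟩,
   ⟨![![-1, -1, -1, 0], ![0, 1, 0, 0], ![0, 0, 1, 0], ![1, 0, 0, 0]], ![![-1, -1, -1, 0], ![0, 1, 0, 0], ![0, 0, 1, 0], ![1, 0, 0, 0]], ![1, 0, 1, 0], 0⟩,
   ⟨![![-1, -1, -1, 0], ![0, 0, 1, 0], ![0, 1, 0, 0], ![1, 0, 0, 0]], ![![-1, -1, -1, 0], ![0, 0, 1, 0], ![0, 1, 0, 0], ![1, 0, 0, 0]], ![0, 1, 0, 0], 2⟩,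
   ⟨![![-1, -1, -1, 0], ![0, 1, 0, 0], ![0, 0, 1, 0], ![1, 0, 0, 0]], ![![-1, -1, -1, 0], ![0, 1, 0, 0], ![0, 0, 1, 0], ![1, 0, 0, 0]], ![0, 0, 0, 0], 0⟩,
   ⟨![![-1, -1, -1, 0], ![1, 0, 0, 0], ![0, 0, 1, 0], ![0, 1, 0, 0]], ![![0, 1, 0, 0], ![-1, -1, -1, 0], ![0, 0, 1, 0], ![1, 0, 0, 0]], ![0, 1, 1, 0], 0⟩,
   ⟨![![-1, -1, -1, 0], ![0, 0, 1, 0], ![0, 1, 0, 0], ![1, 0, 0, 0]], ![![-1, -1, -1, 0], ![0, 0, 1, 0], ![0, 1, 0, 0], ![1, 0, 0, 0]], ![0, 0, 0, 0], 2⟩],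
  [⟨![![-1, 0, 0, 0], ![0, -1, -1, 0], ![0, 1, 0, 0], ![1, 0, 1, 0]], ![![-1, 0, 0, 0], ![0, 0, 1, 0], ![0, -1, -1, 0], ![1, 1, 0, 0]], ![1, 1, 1, 0], 3⟩,
   ⟨![![-1, 0, 0, 0], ![0, -1, -1, 0], ![0, 0, 1, 0], ![1, 1, 0, 0]], ![![-1, 0, 0, 0], ![0, -1, -1, 0], ![0, 0, 1, 0], ![1, 1, 0, 0]], ![1, 1, 0, 0], 3⟩,
   ⟨![![-1, -1, -1, 0], ![0, 0, 1, 0], ![0, 1, 0, 0], ![1, 0, 0, 0]], ![![-1, -1, -1, 0], ![0, 0, 1, 0], ![0, 1, 0, 0], ![1, 0, 0, 0]], ![1, 0, 0, 0], 0⟩,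
   ⟨![![-1, 0, 0, 0], ![0, -1, -1, 0], ![0, 1, 0, 0], ![1, 0, 1, 0]], ![![-1, 0, 0, 0], ![0, 0, 1, 0], ![0, -1, -1, 0], ![1, 1, 0, 0]], ![1, 0, 0, 0], 3⟩,
   ⟨![![-1, 0, 0, 0], ![0, -1, -1, 0], ![0, 0, 1, 0], ![1, 1, 0, 0]], ![![-1, 0, 0, 0], ![0, -1, -1, 0], ![0, 0, 1, 0], ![1, 1, 0, 0]], ![1, 1, 1, 0], 3⟩,
   ⟨![![-1, -1, -1, 0], ![0, 0, 1, 0], ![0, 1, 0, 0], ![1, 0, 0, 0]], ![![-1, -1, -1, 0], ![0, 0, 1, 0], ![0, 1, 0, 0], ![1, 0, 0, 0]], ![1, 0, 0, 0], 0⟩,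
   ⟨![![-1, 0, 0, 0], ![0, -1, -1, 0], ![0, 1, 0, 0], ![1, 0, 1, 0]], ![![-1, 0, 0, 0], ![0, 0, 1, 0], ![0, -1, -1, 0], ![1, 1, 0, 0]], ![1, 0, 1, 0], 3⟩,
   ⟨![![-1, 0, 0, 0], ![0, -1, -1, 0], ![0, 0, 1, 0], ![1, 1, 0, 0]], ![![-1, 0, 0, 0], ![0, -1, -1, 0], ![0, 0, 1, 0], ![1, 1, 0, 0]], ![1, 0, 0, 0], 3⟩,
   ⟨![![-1, 0, 0, 0], ![0, -1, -1, 0], ![0, 1, 0, 0], ![1, 0, 1, 0]], ![![-1, 0, 0, 0], ![0, 0, 1, 0], ![0, -1, -1, 0], ![1, 1, 0, 0]], ![0, 1, 1, 0], 3⟩,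
   ⟨![![-1, 0, 0, 0], ![0, -1, -1, 0], ![0, 0, 1, 0], ![1, 1, 0, 0]], ![![-1, 0, 0, 0], ![0, -1, -1, 0], ![0, 0, 1, 0], ![1, 1, 0, 0]], ![0, 1, 0, 0], 3⟩,
   ⟨![![-1, -1, -1, 0], ![0, 0, 1, 0], ![0, 1, 0, 0], ![1, 0, 0, 0]], ![![-1, -1, -1, 0], ![0, 0, 1, 0], ![0, 1, 0, 0], ![1, 0, 0, 0]], ![0, 0, 0, 0], 0⟩,
   ⟨![![-1, 0, 0, 0], ![0, -1, -1, 0], ![0, 1, 0, 0], ![1, 0, 1, 0]], ![![-1, 0, 0, 0], ![0, 0, 1, 0], ![0, -1, -1, 0], ![1, 1, 0, 0]], ![0, 0, 0, 0], 3⟩,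
   ⟨![![-1, 0, 0, 0], ![0, -1, -1, 0], ![0, 0, 1, 0], ![1, 1, 0, 0]], ![![-1, 0, 0, 0], ![0, -1, -1, 0], ![0, 0, 1, 0], ![1, 1, 0, 0]], ![0, 1, 1, 0], 3⟩,
   ⟨![![-1, -1, -1, 0], ![0, 0, 1, 0], ![0, 1, 0, 0], ![1, 0, 0, 0]], ![![-1, -1, -1, 0], ![0, 0, 1, 0], ![0, 1, 0, 0], ![1, 0, 0, 0]], ![0, 0, 0, 0], 0⟩,
   ⟨![![-1, 0, 0, 0], ![0, -1, -1, 0], ![0, 1, 0, 0], ![1, 0, 1, 0]], ![![-1, 0, 0, 0], ![0, 0, 1, 0], ![0, -1, -1, 0], ![1, 1, 0, 0]], ![0, 0, 1, 0], 3⟩,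
   ⟨![![-1, 0, 0, 0], ![0, -1, -1, 0], ![0, 0, 1, 0], ![1, 1, 0, 0]], ![![-1, 0, 0, 0], ![0, -1, -1, 0], ![0, 0, 1, 0], ![1, 1, 0, 0]], ![0, 0, 0, 0], 3⟩],
  [⟨![![-1, 0, 0, 0], ![0, -1, 0, 0], ![0, 0, -1, 0], ![1, 1, 1, 0]], ![![-1, 0, 0, 0], ![0, -1, 0, 0], ![0, 0, -1, 0], ![1, 1, 1, 0]], ![1, 1, 1, 0], 4⟩,
   ⟨![![-1, 0, 0, 0], ![0, -1, 0, 0], ![0, 0, -1, 0], ![1, 1, 1, 0]], ![![-1, 0, 0, 0], ![0, -1, 0, 0], ![0, 0, -1, 0], ![1, 1, 1, 0]], ![1, 1, 0, 0], 4⟩,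
   ⟨![![-1, 0, 0, 0], ![0, -1, 0, 0], ![0, 0, -1, 0], ![1, 1, 1, 0]], ![![-1, 0, 0, 0], ![0, -1, 0, 0], ![0, 0, -1, 0], ![1, 1, 1, 0]], ![1, 0, 1, 0], 4⟩,
   ⟨![![-1, 0, 0, 0], ![0, -1, 0, 0], ![0, 0, -1, 0], ![1, 1, 1, 0]], ![![-1, 0, 0, 0], ![0, -1, 0, 0], ![0, 0, -1, 0], ![1, 1, 1, 0]], ![1, 0, 0, 0], 4⟩,
   ⟨![![-1, 0, 0, 0], ![0, -1, 0, 0], ![0, 0, -1, 0], ![1, 1, 1, 0]], ![![-1, 0, 0, 0], ![0, -1, 0, 0], ![0, 0, -1, 0], ![1, 1, 1, 0]], ![0, 1, 1, 0], 4⟩,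
   ⟨![![-1, 0, 0, 0], ![0, -1, 0, 0], ![0, 0, -1, 0], ![1, 1, 1, 0]], ![![-1, 0, 0, 0], ![0, -1, 0, 0], ![0, 0, -1, 0], ![1, 1, 1, 0]], ![0, 1, 0, 0], 4⟩,
   ⟨![![-1, 0, 0, 0], ![0, -1, 0, 0], ![0, 0, -1, 0], ![1, 1, 1, 0]], ![![-1, 0, 0, 0], ![0, -1, 0, 0], ![0, 0, -1, 0], ![1, 1, 1, 0]], ![0, 0, 1, 0], 4⟩,
   ⟨![![-1, 0, 0, 0], ![0, -1, 0, 0], ![0, 0, -1, 0], ![1, 1, 1, 0]], ![![-1, 0, 0, 0], ![0, -1, 0, 0], ![0, 0, -1, 0], ![1, 1, 1, 0]], ![0, 0, 0, 0], 4⟩],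
  [⟨![![-1, 0, 0, 0], ![0, -1, -1, 0], ![0, 0, 1, 0], ![1, 1, 0, 0]], ![![-1, 0, 0, 0], ![0, -1, -1, 0], ![0, 0, 1, 0], ![1, 1, 0, 0]], ![1, 1, 0, 0], 4⟩,
   ⟨![![-1, 0, 0, 0], ![0, -1, -1, 0], ![0, 0, 1, 0], ![1, 1, 0, 0]], ![![-1, 0, 0, 0], ![0, -1, -1, 0], ![0, 0, 1, 0], ![1, 1, 0, 0]], ![1, 0, -1, 0], 4⟩,
   ⟨![![-1, 0, 0, 0], ![0, -1, -1, 0], ![0, 0, 1, 0], ![1, 1, 0, 0]], ![![-1, 0, 0, 0], ![0, -1, -1, 0], ![0, 0, 1, 0], ![1, 1, 0, 0]], ![1, 1, 1, 0], 4⟩,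
   ⟨![![-1, 0, 0, 0], ![0, -1, -1, 0], ![0, 0, 1, 0], ![1, 1, 0, 0]], ![![-1, 0, 0, 0], ![0, -1, -1, 0], ![0, 0, 1, 0], ![1, 1, 0, 0]], ![1, 0, 0, 0], 4⟩,
   ⟨![![-1, 0, 0, 0], ![0, -1, -1, 0], ![0, 0, 1, 0], ![1, 1, 0, 0]], ![![-1, 0, 0, 0], ![0, -1, -1, 0], ![0, 0, 1, 0], ![1, 1, 0, 0]], ![0, 1, 0, 0], 4⟩,
   ⟨![![-1, 0, 0, 0], ![0, -1, -1, 0], ![0, 0, 1, 0], ![1, 1, 0, 0]], ![![-1, 0, 0, 0], ![0, -1, -1, 0], ![0, 0, 1, 0], ![1, 1, 0, 0]], ![0, 0, -1, 0], 4⟩,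
   ⟨![![-1, 0, 0, 0], ![0, -1, -1, 0], ![0, 0, 1, 0], ![1, 1, 0, 0]], ![![-1, 0, 0, 0], ![0, -1, -1, 0], ![0, 0, 1, 0], ![1, 1, 0, 0]], ![0, 1, 1, 0], 4⟩,
   ⟨![![-1, 0, 0, 0], ![0, -1, -1, 0], ![0, 0, 1, 0], ![1, 1, 0, 0]], ![![-1, 0, 0, 0], ![0, -1, -1, 0], ![0, 0, 1, 0], ![1, 1, 0, 0]], ![0, 0, 0, 0], 4⟩]]

/-- the row of a pattern -/
def look (T : Fin 6) (k : Fin 6 → Bool) : Row :=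
  (rows T).getD ((posE T).foldl (fun n e => 2 * n + (if k e then 1 else 0)) 0)
    ⟨fun _ _ => 0, fun _ _ => 0, fun _ => 0, 0⟩

/-- differences of two rows -/
def pr2 (M : Fin 4 → Fin 4 → ℤ) (i j : Fin 4) (e : Fin 6) : ℤ :=
  (M i (ed e).1 - M i (ed e).2) * (M j (ed e).1 - M j (ed e).2)

/-- the cell of a pattern -/
def region (T : Fin 6) (k : Fin 6 → Bool) (d : Fin 4 → ℤ) : Prop :=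
  ∀ e ∈ posE T, d (ed e).1 - d (ed e).2 = 0 ∨ d (ed e).1 - d (ed e).2 = (if k e then -1 else 1)

instance (T : Fin 6) (k : Fin 6 → Bool) (d : Fin 4 → ℤ) : Decidable (region T k d) := by
  unfold region; infer_instance

/-- a combination of the rows -/
def cmb (M : Fin 4 → Fin 4 → ℤ) (p : Fin 4 → ℤ) (i : Fin 4) : ℤ :=
  p 0 * M 0 i + p 1 * M 1 i + p 2 * M 2 i + p 3 * M 3 i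

/-- the new superbase is obtuse -/
def G1 (T : Fin 6) (r : Row) : Prop := ∀ i j : Fin 4, i ≠ j → ∀ e ∈ posE T, pr2 r.M i j e ≤ 0

/-- the orthogonal pairs of the cell -/
def G2 (T : Fin 6) (r : Row) : Prop := ∀ h ∈ Hz r.τ, ∀ e ∈ posE T, pr2 r.M h.1 h.2 e = 0

/-- sum zero -/
def G3 (r : Row) : Prop := ∀ i : Fin 4, cmb r.M (fun _ => 1) i = cmb r.M (fun _ => 1) 3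

/-- generation -/
def G4 (r : Row) : Prop := ∀ j i : Fin 4, cmb r.M (r.N j) i - (if i = j then 1 else 0) =
  cmb r.M (r.N j) 3 - (if 3 = j then 1 else 0)

/-- one point of the region is a point of the cell -/
def inC (r : Row) (d0 d1 d2 : ℤ) : Prop := ∃ p ∈ pts r.τ, d0 - r.s 0 - cmb r.M p 0 = 0 - r.s 3 - cmb r.M p 3 ∧
  d1 - r.s 1 - cmb r.M p 1 = 0 - r.s 3 - cmb r.M p 3 ∧ d2 - r.s 2 - cmb r.M p 2 = 0 - r.s 3 - cmb r.M p 3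

instance (r : Row) (d0 d1 d2 : ℤ) : Decidable (inC r d0 d1 d2) := by
  unfold inC; infer_instance

/-- all points of the region are points of the cell -/
def G5 (T : Fin 6) (k : Fin 6 → Bool) (r : Row) : Prop :=
  ∀ d0 ∈ ([-1, 0, 1] : List ℤ), ∀ d1 ∈ ([-1, 0, 1] : List ℤ), ∀ d2 ∈ ([-2, -1, 0, 1, 2] : List ℤ),
    region T k ![d0, d1, d2, 0] → inC r d0 d1 d2

instance (T : Fin 6) (r : Row) : Decidable (G1 T r) := by unfold G1; infer_instance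
instance (T : Fin 6) (r : Row) : Decidable (G2 T r) := by unfold G2; infer_instance
instance (r : Row) : Decidable (G3 r) := by unfold G3; infer_instance
instance (r : Row) : Decidable (G4 r) := by unfold G4; infer_instance
instance (T : Fin 6) (k : Fin 6 → Bool) (r : Row) : Decidable (G5 T k r) := by unfold G5; infer_instance

/-- what has to be checked for a row -/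
def Good (T : Fin 6) (k : Fin 6 → Bool) (r : Row) : Prop := G1 T r ∧ G2 T r ∧ G3 r ∧ G4 r ∧ G5 T k r

instance (T : Fin 6) (k : Fin 6 → Bool) (r : Row) : Decidable (Good T k r) := by
  unfold Good; infer_instance

set_option maxRecDepth 100000 in
theorem good_all : ∀ (T : Fin 6) (b0 b1 b2 b3 b4 b5 : Bool),
    Good T ![b0, b1, b2, b3, b4, b5] (look T ![b0, b1, b2, b3, b4, b5]) := by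
  decide +kernel

end Pool.Agent.Helper21.BS
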