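import Pool.Agent.Helper21.BS.Conv
import Pool.Agent.Helper21.BS.Tab
import Pool.Agent.Helper22.Sym.Selling
import Pool.Agent.Helper36.FX.Avg

/-!
# MP_be0fb5: closest lattice points lie in one cell
-/

set_option autoImplicit false

namespace Pool.Agent.Helper21.BS

open Matrix
open Pool.Agent.Helper22.Sym (Superb bil toR toR_add toR_neg bil_comm)
open Pool.Agent.Helper84.FL (Superbase)

/-- the permutations of four letters -/
def perms : List (Fin 4 → Fin 4) := [![0, 1, 2, 3], ![0, 1, 3, 2], ![0, 2, 1, 3], ![0, 2, 3, 1], ![0, 3, 1, 2], ![0, 3, 2, 1], ![1, 0, 2, 3], ![1, 0, 3, 2], ![1, 2, 0, 3], ![1, 2, 3, 0], ![1, 3, 0, 2], ![1, 3, 2, 0], ![2, 0, 1, 3], ![2, 0, 3, 1], ![2, 1, 0, 3], ![2, 1, 3, 0], ![2, 3, 0, 1], ![2, 3, 1, 0], ![3, 0, 1, 2], ![3, 0, 2, 1], ![3, 1, 0, 2], ![3, 1, 2, 0], ![3, 2, 0, 1], ![3, 2, 1, 0]]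

/-- the index of an edge -/
def eix : Fin 4 → Fin 4 → Fin 6 := ![![0, 0, 1, 2], ![0, 0, 3, 4], ![1, 3, 0, 5], ![2, 4, 5, 0]]

/-- connected graph -/
def Conn (g : Fin 6 → Bool) : Prop :=
  ∀ a b c d : Bool, ¬(a = b ∧ b = c ∧ c = d) →
    ∃ e : Fin 6, (![a, b, c, d] : Fin 4 → Bool) (ed e).1 ≠ (![a, b, c, d] : Fin 4 → Bool) (ed e).2 ∧ g e = true

instance (g : Fin 6 → Bool) : Decidable (Conn g) := by unfold Conn; infer_instance

set_option maxRecDepth 100000 in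
theorem perm_all : ∀ b0 b1 b2 b3 b4 b5 : Bool, Conn ![b0, b1, b2, b3, b4, b5] →
    ∃ σ ∈ perms, ∃ T : Fin 6, ∀ e : Fin 6,
      ((![b0, b1, b2, b3, b4, b5] : Fin 6 → Bool) (eix (σ (ed e).1) (σ (ed e).2)) = true ↔ e ∈ posE T) := by
  decide +kernel

set_option maxRecDepth 100000 in
theorem perms_inj : ∀ σ ∈ perms, ∀ i j, σ i = σ j → i = j := by decide +kernel

theorem vec6 {α : Type} (g : Fin 6 → α) : g = ![g 0, g 1, g 2, g 3, g 4, g 5] := by
  funext i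
  fin_cases i <;> rfl

theorem vec4 {α : Type} (g : Fin 4 → α) : g = ![g 0, g 1, g 2, g 3] := by
  funext i
  fin_cases i <;> rfl

theorem eix_spec : ∀ k l : Fin 4, k ≠ l → ((ed (eix k l)).1 = k ∧ (ed (eix k l)).2 = l) ∨
    ((ed (eix k l)).1 = l ∧ (ed (eix k l)).2 = k) := by decide

theorem ed_ne : ∀ e : Fin 6, (ed e).1 ≠ (ed e).2 := by decide


/-! ### Sums over a superbase -/

theorem comb_const {f : Fin 4 → Fin 3 → ℤ} (hf : ∑ l, f l = 0) {c : Fin 4 → ℤ} (hc : ∀ i, c i = c 3) :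
    ∑ i, c i • f i = 0 := by
  have h1 : ∑ i, c i • f i = c 3 • ∑ i, f i := by
    rw [Finset.smul_sum]
    exact Finset.sum_congr rfl fun i _ => by rw [hc i]
  rw [h1, hf, smul_zero]

/-- the vectors of the new superbase -/
def nf (M : Fin 4 → Fin 4 → ℤ) (f : Fin 4 → Fin 3 → ℤ) (i : Fin 4) : Fin 3 → ℤ := ∑ j, M i j • f j

theorem comb_nf (M : Fin 4 → Fin 4 → ℤ) (f : Fin 4 → Fin 3 → ℤ) (p : Fin 4 → ℤ) :
    ∑ i, p i • nf M f i = ∑ j, cmb M p j • f j := by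
  unfold nf cmb
  simp only [Fin.sum_univ_four, smul_add, smul_smul, add_smul]
  abel

theorem nf_sum {M : Fin 4 → Fin 4 → ℤ} {f : Fin 4 → Fin 3 → ℤ} (hf : ∑ l, f l = 0)
    (h3 : ∀ i, cmb M (fun _ => 1) i = cmb M (fun _ => 1) 3) : ∑ i, nf M f i = 0 := by
  have h := comb_nf M f (fun _ => 1)
  simp only [one_smul] at h
  rw [h]
  exact comb_const hf h3

theorem nf_superbase {M N : Fin 4 → Fin 4 → ℤ} {f : Fin 4 → Fin 3 → ℤ} (hf : Superbase f)
    (h3 : ∀ i, cmb M (fun _ => 1) i = cmb M (fun _ => 1) 3)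
    (h4 : ∀ j i : Fin 4, cmb M (N j) i - (if i = j then 1 else 0) = cmb M (N j) 3 - (if 3 = j then 1 else 0)) :
    Superbase (nf M f) := by
  refine ⟨nf_sum hf.sum h3, fun z => ?_⟩
  obtain ⟨a, ha⟩ := hf.span z
  refine ⟨fun l => ∑ j, a j * N j l, ?_⟩
  have h5 : ∀ j, ∑ l, N j l • nf M f l = f j := by
    intro j
    rw [comb_nf]
    have h6 : ∑ i, (cmb M (N j) i - (if i = j then 1 else 0)) • f i = 0 := comb_const hf.sum (h4 j)
    simp only [sub_smul, Finset.sum_sub_distrib] at h6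
    rw [sub_eq_zero] at h6
    rw [h6]
    rw [Finset.sum_eq_single j]
    · simp
    · intro b _ hb
      simp [hb]
    · intro h
      exact absurd (Finset.mem_univ j) h
  rw [ha]
  calc ∑ l, a l • f l = ∑ l, a l • ∑ m, N l m • nf M f m := Finset.sum_congr rfl fun l _ => by rw [h5 l]
    _ = ∑ m, ∑ l, (a l * N l m) • nf M f m := by
        rw [Finset.sum_comm]
        refine Finset.sum_congr rfl fun l _ => ?_
        rw [Finset.smul_sum]
        exact Finset.sum_congr rfl fun m _ => by rw [smul_smul]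
    _ = _ := Finset.sum_congr rfl fun m _ => by rw [Finset.sum_smul]

/-! ### The bilinear form -/

theorem toR_smul' (c : ℤ) (z : Fin 3 → ℤ) : toR (c • z) = (c : ℝ) • toR z := by
  funext i; simp [toR]

theorem toR_sum' {ι : Type} (s : Finset ι) (z : ι → Fin 3 → ℤ) : toR (∑ i ∈ s, z i) = ∑ i ∈ s, toR (z i) := by
  funext i; simp [toR, Finset.sum_apply]

theorem bil_comb (Q : Matrix (Fin 3) (Fin 3) ℝ) (f : Fin 4 → Fin 3 → ℤ) (a b : Fin 4 → ℤ) :
    bil Q (∑ i, a i • f i) (∑ j, b j • f j) = ∑ i, ∑ j, bil Q (f i) (f j) * ((a i : ℝ) * (b j : ℝ)) := by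
  unfold bil
  rw [toR_sum', toR_sum', Matrix.mulVec_sum, sum_dotProduct]
  refine Finset.sum_congr rfl fun i _ => ?_
  rw [dotProduct_sum]
  refine Finset.sum_congr rfl fun j _ => ?_
  rw [toR_smul', toR_smul', Matrix.mulVec_smul, smul_dotProduct, dotProduct_smul]
  simp only [smul_eq_mul]
  ring

theorem bil_polar {B : Fin 4 → Fin 4 → ℝ} (hrow : ∀ i, ∑ j, B i j = 0) (hsym : ∀ i j, B i j = B j i)
    (u v : Fin 4 → ℝ) : ∑ i, ∑ j, B i j * (u i * v j) = ∑ i, ∑ j, -(1 / 2) * B i j * ((u i - u j) * (v i - v j)) := by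
  have h1 : ∑ i, ∑ j, B i j * (u i * v i) = 0 := by
    refine Finset.sum_eq_zero fun i _ => ?_
    rw [← Finset.sum_mul, hrow, zero_mul]
  have h2 : ∑ i, ∑ j, B i j * (u j * v j) = 0 := by
    rw [Finset.sum_comm]
    refine Finset.sum_eq_zero fun j _ => ?_
    rw [← Finset.sum_mul, Finset.sum_congr rfl fun i _ => hsym i j, hrow, zero_mul]
  have h4 : ∑ i, ∑ j, B i j * (u j * v i) = ∑ i, ∑ j, B i j * (u i * v j) := by
    rw [Finset.sum_comm]
    exact Finset.sum_congr rfl fun i _ => Finset.sum_congr rfl fun j _ => by rw [hsym j i]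
  have h3 : ∑ i, ∑ j, -(1 / 2) * B i j * ((u i - u j) * (v i - v j)) =
      -(1 / 2) * ∑ i, ∑ j, B i j * (u i * v i) + -(1 / 2) * ∑ i, ∑ j, B i j * (u j * v j) +
        (1 / 2) * ∑ i, ∑ j, B i j * (u i * v j) + (1 / 2) * ∑ i, ∑ j, B i j * (u j * v i) := by
    simp only [Finset.mul_sum]
    simp only [← Finset.sum_add_distrib]
    refine Finset.sum_congr rfl fun i _ => Finset.sum_congr rfl fun j _ => ?_
    ring
  rw [h3, h1, h2, h4]
  ring

end Pool.Agent.Helper21.BS
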