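import Mathlib

/-!
# MP_be0fb5: closest lattice points of an obtuse form, discrete convexity
-/

set_option autoImplicit false

namespace Pool.Agent.Helper21.BS

/-- the form in superbase coordinates -/
def HB (B : Fin 4 → Fin 4 → ℝ) (a : Fin 4 → ℤ) : ℝ := ∑ i, ∑ j, B i j * ((a i : ℝ) * (a j : ℝ))

theorem HB_eq {B : Fin 4 → Fin 4 → ℝ} (hrow : ∀ i, ∑ j, B i j = 0) (hsym : ∀ i j, B i j = B j i)
    (a : Fin 4 → ℤ) : HB B a = ∑ i, ∑ j, -(1 / 2) * B i j * ((a i : ℝ) - a j) ^ 2 := by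
  have h1 : ∑ i, ∑ j, B i j * (a i : ℝ) ^ 2 = 0 := by
    refine Finset.sum_eq_zero fun i _ => ?_
    rw [← Finset.sum_mul, hrow, zero_mul]
  have h2 : ∑ i, ∑ j, B i j * (a j : ℝ) ^ 2 = 0 := by
    rw [Finset.sum_comm]
    refine Finset.sum_eq_zero fun j _ => ?_
    rw [← Finset.sum_mul, Finset.sum_congr rfl fun i _ => hsym i j, hrow, zero_mul]
  have h3 : ∑ i, ∑ j, -(1 / 2) * B i j * ((a i : ℝ) - a j) ^ 2 =
      -(1 / 2) * ∑ i, ∑ j, B i j * (a i : ℝ) ^ 2 + -(1 / 2) * ∑ i, ∑ j, B i j * (a j : ℝ) ^ 2 + HB B a := by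
    unfold HB
    simp only [Finset.mul_sum]
    simp only [← Finset.sum_add_distrib]
    refine Finset.sum_congr rfl fun i _ => Finset.sum_congr rfl fun j _ => ?_
    ring
  rw [h3, h1, h2]
  ring

/-- the upper point -/
def cU (a b : Fin 4 → ℤ) (α : ℤ) : Fin 4 → ℤ := fun i => max (a i - α) (b i)

/-- the lower point -/
def cL (a b : Fin 4 → ℤ) (α : ℤ) : Fin 4 → ℤ := fun i => min (a i) (b i + α)

theorem cU_add_cL (a b : Fin 4 → ℤ) (α : ℤ) (i : Fin 4) : cU a b α i + cL a b α i = a i + b i := by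
  unfold cU cL
  rcases le_total (a i - α) (b i) with h | h
  · rw [max_eq_right h, min_eq_left (by omega)]
    ring
  · rw [max_eq_left h, min_eq_right (by omega)]
    ring

theorem term_le (ai aj bi bj α : ℤ) :
    (max (ai - α) bi - max (aj - α) bj) ^ 2 + (min ai (bi + α) - min aj (bj + α)) ^ 2 ≤
      (ai - aj) ^ 2 + (bi - bj) ^ 2 := by
  rcases le_total (ai - α) bi with h1 | h1 <;> rcases le_total (aj - α) bj with h2 | h2
  · rw [max_eq_right h1, max_eq_right h2, min_eq_left (by omega), min_eq_left (by omega)]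
    linarith
  · rw [max_eq_right h1, max_eq_left h2, min_eq_left (by omega), min_eq_right (by omega)]
    nlinarith [mul_nonneg (sub_nonneg.2 h1) (sub_nonneg.2 h2)]
  · rw [max_eq_left h1, max_eq_right h2, min_eq_right (by omega), min_eq_left (by omega)]
    nlinarith [mul_nonneg (sub_nonneg.2 h1) (sub_nonneg.2 h2)]
  · rw [max_eq_left h1, max_eq_left h2, min_eq_right (by omega), min_eq_right (by omega)]
    nlinarith

theorem term_lt {ai aj bi bj α : ℤ} (h1 : α < ai - bi) (h2 : aj - bj < α) :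
    (max (ai - α) bi - max (aj - α) bj) ^ 2 + (min ai (bi + α) - min aj (bj + α)) ^ 2 <
      (ai - aj) ^ 2 + (bi - bj) ^ 2 := by
  rw [max_eq_left (by omega), max_eq_right (by omega), min_eq_right (by omega), min_eq_left (by omega)]
  nlinarith [mul_pos (sub_pos.2 h1) (sub_pos.2 h2)]

theorem HB_sub {B : Fin 4 → Fin 4 → ℝ} (hrow : ∀ i, ∑ j, B i j = 0) (hsym : ∀ i j, B i j = B j i)
    (hoff : ∀ i j, i ≠ j → B i j ≤ 0) (a b : Fin 4 → ℤ) (α : ℤ) {i0 j0 : Fin 4} (hB : B i0 j0 < 0)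
    (h1 : α < a i0 - b i0) (h2 : a j0 - b j0 < α) :
    HB B (cU a b α) + HB B (cL a b α) < HB B a + HB B b := by
  rw [HB_eq hrow hsym, HB_eq hrow hsym, HB_eq hrow hsym, HB_eq hrow hsym, ← Finset.sum_add_distrib,
    ← Finset.sum_add_distrib]
  have key : ∀ i j, -(1 / 2) * B i j * (((cU a b α i : ℤ) : ℝ) - (cU a b α j : ℤ)) ^ 2 +
      -(1 / 2) * B i j * (((cL a b α i : ℤ) : ℝ) - (cL a b α j : ℤ)) ^ 2 ≤
      -(1 / 2) * B i j * ((a i : ℝ) - a j) ^ 2 + -(1 / 2) * B i j * ((b i : ℝ) - b j) ^ 2 := by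
    intro i j
    by_cases hij : i = j
    · subst hij
      simp
    · have h3 := term_le (a i) (a j) (b i) (b j) α
      have h4 : (((cU a b α i : ℤ) : ℝ) - (cU a b α j : ℤ)) ^ 2 + (((cL a b α i : ℤ) : ℝ) - (cL a b α j : ℤ)) ^ 2 ≤
          ((a i : ℝ) - a j) ^ 2 + ((b i : ℝ) - b j) ^ 2 := by
        unfold cU cL
        exact_mod_cast h3
      have h5 := hoff i j hij
      nlinarith
  refine Finset.sum_lt_sum (fun i _ => ?_) ⟨i0, Finset.mem_univ _, ?_⟩
  · rw [← Finset.sum_add_distrib, ← Finset.sum_add_distrib]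
    exact Finset.sum_le_sum fun j _ => key i j
  · rw [← Finset.sum_add_distrib, ← Finset.sum_add_distrib]
    refine Finset.sum_lt_sum (fun j _ => key i0 j) ⟨j0, Finset.mem_univ _, ?_⟩
    have h3 := term_lt (ai := a i0) (aj := a j0) (bi := b i0) (bj := b j0) h1 h2
    have h4 : (((cU a b α i0 : ℤ) : ℝ) - (cU a b α j0 : ℤ)) ^ 2 + (((cL a b α i0 : ℤ) : ℝ) - (cL a b α j0 : ℤ)) ^ 2 <
        ((a i0 : ℝ) - a j0) ^ 2 + ((b i0 : ℝ) - b j0) ^ 2 := by
      unfold cU cL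
      exact_mod_cast h3
    nlinarith

/-- two closest lattice points differ by at most one along every edge with a positive conorm -/
theorem near {B : Fin 4 → Fin 4 → ℝ} (hrow : ∀ i, ∑ j, B i j = 0) (hsym : ∀ i j, B i j = B j i)
    (hoff : ∀ i j, i ≠ j → B i j ≤ 0) (ℓ : Fin 4 → ℝ) (m : ℝ)
    (hmin : ∀ c : Fin 4 → ℤ, m ≤ HB B c - ∑ i, ℓ i * c i) {a b : Fin 4 → ℤ}
    (ha : HB B a - ∑ i, ℓ i * a i = m) (hb : HB B b - ∑ i, ℓ i * b i = m) {i j : Fin 4} (hB : B i j < 0) :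
    (a i - a j) - (b i - b j) ≤ 1 := by
  by_contra hcon
  push Not at hcon
  have h1 := HB_sub hrow hsym hoff a b (a j - b j + 1) (i0 := i) (j0 := j) hB (by omega) (by omega)
  have h2 := hmin (cU a b (a j - b j + 1))
  have h3 := hmin (cL a b (a j - b j + 1))
  have h4 : ∑ i, ℓ i * ((cU a b (a j - b j + 1) i : ℤ) : ℝ) + ∑ i, ℓ i * ((cL a b (a j - b j + 1) i : ℤ) : ℝ) =
      ∑ i, ℓ i * (a i : ℝ) + ∑ i, ℓ i * (b i : ℝ) := by
    rw [← Finset.sum_add_distrib, ← Finset.sum_add_distrib]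
    refine Finset.sum_congr rfl fun k _ => ?_
    rw [← mul_add, ← mul_add]
    congr 1
    exact_mod_cast cU_add_cL a b (a j - b j + 1) k
  linarith

end Pool.Agent.Helper21.BS
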