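import Pool.Agent.Helper21.BS.FixG

/-!
# MP_be0fb5: a state inside one Delaunay cell, anti-blocking bodies

Labels `inl i` for three independent planes, with priority, and `inr t` for the other planes, whose normals are
`- ∑ cc t i • w (inl i)`, `0 ≤ cc t i`.  The point moves in the coordinates of the three planes.
-/

set_option autoImplicit false

namespace Pool.Agent.Helper21.BS

open Matrix
open Pool.Agent.Helper21.FX (ct dot_sq_le dot_self_nonneg' clamp_vi)

section

variable {G Γ : Type} [Fintype G] [DecidableEq G] [Fintype Γ]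

/-- the gradients in the coordinates of the three planes -/
def ww (cc : G → Fin 3 → ℝ) : Fin 3 ⊕ G → Fin 3 → ℝ := Sum.elim (fun i => - Pi.single i 1) cc

theorem fix_labP (A : Γ → (Fin 3 ⊕ G) → ℝ) (w : Fin 3 ⊕ G → Fin 3 → ℝ) (cc : G → Fin 3 → ℝ)
    (hcc : ∀ t i, 0 ≤ cc t i) (hw : ∀ t, w (Sum.inr t) = - ∑ i, cc t i • w (Sum.inl i))
    (px : (Fin 3 → ℝ) → Fin 3 → ℝ) (hpx : Continuous px) (lab : (Fin 3 → ℤ) → Fin 3 ⊕ G) (B : Finset (Fin 3 → ℤ)) (δ κ C1 M R1 : ℝ)
    (hδ : 0 < δ) (hκ : 0 < κ) (hM : 0 < M)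
    (hlow : ∀ L : Fin 3 ⊕ G → ℝ, (∀ t, 0 ≤ L t) → ∑ t, L t = 1 → ∀ y, κ * (y ⬝ᵥ y) ≤ QG A w L y)
    (hup : ∀ L : Fin 3 ⊕ G → ℝ, (∀ t, 0 ≤ L t) → ∑ t, L t = 1 → ∀ y, QG A w L y ≤ C1 * (y ⬝ᵥ y)) (hC1 : 0 ≤ C1)
    (hR1 : C1 * 3 + δ ≤ κ * R1)
    (hBfl : ∀ x : Fin 3 → ℝ, (∀ i, |x i| ≤ M) → (fun i => ⌊px x i⌋) ∈ B)
    (hout1 : ∀ x : Fin 3 → ℝ, (∀ i, |x i| ≤ M) → ∀ z : Fin 3 → ℤ, (px x - ct z) ⬝ᵥ (px x - ct z) ≤ R1 →
      ∀ i, lab z = Sum.inl i → x i < M)
    (hout2 : ∀ x : Fin 3 → ℝ, (∀ i, |x i| ≤ M) → ∀ z : Fin 3 → ℤ, (px x - ct z) ⬝ᵥ (px x - ct z) ≤ R1 →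
      ∀ t, lab z = Sum.inr t → ∀ i, -M < x i) :
    ∃ (x : Fin 3 → ℝ) (L : Fin 3 ⊕ G → ℝ) (μ : (Fin 3 → ℤ) → ℝ), (∀ i, |x i| ≤ M) ∧ (∀ z, 0 ≤ μ z ∧ μ z ≤ 1) ∧
      (∀ z, z ∉ B → μ z = 0) ∧ (∑ z ∈ B, μ z = 1) ∧
      (∀ t, L t = ∑ z ∈ B, if lab z = t then μ z else 0) ∧ (∀ t, 0 ≤ L t ∧ L t ≤ 1) ∧ (∑ t, L t = 1) ∧
      Nv w L = 0 ∧
      (∀ z ∈ B, μ z ≠ 0 → ∀ y ∈ B, QG A w L (px x - ct z) ≤ QG A w L (px x - ct y) + δ) := by
  classical
  have hx0 : ∀ i : Fin 3, |(0 : Fin 3 → ℝ) i| ≤ M := by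
    intro i
    simpa using hM.le
  have hBne : B.Nonempty := ⟨_, hBfl 0 hx0⟩
  -- the state space
  set ι := Fin 3 ⊕ (Fin 3 ⊕ G) with hι
  set X : (ι → ℝ) → Fin 3 → ℝ := fun s i => s (Sum.inl i) with hX
  set Λ : (ι → ℝ) → (Fin 3 ⊕ G) → ℝ := fun s t => s (Sum.inr t) with hΛ
  set m : (ι → ℝ) → ℝ := fun s => B.inf' hBne (fun y => QG A w (Λ s) (px (X s) - ct y)) with hm
  set a : (ι → ℝ) → (Fin 3 → ℤ) → ℝ := fun s z =>
    max 0 (1 - (QG A w (Λ s) (px (X s) - ct z) - m s) / δ) with ha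
  set W : (ι → ℝ) → ℝ := fun s => ∑ z ∈ B, a s z with hW
  set μ : (ι → ℝ) → (Fin 3 → ℤ) → ℝ := fun s z => a s z / W s with hμ
  have ha0 : ∀ s z, 0 ≤ a s z := fun s z => le_max_left _ _
  have hW1 : ∀ s, 1 ≤ W s := by
    intro s
    obtain ⟨z, hz, hzm⟩ := Finset.exists_mem_eq_inf' hBne (fun y => QG A w (Λ s) (px (X s) - ct y))
    have h1 : a s z = 1 := by
      have h2 : QG A w (Λ s) (px (X s) - ct z) - m s = 0 := by
        rw [hm]
        dsimp only
        rw [hzm, sub_self]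
      rw [ha]
      dsimp only
      rw [h2]
      simp
    calc (1 : ℝ) = a s z := h1.symm
      _ ≤ W s := Finset.single_le_sum (f := fun z => a s z) (fun z _ => ha0 s z) hz
  -- continuity
  have cX : ∀ i, Continuous fun s : ι → ℝ => X s i := fun i => continuous_apply _
  have cΛ : ∀ t, Continuous fun s : ι → ℝ => Λ s t := fun t => continuous_apply _
  have cN : ∀ i, Continuous fun s : ι → ℝ => Nv w (Λ s) i := fun i =>
    continuous_finsetSum _ (fun t _ => (cΛ t).mul continuous_const)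
  have cQ : ∀ z : Fin 3 → ℤ, Continuous fun s : ι → ℝ => QG A w (Λ s) (px (X s) - ct z) := by
    intro z
    unfold QG
    have cd : ∀ i, Continuous fun s : ι → ℝ => (px (X s) - ct z) i := fun i =>
      ((continuous_apply i).comp (hpx.comp (continuous_pi cX))).sub continuous_const
    have c1 : Continuous fun s : ι → ℝ => (px (X s) - ct z) ⬝ᵥ (px (X s) - ct z) := by
      unfold dotProduct
      exact continuous_finsetSum _ (fun i _ => (cd i).mul (cd i))
    have c0 : Continuous fun s : ι → ℝ => Nv w (Λ s) ⬝ᵥ Nv w (Λ s) := by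
      unfold dotProduct
      exact continuous_finsetSum _ (fun i _ => (cN i).mul (cN i))
    have c2 : ∀ v : Fin 3 → ℝ, Continuous fun s : ι → ℝ => v ⬝ᵥ (px (X s) - ct z) := by
      intro v
      unfold dotProduct
      exact continuous_finsetSum _ (fun i _ => continuous_const.mul (cd i))
    exact (c0.mul c1).add (continuous_finsetSum _ (fun g _ => (continuous_finsetSum _
      (fun t _ => continuous_const.mul ((cΛ t).mul (c2 _)))).pow 2))
  have cm' : Continuous m := Continuous.finset_inf'_apply hBne (fun z _ => cQ z)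
  have ca : ∀ z, Continuous fun s : ι → ℝ => a s z := fun z =>
    continuous_const.max (continuous_const.sub (((cQ z).sub cm').div_const δ))
  have cW : Continuous W := continuous_finsetSum _ (fun z _ => ca z)
  have cμ : ∀ z, Continuous fun s : ι → ℝ => μ s z := fun z =>
    (ca z).div cW (fun s => by have := hW1 s; positivity)
  have hμ0 : ∀ s z, 0 ≤ μ s z := fun s z => div_nonneg (ha0 s z) (by have := hW1 s; positivity)
  have hμ1 : ∀ s, ∑ z ∈ B, μ s z = 1 := by
    intro s
    simp only [hμ]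
    rw [← Finset.sum_div]
    exact div_self (by have := hW1 s; positivity)
  -- the map
  set Φ : (ι → ℝ) → (ι → ℝ) := fun s => Sum.elim
    (fun i => max (-M) (min M (X s i - ∑ z ∈ B, μ s z * ww cc (lab z) i)))
    (fun t => ∑ z ∈ B, if lab z = t then μ s z else 0) with hΦ
  have cΦ : Continuous Φ := by
    refine continuous_pi (fun j => ?_)
    rcases j with i | t
    · show Continuous fun s => max (-M) (min M (X s i - ∑ z ∈ B, μ s z * ww cc (lab z) i))
      exact continuous_const.max (continuous_const.min ((cX i).sub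
        (continuous_finsetSum _ (fun z _ => (cμ z).mul continuous_const))))
    · show Continuous fun s => ∑ z ∈ B, if lab z = t then μ s z else 0
      refine continuous_finsetSum _ (fun z _ => ?_)
      split_ifs
      · exact cμ z
      · exact continuous_const
  set lo : ι → ℝ := Sum.elim (fun _ => -M) (fun _ => 0) with hlo
  set hi : ι → ℝ := Sum.elim (fun _ => M) (fun _ => 1) with hhi
  have hlohi : lo ≤ hi := by
    intro j
    rcases j with i | t
    · show -M ≤ M
      linarith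
    · show (0 : ℝ) ≤ 1
      exact zero_le_one
  have hlab0 : ∀ s t, 0 ≤ ∑ z ∈ B, if lab z = t then μ s z else 0 := fun s t =>
    Finset.sum_nonneg fun z _ => by
      split_ifs
      · exact hμ0 s z
      · exact le_rfl
  have hlab1 : ∀ s t, ∑ z ∈ B, (if lab z = t then μ s z else 0) ≤ 1 := fun s t => by
    rw [← hμ1 s]
    refine Finset.sum_le_sum fun z _ => ?_
    split_ifs
    · exact le_rfl
    · exact hμ0 s z
  obtain ⟨s, hs, hfix⟩ := Pool.Agent.Helper52.Brouwer.brouwer_box lo hi hlohi Φ cΦ.continuousOn (by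
    intro s _
    refine ⟨fun j => ?_, fun j => ?_⟩
    · rcases j with i | t
      · exact le_max_left _ _
      · exact hlab0 s t
    · rcases j with i | t
      · exact max_le (by show -M ≤ M; linarith) (min_le_left _ _)
      · exact hlab1 s t)
  have hxM : ∀ i, |X s i| ≤ M := fun i => abs_le.2 ⟨hs.1 (Sum.inl i), hs.2 (Sum.inl i)⟩
  have hΛfix : ∀ t, Λ s t = ∑ z ∈ B, if lab z = t then μ s z else 0 := fun t =>
    (congrFun hfix (Sum.inr t)).symm
  have hΛ0 : ∀ t, 0 ≤ Λ s t := fun t => by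
    rw [hΛfix]
    exact hlab0 s t
  have hΛ1 : ∑ t, Λ s t = 1 := by
    rw [Finset.sum_congr rfl fun t _ => hΛfix t, Finset.sum_comm, ← hμ1 s]
    refine Finset.sum_congr rfl fun z _ => ?_
    rw [Finset.sum_ite_eq Finset.univ (lab z), if_pos (Finset.mem_univ _)]
  have hNv : ∀ i, Nv w (Λ s) i = ∑ z ∈ B, μ s z * w (lab z) i := by
    intro i
    unfold Nv
    rw [Finset.sum_congr rfl fun t _ => by rw [hΛfix t]]
    simp only [Finset.sum_mul, ite_mul, zero_mul]
    rw [Finset.sum_comm]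
    refine Finset.sum_congr rfl fun z _ => ?_
    rw [Finset.sum_ite_eq Finset.univ (lab z), if_pos (Finset.mem_univ _)]
  -- the support is near the minimum
  have hsupp : ∀ z, μ s z ≠ 0 → ∀ y ∈ B, QG A w (Λ s) (px (X s) - ct z) ≤ QG A w (Λ s) (px (X s) - ct y) + δ := by
    intro z hz y hy
    have h1 : a s z ≠ 0 := by
      intro h0
      apply hz
      simp only [hμ]
      rw [h0, zero_div]
    have h2 : 0 < 1 - (QG A w (Λ s) (px (X s) - ct z) - m s) / δ := by
      by_contra hcon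
      apply h1
      exact max_eq_left (not_lt.1 hcon)
    have h3 : (QG A w (Λ s) (px (X s) - ct z) - m s) / δ < 1 := by linarith
    rw [div_lt_one hδ] at h3
    have h4 : m s ≤ QG A w (Λ s) (px (X s) - ct y) := Finset.inf'_le _ hy
    linarith
  have hnear : ∀ z, μ s z ≠ 0 → (px (X s) - ct z) ⬝ᵥ (px (X s) - ct z) ≤ R1 := by
    intro z hz
    have h1 := hsupp z hz _ (hBfl _ hxM)
    have h2 := hlow _ hΛ0 hΛ1 (px (X s) - ct z)
    have h3 := hup _ hΛ0 hΛ1 (px (X s) - ct (fun i => ⌊px (X s) i⌋))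
    have h4 : (px (X s) - ct (fun i => ⌊px (X s) i⌋)) ⬝ᵥ (px (X s) - ct (fun i => ⌊px (X s) i⌋)) ≤ 3 := by
      have h5 : ∀ i, ((px (X s) - ct (fun i => ⌊px (X s) i⌋)) i) ^ 2 ≤ 1 := by
        intro i
        have h6 : (px (X s) - ct (fun i => ⌊px (X s) i⌋)) i = Int.fract (px (X s) i) := rfl
        rw [h6]
        have := Int.fract_nonneg (px (X s) i)
        have := (Int.fract_lt_one (px (X s) i)).le
        nlinarith
      have h7 : (px (X s) - ct (fun i => ⌊px (X s) i⌋)) ⬝ᵥ (px (X s) - ct (fun i => ⌊px (X s) i⌋)) =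
          ∑ i, ((px (X s) - ct (fun i => ⌊px (X s) i⌋)) i) ^ 2 := by
        unfold dotProduct
        exact Finset.sum_congr rfl (fun i _ => by ring)
      rw [h7, Fin.sum_univ_three]
      have := h5 0
      have := h5 1
      have := h5 2
      linarith
    have h5 := mul_le_mul_of_nonneg_left h4 hC1
    have h6 : κ * ((px (X s) - ct z) ⬝ᵥ (px (X s) - ct z)) ≤ κ * R1 := by linarith
    exact le_of_mul_le_mul_left h6 hκ
  -- the sum of the gradients vanishes
  have hXfix : ∀ i, max (-M) (min M (X s i - ∑ z ∈ B, μ s z * ww cc (lab z) i)) = X s i := fun i =>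
    congrFun hfix (Sum.inl i)
  have hNw : ∀ i, ∑ z ∈ B, μ s z * ww cc (lab z) i = 0 := by
    intro i
    have h1 := hXfix i
    have hb := abs_le.1 (hxM i)
    refine le_antisymm ?_ ?_
    · by_cases h2 : -M < X s i
      · by_contra hcon
        push Not at hcon
        have h3 : X s i - ∑ z ∈ B, μ s z * ww cc (lab z) i < X s i := by linarith
        have h4 : min M (X s i - ∑ z ∈ B, μ s z * ww cc (lab z) i) < X s i := (min_le_right _ _).trans_lt h3
        have h5 : max (-M) (min M (X s i - ∑ z ∈ B, μ s z * ww cc (lab z) i)) < X s i := max_lt h2 h4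
        exact absurd h1 h5.ne
      · refine Finset.sum_nonpos fun z _ => ?_
        by_cases h0 : μ s z = 0
        · rw [h0, zero_mul]
        · refine mul_nonpos_of_nonneg_of_nonpos (hμ0 s z) ?_
          rcases hl : lab z with j | t
          · simp only [ww, Sum.elim_inl, Pi.neg_apply, Left.neg_nonpos_iff]
            by_cases hji : j = i
            · rw [hji, Pi.single_eq_same]
              exact zero_le_one
            · rw [Pi.single_eq_of_ne (Ne.symm hji)]
          · exact absurd (hout2 _ hxM z (hnear z h0) t hl i) h2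
    · by_cases h2 : X s i < M
      · by_contra hcon
        push Not at hcon
        have h3 : X s i < X s i - ∑ z ∈ B, μ s z * ww cc (lab z) i := by linarith
        have h4 : X s i < min M (X s i - ∑ z ∈ B, μ s z * ww cc (lab z) i) := lt_min h2 h3
        have h5 : X s i < max (-M) (min M (X s i - ∑ z ∈ B, μ s z * ww cc (lab z) i)) := lt_max_of_lt_right h4
        exact absurd h1 h5.ne'
      · refine Finset.sum_nonneg fun z _ => ?_
        by_cases h0 : μ s z = 0
        · rw [h0, zero_mul]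
        · refine mul_nonneg (hμ0 s z) ?_
          rcases hl : lab z with j | t
          · by_cases hji : j = i
            · rw [hji] at hl
              exact absurd (hout1 _ hxM z (hnear z h0) i hl) h2
            · simp only [ww, Sum.elim_inl, Pi.neg_apply]
              rw [Pi.single_eq_of_ne (Ne.symm hji), neg_zero]
          · exact hcc t i
  have hwi : ∀ (l : Fin 3 ⊕ G) (i : Fin 3), w l i = - ∑ j, ww cc l j * w (Sum.inl j) i := by
    rintro (j | t) i
    · simp only [ww, Sum.elim_inl, Pi.neg_apply, neg_mul, Finset.sum_neg_distrib, neg_neg]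
      rw [Finset.sum_eq_single j (fun k _ hk => by rw [Pi.single_eq_of_ne hk, zero_mul])
        (fun h => absurd (Finset.mem_univ j) h), Pi.single_eq_same, one_mul]
    · rw [hw t]
      simp [ww]
  have hN : ∀ i, ∑ z ∈ B, μ s z * w (lab z) i = 0 := by
    intro i
    have h1 : ∀ z, μ s z * w (lab z) i = - ∑ j, (μ s z * ww cc (lab z) j) * w (Sum.inl j) i := by
      intro z
      rw [hwi, mul_neg, Finset.mul_sum]
      congr 1
      exact Finset.sum_congr rfl fun j _ => by ring
    rw [Finset.sum_congr rfl fun z _ => h1 z, Finset.sum_neg_distrib, Finset.sum_comm, neg_eq_zero]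
    refine Finset.sum_eq_zero fun j _ => ?_
    rw [← Finset.sum_mul, hNw j, zero_mul]
  obtain ⟨ν, hν⟩ : ∃ ν : (Fin 3 → ℤ) → ℝ, ν = fun z => if z ∈ B then μ s z else 0 := ⟨_, rfl⟩
  have hνB : ∀ z ∈ B, ν z = μ s z := fun z hz => by rw [hν]; exact if_pos hz
  have hνN : ∀ z, z ∉ B → ν z = 0 := fun z hz => by rw [hν]; exact if_neg hz
  refine ⟨X s, Λ s, ν, hxM, ?_, hνN, ?_, ?_, ?_, hΛ1, ?_, ?_⟩
  · intro z
    by_cases hz : z ∈ B
    · rw [hνB z hz]
      refine ⟨hμ0 s z, ?_⟩
      rw [← hμ1 s]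
      exact Finset.single_le_sum (f := fun z => μ s z) (fun z _ => hμ0 s z) hz
    · rw [hνN z hz]
      exact ⟨le_rfl, zero_le_one⟩
  · rw [← hμ1 s]
    exact Finset.sum_congr rfl fun z hz => hνB z hz
  · intro t
    rw [hΛfix t]
    exact Finset.sum_congr rfl fun z hz => by rw [hνB z hz]
  · intro t
    refine ⟨hΛ0 t, ?_⟩
    rw [hΛfix t]
    exact hlab1 s t
  · funext i
    rw [hNv i, hN i]
    rfl
  · intro z hz hne y hy
    rw [hνB z hz] at hne
    exact hsupp z hne y hy

end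

end Pool.Agent.Helper21.BS
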