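import Pool.Agent.Helper21.BS.App

/-!
# MP_be0fb5: the state of a wide lattice-free body in one Delaunay cell
-/

set_option autoImplicit false

namespace Pool.Agent.Helper21.BS

open Matrix Filter Topology
open Pool.Agent.Helper12.LW (LFree)
open Pool.Agent.Helper21.FX (ct)
open Pool.Agent.Helper22.Sym (toR bil)
open Pool.Agent.Helper84.FL (Superbase)

theorem dot_le_norm {N : ℕ} (n : Fin N → Fin 3 → ℝ) :
    ∃ C : ℝ, 0 ≤ C ∧ ∀ i v, |n i ⬝ᵥ v| ≤ C * ‖v‖ := by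
  refine ⟨∑ i, ∑ a, |n i a|, Finset.sum_nonneg fun i _ => Finset.sum_nonneg fun a _ => abs_nonneg _, fun i v => ?_⟩
  unfold dotProduct
  refine (Finset.abs_sum_le_sum_abs _ _).trans ?_
  have h1 : ∀ a : Fin 3, |n i a * v a| ≤ |n i a| * ‖v‖ := fun a => by
    rw [abs_mul]
    exact mul_le_mul_of_nonneg_left (by simpa [Real.norm_eq_abs] using norm_le_pi_norm v a) (abs_nonneg _)
  calc ∑ a, |n i a * v a| ≤ ∑ a, |n i a| * ‖v‖ := Finset.sum_le_sum fun a _ => h1 a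
    _ = (∑ a, |n i a|) * ‖v‖ := by rw [Finset.sum_mul]
    _ ≤ _ := mul_le_mul_of_nonneg_right (Finset.single_le_sum (f := fun i => ∑ a, |n i a|)
      (fun j _ => Finset.sum_nonneg fun a _ => abs_nonneg _) (Finset.mem_univ i)) (norm_nonneg _)

theorem hfar_of {N : ℕ} {n : Fin N → Fin 3 → ℝ} {c : Fin 3 → ℝ} {lab : (Fin 3 → ℤ) → Fin N} {κ : ℝ} (hκ : 0 < κ)
    (hlab : ∀ z : Fin 3 → ℤ, κ * ‖toR z - c‖ ≤ n (lab z) ⬝ᵥ (toR z - c)) (R : ℝ) :
    ∃ M0 : ℝ, ∀ (x : Fin 3 → ℝ) (z : Fin 3 → ℤ), (∃ i, M0 ≤ |x i|) →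
      (x - ct z) ⬝ᵥ (x - ct z) ≤ R → 0 < n (lab z) ⬝ᵥ x := by
  obtain ⟨C, hC, hCn⟩ := dot_le_norm n
  set S : ℝ := |R| + 1 with hS
  have hS0 : 0 < S := by positivity
  refine ⟨S + ‖c‖ + (C * (S + ‖c‖) + 1) / κ, fun x z hx hR => ?_⟩
  obtain ⟨i, hi⟩ := hx
  have h1 : ‖x - toR z‖ ≤ S := by
    refine (pi_norm_le_iff_of_nonneg hS0.le).2 fun a => ?_
    rw [Real.norm_eq_abs]
    have h2 : (x - toR z) a ^ 2 ≤ (x - ct z) ⬝ᵥ (x - ct z) := by
      have h3 : (x - ct z) ⬝ᵥ (x - ct z) = ∑ a, (x - toR z) a ^ 2 := by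
        unfold dotProduct
        exact Finset.sum_congr rfl fun i _ => by
          show (x - ct z) i * (x - ct z) i = (x - toR z) i ^ 2
          simp only [Pi.sub_apply, ct, toR]
          ring
      rw [h3]
      exact Finset.single_le_sum (f := fun a => (x - toR z) a ^ 2) (fun j _ => sq_nonneg _) (Finset.mem_univ a)
    have h4 : (x - toR z) a ^ 2 ≤ |R| := h2.trans (hR.trans (le_abs_self R))
    have h5 : |(x - toR z) a| ^ 2 ≤ |R| := by rwa [sq_abs]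
    nlinarith [abs_nonneg ((x - toR z) a), abs_nonneg R]
  have h2 : ‖x‖ ≤ ‖toR z - c‖ + S + ‖c‖ := by
    calc ‖x‖ = ‖(toR z - c) + (x - toR z) + c‖ := by congr 1; abel
      _ ≤ ‖(toR z - c) + (x - toR z)‖ + ‖c‖ := norm_add_le _ _
      _ ≤ ‖toR z - c‖ + ‖x - toR z‖ + ‖c‖ := by linarith [norm_add_le (toR z - c) (x - toR z)]
      _ ≤ _ := by linarith
  have h3 : |x i| ≤ ‖x‖ := by simpa [Real.norm_eq_abs] using norm_le_pi_norm x i
  have h4 : (C * (S + ‖c‖) + 1) / κ ≤ ‖toR z - c‖ := by linarith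
  have h5 : C * (S + ‖c‖) + 1 ≤ κ * ‖toR z - c‖ := by
    rw [div_le_iff₀ hκ] at h4
    linarith
  have h6 : n (lab z) ⬝ᵥ x = n (lab z) ⬝ᵥ (toR z - c) + n (lab z) ⬝ᵥ ((x - toR z) + c) := by
    rw [← dotProduct_add]
    congr 1
    abel
  have h7 := (abs_le.1 (hCn (lab z) ((x - toR z) + c))).1
  have h8 : ‖(x - toR z) + c‖ ≤ S + ‖c‖ := (norm_add_le _ _).trans (by linarith)
  have h9 := mul_le_mul_of_nonneg_left h8 hC
  rw [h6]
  have h10 := hlab z
  linarith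

/-- **The cell state.**  `f` is an obtuse superbase for the form `∑ (v p · x) ^ 2`, the sum over the vertices of the
cell `τ` at `c` (`0` simplex, `1` pyramid, `2` octahedron, `3` prism, `4` cube); rows `v p = 0` are allowed. -/
structure FullState (K : Set (Fin 3 → ℝ)) (W : ℝ) (f : Fin 4 → Fin 3 → ℤ) (c : Fin 3 → ℤ) (τ : Fin 5)
    (v : (Fin 4 → ℤ) → Fin 3 → ℝ) (h : (Fin 4 → ℤ) → ℝ) : Prop where
  free : LFree K
  wide : ∀ r : Fin 3 → ℤ, r ≠ 0 → ∃ x ∈ K, ∃ x' ∈ K, W < toR r ⬝ᵥ (x - x')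
  sb : Superbase f
  obt : ∀ i j, i ≠ j → ((pts τ).map fun p => (v p ⬝ᵥ toR (f i)) * (v p ⬝ᵥ toR (f j))).sum ≤ 0
  zero : ∀ e ∈ Hz τ, ((pts τ).map fun p => (v p ⬝ᵥ toR (f e.1)) * (v p ⬝ᵥ toR (f e.2))).sum = 0
  sumv : ((pts τ).map v).sum = 0
  sumh : ((pts τ).map h).sum = 1
  le : ∀ p ∈ pts τ, ∀ x ∈ K, v p ⬝ᵥ x ≤ h p
  lab : ∀ p ∈ pts τ, h p ≤ v p ⬝ᵥ toR (c + ∑ i, p i • f i)
  sep : ∀ x : Fin 3 → ℝ, (∀ p ∈ pts τ, v p ⬝ᵥ x = 0) → x = 0

theorem pts_nodup : ∀ τ : Fin 5, (pts τ).Nodup := by decide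

theorem sum_diag {N : ℕ} {a b : Fin N → ℝ} (h : ∀ s t, s ≠ t → a s * b t = 0) :
    (∑ s, a s) * ∑ t, b t = ∑ t, a t * b t := by
  rw [Finset.sum_mul_sum]
  refine Finset.sum_congr rfl fun s _ => ?_
  rw [Finset.sum_eq_single s]
  · intro t _ hts
    exact h s t (Ne.symm hts)
  · intro hs
    exact absurd (Finset.mem_univ s) hs

theorem list_sum {M : Type} [AddCommMonoid M] (τ : Fin 5) (F : (Fin 4 → ℤ) → M) :
    ((pts τ).map F).sum = ∑ p ∈ (pts τ).toFinset, F p := (List.sum_toFinset F (pts_nodup τ)).symm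

theorem sum_ind {M : Type} [AddCommMonoid M] {N : ℕ} (τ : Fin 5) (L : Fin N → ℝ) (P : Fin N → Fin 4 → ℤ)
    (hP : ∀ t, L t ≠ 0 → P t ∈ pts τ) (G : Fin N → M) :
    ∑ p ∈ (pts τ).toFinset, ∑ t, (if L t ≠ 0 ∧ P t = p then G t else 0) = ∑ t, if L t ≠ 0 then G t else 0 := by
  rw [Finset.sum_comm]
  refine Finset.sum_congr rfl fun t _ => ?_
  by_cases ht : L t ≠ 0
  · simp only [ht, ne_eq, not_false_eq_true, true_and, if_true]
    rw [Finset.sum_ite_eq, if_pos]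
    rw [List.mem_toFinset]
    exact hP t ht
  · simp only [ht, false_and, if_false, Finset.sum_const_zero]

/-- **Every wide lattice-free body gives a cell state.** -/
theorem exists_full {K : Set (Fin 3 → ℝ)} (hK : LFree K) {W : ℝ} (hW0 : 0 < W)
    (hW : ∀ r : Fin 3 → ℤ, r ≠ 0 → ∃ x ∈ K, ∃ x' ∈ K, W < toR r ⬝ᵥ (x - x')) :
    ∃ (K' : Set (Fin 3 → ℝ)) (f : Fin 4 → Fin 3 → ℤ) (c : Fin 3 → ℤ) (τ : Fin 5)
      (v : (Fin 4 → ℤ) → Fin 3 → ℝ) (h : (Fin 4 → ℤ) → ℝ), FullState K' W f c τ v h := by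
  classical
  obtain ⟨N, n, c0, β, hN, hβ, hcomp, hLF, hno, hgen, hwide⟩ := exists_pol hK hW0 hW
  obtain ⟨lab, hlab, κ, hκ, hlabκ⟩ := exists_lab hN hβ hcomp hno
  obtain ⟨x, L, μ, D, hμ, hμ1, hL, hrel, hmin⟩ := brouwer_state n lab
    (fun L _ hsum hrel y hy => hpos_of hN hgen hsum hrel hy) (fun R => hfar_of hκ hlabκ R)
  have hL0 : ∀ t, 0 ≤ L t := by
    intro t
    rw [hL]
    exact Finset.sum_nonneg fun z hz => by
      split_ifs
      · exact (hμ z hz).le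
      · exact le_rfl
  have hL1 : ∑ t, L t = 1 := by
    rw [← hμ1, Finset.sum_congr rfl fun t _ => hL t, Finset.sum_comm]
    refine Finset.sum_congr rfl fun z _ => ?_
    simp
  have hrel' : ∑ i, L i • n i = 0 := by
    funext a
    have := congrFun hrel a
    simpa [Nv, Finset.sum_apply] using this
  -- the form
  set Q : Matrix (Fin 3) (Fin 3) ℝ := Matrix.of fun a b => ∑ t, L t ^ 2 * (n t a * n t b) with hQdef
  have hQv : ∀ y y' : Fin 3 → ℝ, y ⬝ᵥ Q *ᵥ y' = ∑ t, (L t * (n t ⬝ᵥ y)) * (L t * (n t ⬝ᵥ y')) := by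
    intro y y'
    simp only [hQdef, Matrix.mulVec, dotProduct, Matrix.of_apply, Fin.sum_univ_three, Finset.mul_sum, Finset.sum_mul,
      ← Finset.sum_add_distrib]
    refine Finset.sum_congr rfl fun t _ => ?_
    ring
  have hQ : Q.PosDef := by
    refine Matrix.PosDef.of_dotProduct_mulVec_pos ?_ fun y hy => ?_
    · rw [Matrix.IsHermitian]
      ext a b
      simp only [hQdef, Matrix.conjTranspose_apply, Matrix.of_apply, star_trivial]
      exact Finset.sum_congr rfl fun t _ => by ring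
    · have h1 := hpos_of hN hgen hL1 hrel hy
      simp only [star_trivial]
      rw [hQv]
      refine h1.trans_le (le_of_eq (Finset.sum_congr rfl fun t _ => by ring))
  have hDne : D.Nonempty := by
    by_contra hcon
    rw [Finset.not_nonempty_iff_eq_empty] at hcon
    rw [hcon, Finset.sum_empty] at hμ1
    exact zero_ne_one hμ1
  have hmin' : ∀ z ∈ D, ∀ y : Fin 3 → ℤ, (x - toR z) ⬝ᵥ Q *ᵥ (x - toR z) ≤ (x - toR y) ⬝ᵥ Q *ᵥ (x - toR y) := by
    intro z hz y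
    have h1 := hmin z hz y
    rw [hQv, hQv]
    refine le_of_eq_of_le (Finset.sum_congr rfl fun t _ => ?_) (h1.trans (le_of_eq (Finset.sum_congr rfl fun t _ => ?_)))
    · show _ = (L t * (n t ⬝ᵥ (x - ct z))) ^ 2
      rw [sq]
      rfl
    · show (L t * (n t ⬝ᵥ (x - ct y))) ^ 2 = _
      rw [sq]
      rfl
  obtain ⟨f, hsb, hobt, c, τ, hz, hcell⟩ := cell_state hQ x D hDne hmin'
  -- the points of the labels
  have hex : ∀ t, ∃ z : Fin 3 → ℤ, ∃ p : Fin 4 → ℤ, L t ≠ 0 → z ∈ D ∧ lab z = t ∧ p ∈ pts τ ∧ z = c + ∑ i, p i • f i := by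
    intro t
    by_cases ht : L t ≠ 0
    · have h1 : ∃ z ∈ D, lab z = t := by
        by_contra hcon
        push Not at hcon
        apply ht
        rw [hL]
        exact Finset.sum_eq_zero fun z hz' => if_neg (hcon z hz')
      obtain ⟨z, hzD, hzl⟩ := h1
      obtain ⟨p, hp, hzp⟩ := hcell z hzD
      exact ⟨z, p, fun _ => ⟨hzD, hzl, hp, hzp⟩⟩
    · exact ⟨0, 0, fun h => absurd h ht⟩
  choose zt P hzP using hex
  have hPm : ∀ t, L t ≠ 0 → P t ∈ pts τ := fun t ht => (hzP t ht).2.2.1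
  have hinj : ∀ s t, L s ≠ 0 → L t ≠ 0 → P s = P t → s = t := by
    intro s t hs ht h
    have h1 : zt s = zt t := by rw [(hzP s hs).2.2.2, (hzP t ht).2.2.2, h]
    rw [← (hzP s hs).2.1, ← (hzP t ht).2.1, h1]
  -- heights
  set b : Fin N → ℝ := fun t => β t + n t ⬝ᵥ c0 with hb
  set H : ℝ := ∑ t, L t * b t with hH
  have hHβ : H = ∑ t, L t * β t := by
    have h1 : ∑ t, L t * (n t ⬝ᵥ c0) = 0 := by
      have h2 : (∑ i, L i • n i) ⬝ᵥ c0 = 0 := by rw [hrel', zero_dotProduct]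
      rw [sum_dotProduct] at h2
      simpa [smul_dotProduct] using h2
    rw [hH, hb]
    simp only [mul_add, Finset.sum_add_distrib]
    rw [h1, add_zero]
  have hH0 : 0 < H := by
    rw [hHβ]
    obtain ⟨i, j, k, -, -, -, hi, -, -⟩ := three_of_rel hN hgen hL1 hrel'
    exact Finset.sum_pos' (fun t _ => mul_nonneg (hL0 t) (hβ t).le)
      ⟨i, Finset.mem_univ _, mul_pos (lt_of_le_of_ne (hL0 i) (Ne.symm hi)) (hβ i)⟩
  have hHi : 0 < H⁻¹ := inv_pos.2 hH0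
  set v : (Fin 4 → ℤ) → Fin 3 → ℝ := fun p => H⁻¹ • ∑ t, if L t ≠ 0 ∧ P t = p then L t • n t else 0 with hv
  set h : (Fin 4 → ℤ) → ℝ := fun p => H⁻¹ * ∑ t, if L t ≠ 0 ∧ P t = p then L t * b t else 0 with hh
  have hvx : ∀ p (y : Fin 3 → ℝ), v p ⬝ᵥ y = H⁻¹ * ∑ t, if L t ≠ 0 ∧ P t = p then L t * (n t ⬝ᵥ y) else 0 := by
    intro p y
    rw [hv]
    simp only [smul_dotProduct, smul_eq_mul, sum_dotProduct]
    congr 1
    refine Finset.sum_congr rfl fun t _ => ?_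
    split_ifs
    · rw [smul_dotProduct, smul_eq_mul]
    · rw [zero_dotProduct]
  have hquad : ∀ y y' : Fin 3 → ℝ, ((pts τ).map fun p => (v p ⬝ᵥ y) * (v p ⬝ᵥ y')).sum =
      H⁻¹ ^ 2 * (y ⬝ᵥ Q *ᵥ y') := by
    intro y y'
    rw [list_sum]
    have h1 : ∀ p ∈ (pts τ).toFinset, (v p ⬝ᵥ y) * (v p ⬝ᵥ y') =
        H⁻¹ ^ 2 * ∑ t, if L t ≠ 0 ∧ P t = p then (L t * (n t ⬝ᵥ y)) * (L t * (n t ⬝ᵥ y')) else 0 := by
      intro p _
      rw [hvx, hvx]
      have h2 : (∑ t, if L t ≠ 0 ∧ P t = p then L t * (n t ⬝ᵥ y) else 0) *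
          (∑ t, if L t ≠ 0 ∧ P t = p then L t * (n t ⬝ᵥ y') else 0) =
          ∑ t, if L t ≠ 0 ∧ P t = p then (L t * (n t ⬝ᵥ y)) * (L t * (n t ⬝ᵥ y')) else 0 := by
        rw [sum_diag]
        · refine Finset.sum_congr rfl fun t _ => ?_
          split_ifs
          · rfl
          · rw [mul_zero]
        · intro s t hst
          split_ifs with h3 h4
          · exact absurd (hinj s t h3.1 h4.1 (h3.2.trans h4.2.symm)) hst
          · rw [mul_zero]
          · rw [zero_mul]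
          · rw [mul_zero]
      rw [← h2]
      ring
    rw [Finset.sum_congr rfl h1, ← Finset.mul_sum, sum_ind τ L P hPm, hQv]
    congr 1
    refine Finset.sum_congr rfl fun t _ => ?_
    by_cases ht : L t ≠ 0
    · rw [if_pos ht]
    · rw [if_neg ht]
      push Not at ht
      rw [ht]
      ring
  refine ⟨Pol n c0 β, f, c, τ, v, h, ⟨hLF, hwide, hsb, fun i j hij => ?_, fun e he => ?_, ?_, ?_, ?_, ?_, ?_⟩⟩
  · rw [hquad]
    exact mul_nonpos_of_nonneg_of_nonpos (by positivity) (hobt i j hij)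
  · rw [hquad]
    have h1 : toR (f e.1) ⬝ᵥ Q *ᵥ toR (f e.2) = 0 := hz e he
    rw [h1, mul_zero]
  · rw [list_sum, hv]
    simp only
    rw [← Finset.smul_sum, sum_ind τ L P hPm]
    have h1 : ∑ t, (if L t ≠ 0 then L t • n t else 0) = ∑ t, L t • n t := by
      refine Finset.sum_congr rfl fun t _ => ?_
      by_cases ht : L t ≠ 0
      · rw [if_pos ht]
      · rw [if_neg ht]
        push Not at ht
        rw [ht, zero_smul]
    rw [h1, hrel', smul_zero]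
  · rw [list_sum, hh]
    simp only
    rw [← Finset.mul_sum, sum_ind τ L P hPm]
    have h1 : ∑ t, (if L t ≠ 0 then L t * b t else 0) = H := by
      rw [hH]
      refine Finset.sum_congr rfl fun t _ => ?_
      by_cases ht : L t ≠ 0
      · rw [if_pos ht]
      · rw [if_neg ht]
        push Not at ht
        rw [ht, zero_mul]
    rw [h1]
    exact inv_mul_cancel₀ hH0.ne'
  · intro p _ y hy
    rw [hvx, hh]
    refine mul_le_mul_of_nonneg_left (Finset.sum_le_sum fun t _ => ?_) hHi.le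
    split_ifs
    · refine mul_le_mul_of_nonneg_left ?_ (hL0 t)
      have h1 := hy t
      rw [dotProduct_sub] at h1
      rw [hb]
      simp only
      linarith
    · exact le_rfl
  · intro p _
    rw [hvx, hh]
    refine mul_le_mul_of_nonneg_left (Finset.sum_le_sum fun t _ => ?_) hHi.le
    split_ifs with h1
    · refine mul_le_mul_of_nonneg_left ?_ (hL0 t)
      obtain ⟨-, h2, -, h3⟩ := hzP t h1.1
      rw [h1.2] at h3
      have h4 := (hlab (zt t)).le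
      rw [h2, dotProduct_sub] at h4
      rw [hb, ← h3]
      simp only
      linarith
    · exact le_rfl
  · intro y hy
    by_contra hne
    have h1 : ((pts τ).map fun p => (v p ⬝ᵥ y) * (v p ⬝ᵥ y)).sum = 0 := by
      rw [list_sum]
      refine Finset.sum_eq_zero fun p hp => ?_
      rw [hy p (List.mem_toFinset.1 hp), mul_zero]
    rw [hquad] at h1
    have h2 := hQ.dotProduct_mulVec_pos hne
    simp only [star_trivial] at h2
    have h3 : 0 < H⁻¹ ^ 2 * (y ⬝ᵥ Q *ᵥ y) := by positivity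
    linarith

end Pool.Agent.Helper21.BS
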