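import Pool.Agent.Helper21.BS.Full
import Pool.Agent.Helper21.WALL.Wall2

/-!
# MP_be0fb5: from the cell states to the theorem
-/

set_option autoImplicit false

namespace Pool.Agent.Helper21.BS

open Matrix
open Pool.Agent.Helper12.LW (LFree)
open Pool.Agent.Helper22.Sym (toR)
open Pool.Agent.Helper84.FL (Superbase WidthLe)
open Pool.Agent.Helper38.TET (OChain)

/-- rows which separate points span -/
theorem span_of_sep {ι : Type} [Fintype ι] (g : ι → Fin 3 → ℝ) (hsep : ∀ x : Fin 3 → ℝ, (∀ j, g j ⬝ᵥ x = 0) → x = 0)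
    (m : Fin 3 → ℝ) : ∃ a : ι → ℝ, ∑ j, a j • g j = m := by
  classical
  set Q : Matrix (Fin 3) (Fin 3) ℝ := Matrix.of fun a b => ∑ j, g j a * g j b with hQ
  have hQy : ∀ (y : Fin 3 → ℝ) a, (Q *ᵥ y) a = ∑ j, (g j ⬝ᵥ y) * g j a := by
    intro y a
    simp only [hQ, Matrix.mulVec, dotProduct, Matrix.of_apply, Fin.sum_univ_three, Finset.sum_mul,
      ← Finset.sum_add_distrib]
    exact Finset.sum_congr rfl fun j _ => by ring
  have hdet : Q.det ≠ 0 := by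
    intro h0
    obtain ⟨y, hy, hQ0⟩ := Matrix.exists_mulVec_eq_zero_iff.2 h0
    apply hy
    apply hsep
    have h1 : y ⬝ᵥ Q *ᵥ y = ∑ j, (g j ⬝ᵥ y) ^ 2 := by
      unfold dotProduct
      simp only [hQy]
      simp only [Finset.mul_sum]
      rw [Finset.sum_comm]
      refine Finset.sum_congr rfl fun j _ => ?_
      have h2 : ∀ a, y a * (g j ⬝ᵥ y * g j a) = (g j ⬝ᵥ y) * (g j a * y a) := fun a => by ring
      simp only [h2, ← Finset.mul_sum]
      show (g j ⬝ᵥ y) * (∑ a, g j a * y a) = (∑ a, g j a * y a) ^ 2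
      show (∑ a, g j a * y a) * (∑ a, g j a * y a) = _
      ring
    rw [hQ0, dotProduct_zero] at h1
    intro j
    have h3 := (Finset.sum_eq_zero_iff_of_nonneg fun j _ => sq_nonneg (g j ⬝ᵥ y)).1 h1.symm j (Finset.mem_univ _)
    exact pow_eq_zero_iff (two_ne_zero) |>.1 h3
  refine ⟨fun j => g j ⬝ᵥ (Q⁻¹ *ᵥ m), ?_⟩
  have h2 : Q *ᵥ (Q⁻¹ *ᵥ m) = m := by
    rw [Matrix.mulVec_mulVec, Matrix.mul_nonsing_inv _ (isUnit_iff_ne_zero.2 hdet), Matrix.one_mulVec]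
  funext a
  have h3 := congrFun h2 a
  rw [hQy] at h3
  simpa [Finset.sum_apply] using h3

theorem not_widthLe {K : Set (Fin 3 → ℝ)} {W : ℝ}
    (hW : ∀ r : Fin 3 → ℤ, r ≠ 0 → ∃ x ∈ K, ∃ x' ∈ K, W < toR r ⬝ᵥ (x - x')) : ¬ WidthLe K W := by
  rintro ⟨y, hy, h⟩
  obtain ⟨x, hx, x', hx', h1⟩ := hW y hy
  have h2 := h x hx x' hx'
  have h3 : toR y ⬝ᵥ (x - x') = ∑ i, (x i - x' i) * (y i : ℝ) := by
    unfold dotProduct
    exact Finset.sum_congr rfl fun i _ => by simp [toR, mul_comm]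
  linarith

/-- the simplex cell is Theorem A -/
theorem simplex_false (thmA : ∀ (K : Set (Fin 3 → ℝ)) (f P : Fin 4 → Fin 3 → ℤ) (g : Fin 4 → Fin 3 → ℝ), LFree K →
      OChain K f P g → (∀ m : Fin 3 → ℝ, ∃ a : Fin 4 → ℝ, ∑ j, a j • g j = m) → WidthLe K (2 + Real.sqrt 2))
    {K : Set (Fin 3 → ℝ)} {f : Fin 4 → Fin 3 → ℤ} {c : Fin 3 → ℤ} {v : (Fin 4 → ℤ) → Fin 3 → ℝ}
    {h : (Fin 4 → ℤ) → ℝ} (H : FullState K (2 + Real.sqrt 2) f c 0 v h) : False := by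
  obtain ⟨q, hq⟩ : ∃ q : Fin 4 → Fin 4 → ℤ, q = ![![0, 0, 0, 0], ![1, 0, 0, 0], ![1, 1, 0, 0], ![1, 1, 1, 0]] :=
    ⟨_, rfl⟩
  have hpts : pts 0 = [q 0, q 1, q 2, q 3] := by rw [hq]; rfl
  have hmem : ∀ j, q j ∈ pts 0 := by
    intro j
    rw [hpts]
    fin_cases j <;> simp
  have hsum : ∀ {M : Type} [AddCommMonoid M] (F : (Fin 4 → ℤ) → M), ((pts 0).map F).sum = ∑ j, F (q j) := by
    intro M _ F
    rw [hpts, Fin.sum_univ_four]
    simp only [List.map_cons, List.map_nil, List.sum_cons, List.sum_nil, add_zero]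
    rw [add_assoc, add_assoc]
  have hf3 : f 3 = -(f 0 + f 1 + f 2) := by
    have := H.sb.sum
    rw [Fin.sum_univ_four] at this
    exact eq_neg_of_add_eq_zero_right this
  refine not_widthLe H.wide (Pool.Agent.Helper21.WALL.thmA_out thmA (f := f)
    (P := fun l => c + ∑ i, q l i • f i) (g := fun j => v (q j)) (b := fun j => h (q j)) H.free H.sb ?_ ?_ ?_ ?_ ?_ ?_ ?_)
  · intro l
    have e : ∀ l, ∑ i, q l i • f i = q l 0 • f 0 + q l 1 • f 1 + q l 2 • f 2 + q l 3 • f 3 := fun l => Fin.sum_univ_four _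
    rw [e, e]
    fin_cases l
    · simp [hq]
    · simp [hq]
      abel
    · simp [hq]
      abel
    · show c + (q 0 0 • f 0 + q 0 1 • f 1 + q 0 2 • f 2 + q 0 3 • f 3) =
        c + (q 3 0 • f 0 + q 3 1 • f 1 + q 3 2 • f 2 + q 3 3 • f 3) + f 3
      rw [hf3]
      simp [hq]
      abel
  · rw [← hsum]
    exact H.sumv
  · rw [← hsum]
    exact H.sumh
  · exact span_of_sep _ fun x hx => H.sep x fun p hp => by
      rw [hpts] at hp
      simp only [List.mem_cons, List.not_mem_nil, or_false] at hp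
      rcases hp with rfl | rfl | rfl | rfl
      · exact hx 0
      · exact hx 1
      · exact hx 2
      · exact hx 3
  · exact fun j x hx => H.le _ (hmem j) x hx
  · exact fun j => H.lab _ (hmem j)
  · intro l m hlm
    have h1 := H.obt l m hlm
    rw [hsum] at h1
    exact h1

/-- **Assembly.** -/
theorem full_of (thmA : ∀ (K : Set (Fin 3 → ℝ)) (f P : Fin 4 → Fin 3 → ℤ) (g : Fin 4 → Fin 3 → ℝ), LFree K →
      OChain K f P g → (∀ m : Fin 3 → ℝ, ∃ a : Fin 4 → ℝ, ∑ j, a j • g j = m) → WidthLe K (2 + Real.sqrt 2))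
    (hcell : ∀ (K : Set (Fin 3 → ℝ)) (f : Fin 4 → Fin 3 → ℤ) (c : Fin 3 → ℤ) (τ : Fin 5)
      (v : (Fin 4 → ℤ) → Fin 3 → ℝ) (h : (Fin 4 → ℤ) → ℝ), τ ≠ 0 → ¬ FullState K (2 + Real.sqrt 2) f c τ v h)
    {K : Set (Fin 3 → ℝ)} (hK : LFree K) : WidthLe K (2 + Real.sqrt 2) := by
  by_contra hcon
  have hw : ∀ r : Fin 3 → ℤ, r ≠ 0 → ∃ x ∈ K, ∃ x' ∈ K, 2 + Real.sqrt 2 < toR r ⬝ᵥ (x - x') := by
    intro r hr
    by_contra h1
    push Not at h1
    refine hcon ⟨r, hr, fun x hx x' hx' => ?_⟩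
    have h2 := h1 x hx x' hx'
    have h3 : toR r ⬝ᵥ (x - x') = ∑ i, (x i - x' i) * (r i : ℝ) := by
      unfold dotProduct
      exact Finset.sum_congr rfl fun i _ => by simp [toR, mul_comm]
    linarith
  obtain ⟨K', f, c, τ, v, h, hS⟩ := exists_full hK (by positivity : (0 : ℝ) < 2 + Real.sqrt 2) hw
  by_cases hτ : τ = 0
  · subst hτ
    exact simplex_false thmA hS
  · exact hcell K' f c τ v h hτ hS

end Pool.Agent.Helper21.BS
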