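import Pool.Agent.Helper21.BS.Shr
import Pool.Agent.Helper21.BS.Gen

/-!
# MP_be0fb5: a wide lattice-free polytope in general position
-/

set_option autoImplicit false

namespace Pool.Agent.Helper21.BS

open Matrix Filter Topology
open Pool.Agent.Helper12.LW (LFree)
open Pool.Agent.Helper22.Sym (toR)

theorem lt_of_int {S : Set (Fin 3 → ℝ)} {n c : Fin 3 → ℝ} {β : ℝ} (hn : n ≠ 0)
    (hS : ∀ y ∈ S, n ⬝ᵥ (y - c) ≤ β) {x : Fin 3 → ℝ} (hx : x ∈ interior S) : n ⬝ᵥ (x - c) < β := by
  have h1 : S ∈ 𝓝 x := mem_interior_iff_mem_nhds.1 hx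
  have h2 : Tendsto (fun t : ℝ => x + t • n) (𝓝 0) (𝓝 (x + (0 : ℝ) • n)) := by
    have : Continuous fun t : ℝ => x + t • n := by fun_prop
    exact this.tendsto 0
  rw [zero_smul, add_zero] at h2
  have h3 : ∀ᶠ t in 𝓝 (0 : ℝ), x + t • n ∈ S := h2.eventually h1
  obtain ⟨ε, hε, h4⟩ := Metric.eventually_nhds_iff.1 h3
  have h5 : x + (ε / 2) • n ∈ S := by
    apply h4
    rw [Real.dist_eq, sub_zero, abs_of_pos (by positivity)]
    linarith
  have h6 := hS _ h5
  have h7 : n ⬝ᵥ (x + (ε / 2) • n - c) = n ⬝ᵥ (x - c) + (ε / 2) * (n ⬝ᵥ n) := by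
    rw [show x + (ε / 2) • n - c = (x - c) + (ε / 2) • n by abel, dotProduct_add, dotProduct_smul, smul_eq_mul]
  have h8 : 0 < n ⬝ᵥ n := by
    have h9 : n ⬝ᵥ n = ∑ i, n i ^ 2 := by
      unfold dotProduct
      exact Finset.sum_congr rfl fun i _ => by ring
    rw [h9]
    obtain ⟨i, hi⟩ : ∃ i, n i ≠ 0 := by
      by_contra hcon
      push Not at hcon
      exact hn (funext hcon)
    exact Finset.sum_pos' (fun i _ => sq_nonneg _) ⟨i, Finset.mem_univ _, by positivity⟩
  rw [h7] at h6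
  have h10 : 0 < ε / 2 * (n ⬝ᵥ n) := by positivity
  linarith

/-- the plane of a lattice point -/
theorem own_plane {K : Set (Fin 3 → ℝ)} (hK : LFree K) (z : Fin 3 → ℤ) :
    ∃ n : Fin 3 → ℝ, n ≠ 0 ∧ ∀ x ∈ K, n ⬝ᵥ x ≤ n ⬝ᵥ toR z := by
  have hcv := hK.convex
  have hint := hK.interior_nonempty
  have hfree : toR z ∉ interior K := hK.free z
  obtain ⟨φ, hφ⟩ := geometric_hahn_banach_open_point hcv.interior isOpen_interior hfree
  have hφn : ∀ x : Fin 3 → ℝ, φ x = (fun k => φ (Pi.single k 1)) ⬝ᵥ x := by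
    intro x
    have h1 := φ.toLinearMap.pi_apply_eq_sum_univ x
    have h2 : φ x = ∑ i, x i • φ (fun j => if i = j then (1 : ℝ) else 0) := h1
    rw [h2]
    simp only [dotProduct, smul_eq_mul]
    refine Finset.sum_congr rfl (fun i _ => ?_)
    have h3 : (fun j => if i = j then (1 : ℝ) else 0) = Pi.single i 1 := by
      funext j
      rw [Pi.single_apply]
      simp only [eq_comm]
    rw [h3, mul_comm]
  refine ⟨fun k => φ (Pi.single k 1), ?_, ?_⟩
  · intro h0
    obtain ⟨x0, hx0⟩ := hint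
    have h1 := hφ x0 hx0
    rw [hφn, hφn, h0] at h1
    simp at h1
  · intro x hx
    rw [← hφn, ← hφn]
    have hcl : x ∈ closure (interior K) := by
      rw [hcv.closure_interior_eq_closure_of_nonempty_interior hint]
      exact subset_closure hx
    have hclosed : IsClosed {y : Fin 3 → ℝ | φ y ≤ φ (toR z)} :=
      isClosed_le φ.continuous continuous_const
    exact closure_minimal (fun y hy => (hφ y hy).le) hclosed hcl

/-- **A lattice-free body lies in a lattice-free polytope.** -/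
theorem exists_poly {K : Set (Fin 3 → ℝ)} (hK : LFree K) :
    ∃ (N : ℕ) (n : Fin N → Fin 3 → ℝ) (c : Fin 3 → ℝ) (β : Fin N → ℝ), 3 ≤ N ∧ (∀ i, 0 < β i) ∧
      IsCompact (Pol n c β) ∧ K ⊆ Pol n c β ∧ ∀ z : Fin 3 → ℤ, toR z ∉ interior (Pol n c β) := by
  classical
  obtain ⟨c, hc⟩ := hK.interior_nonempty
  have hcK := interior_subset hc
  obtain ⟨R, hR⟩ := hK.compact.isBounded.exists_norm_le
  obtain ⟨M, hM⟩ := exists_nat_ge R
  have hKM : ∀ x ∈ K, ∀ i, |x i| ≤ M := by
    intro x hx i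
    have h1 := (norm_le_pi_norm x i).trans ((hR x hx).trans hM)
    rwa [Real.norm_eq_abs] at h1
  choose nz hnz hnzK using own_plane hK
  set Bx : Finset (Fin 3 → ℤ) := Finset.Icc (fun _ => -(M : ℤ)) (fun _ => (M : ℤ)) with hBx
  set T : Type := Bx ⊕ (Fin 3 × Bool) with hT
  set sg : Bool → ℝ := fun s => if s then 1 else -1 with hsg
  set nn : T → Fin 3 → ℝ := Sum.elim (fun z => nz z.1) (fun e => Pi.single e.1 (sg e.2)) with hnn
  set bb : T → ℝ := Sum.elim (fun z => nz z.1 ⬝ᵥ (toR z.1 - c)) (fun e => (M : ℝ) + 1 - sg e.2 * c e.1) with hbb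
  set N := Fintype.card T with hN
  set e : T ≃ Fin N := Fintype.equivFin T with he
  have hcard : 3 ≤ N := by
    have h1 : Fintype.card T = Fintype.card Bx + Fintype.card (Fin 3 × Bool) := Fintype.card_sum
    have h2 : Fintype.card (Fin 3 × Bool) = 6 := by simp
    rw [hN, h1, h2]
    omega
  have hsgc : ∀ s i, |sg s * c i| ≤ M := by
    intro s i
    have h1 := hKM c hcK i
    cases s <;> simp [hsg, h1]
  have hb0 : ∀ t, 0 < bb t := by
    rintro (z | ⟨i, s⟩)
    · have h1 : ∀ y ∈ K, nz z.1 ⬝ᵥ (y - toR z.1) ≤ 0 := by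
        intro y hy
        have := hnzK z.1 y hy
        rw [dotProduct_sub]
        linarith
      have h2 := lt_of_int (hnz z.1) h1 hc
      show 0 < nz z.1 ⬝ᵥ (toR z.1 - c)
      rw [dotProduct_sub] at h2 ⊢
      linarith
    · have h1 := (abs_le.1 (hsgc s i)).2
      show 0 < (M : ℝ) + 1 - sg s * c i
      linarith
  have hbox : ∀ x ∈ Pol (fun i => nn (e.symm i)) c (fun i => bb (e.symm i)), ∀ i, |x i| ≤ (M : ℝ) + 1 := by
    intro x hx i
    have h1 := hx (e (Sum.inr (i, true)))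
    have h2 := hx (e (Sum.inr (i, false)))
    simp only [Equiv.symm_apply_apply, hnn, hbb, Sum.elim_inr, single_dotProduct, hsg, Pi.sub_apply,
      if_true, Bool.false_eq_true, if_false] at h1 h2
    rw [abs_le]
    constructor <;> linarith
  refine ⟨N, fun i => nn (e.symm i), c, fun i => bb (e.symm i), hcard, fun i => hb0 _, ?_, ?_, ?_⟩
  · refine IsCompact.of_isClosed_subset
      (isCompact_univ_pi (fun _ : Fin 3 => isCompact_Icc (a := -((M : ℝ) + 1)) (b := (M : ℝ) + 1)))
      (Pol_closed _ _ _) ?_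
    intro x hx i _
    exact abs_le.1 (hbox x hx i)
  · intro x hx i
    rcases ht : e.symm i with z | ⟨j, s⟩
    · simp only [ht, hnn, hbb, Sum.elim_inl]
      have := hnzK z.1 x hx
      rw [dotProduct_sub, dotProduct_sub]
      linarith
    · simp only [ht, hnn, hbb, Sum.elim_inr, single_dotProduct, Pi.sub_apply]
      have h1 := (abs_le.1 (hKM x hx j))
      cases s
      · simp only [hsg, Bool.false_eq_true, if_false]
        linarith
      · simp only [hsg, if_true]
        linarith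
  · intro z hz
    by_cases hzB : z ∈ Bx
    · have h1 : ∀ y ∈ Pol (fun i => nn (e.symm i)) c (fun i => bb (e.symm i)), nz z ⬝ᵥ (y - c) ≤
          nz z ⬝ᵥ (toR z - c) := by
        intro y hy
        have h2 := hy (e (Sum.inl ⟨z, hzB⟩))
        simpa only [Equiv.symm_apply_apply, hnn, hbb, Sum.elim_inl] using h2
      exact absurd (lt_of_int (hnz z) h1 hz) (lt_irrefl _)
    · have h1 : ∃ i, ¬(-(M : ℤ) ≤ z i ∧ z i ≤ M) := by
        by_contra hcon
        push Not at hcon
        apply hzB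
        rw [hBx, Finset.mem_Icc, Pi.le_def, Pi.le_def]
        exact ⟨fun i => (hcon i).1, fun i => (hcon i).2⟩
      obtain ⟨i, hi⟩ := h1
      have key : ∀ s : Bool, sg s * (toR z i) < (M : ℝ) + 1 := by
        intro s
        have h2 : ∀ y ∈ Pol (fun i => nn (e.symm i)) c (fun i => bb (e.symm i)),
            (Pi.single i (sg s) : Fin 3 → ℝ) ⬝ᵥ (y - c) ≤ (M : ℝ) + 1 - sg s * c i := by
          intro y hy
          have h3 := hy (e (Sum.inr (i, s)))
          simpa only [Equiv.symm_apply_apply, hnn, hbb, Sum.elim_inr] using h3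
        have hne : (Pi.single i (sg s) : Fin 3 → ℝ) ≠ 0 := by
          intro h0
          have := congrFun h0 i
          rw [Pi.single_eq_same] at this
          cases s <;> simp [hsg] at this
        have h4 := lt_of_int hne h2 hz
        rw [single_dotProduct, Pi.sub_apply] at h4
        linarith
      have k1 := key true
      have k2 := key false
      simp only [hsg, if_true, Bool.false_eq_true, if_false, toR] at k1 k2
      have k3 : (z i : ℝ) < (M : ℝ) + 1 := by linarith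
      have k4 : -((M : ℝ) + 1) < (z i : ℝ) := by linarith
      have k5 : z i < (M : ℤ) + 1 := by exact_mod_cast k3
      have k6 : -((M : ℤ) + 1) < z i := by exact_mod_cast k4
      omega

/-- **A wide lattice-free polytope in general position.** -/
theorem exists_pol {K : Set (Fin 3 → ℝ)} (hK : LFree K) {W : ℝ} (hW0 : 0 < W)
    (hW : ∀ r : Fin 3 → ℤ, r ≠ 0 → ∃ x ∈ K, ∃ x' ∈ K, W < toR r ⬝ᵥ (x - x')) :
    ∃ (N : ℕ) (n : Fin N → Fin 3 → ℝ) (c : Fin 3 → ℝ) (β : Fin N → ℝ), 3 ≤ N ∧ (∀ i, 0 < β i) ∧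
      IsCompact (Pol n c β) ∧ LFree (Pol n c β) ∧ (∀ z : Fin 3 → ℤ, toR z ∉ Pol n c β) ∧
      (∀ i j k, i ≠ j → j ≠ k → i ≠ k → (Matrix.of ![n i, n j, n k]).det ≠ 0) ∧
      (∀ r : Fin 3 → ℤ, r ≠ 0 → ∃ x ∈ Pol n c β, ∃ x' ∈ Pol n c β, W < toR r ⬝ᵥ (x - x')) := by
  obtain ⟨N, n, c, β, hN, hβ, hcomp, hsub, hfree⟩ := exists_poly hK
  have : Nonempty (Fin N) := ⟨⟨0, by omega⟩⟩
  obtain ⟨η, β', hη, hβ', hsh⟩ := shrink n c β hβ hcomp W hW0 (by
    intro r hr
    obtain ⟨x, hx, x', hx', h⟩ := hW r hr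
    exact ⟨x, hsub hx, x', hsub hx', h⟩)
  obtain ⟨n', hn', hgen⟩ := exists_generic n η hη
  obtain ⟨h1, h2, h3⟩ := hsh n' hn'
  have hno : ∀ z : Fin 3 → ℤ, toR z ∉ Pol n' c β' := fun z hz => hfree z (h1 hz)
  have hint : c ∈ interior (Pol n' c β') := Pol_interior n' c β' fun i => by
    rw [sub_self, dotProduct_zero]
    exact hβ' i
  have hconv : Convex ℝ (Pol n' c β') := by
    intro x hx y hy a b ha hb hab i
    have e1 : a • x + b • y - c = a • (x - c) + b • (y - c) := by
      have : c = a • c + b • c := by rw [← add_smul, hab, one_smul]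
      conv_lhs => rw [this]
      rw [smul_sub, smul_sub]
      abel
    rw [e1, dotProduct_add, dotProduct_smul, dotProduct_smul, smul_eq_mul, smul_eq_mul]
    have h4 := mul_le_mul_of_nonneg_left (hx i) ha
    have h5 := mul_le_mul_of_nonneg_left (hy i) hb
    have h6 : a * β' i + b * β' i = β' i := by rw [← add_mul, hab, one_mul]
    linarith
  exact ⟨N, n', c, β', hN, hβ', h2, ⟨h2, hconv, ⟨c, hint⟩, fun z hz => hno z (interior_subset hz)⟩, hno, hgen, h3⟩

end Pool.Agent.Helper21.BS
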