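import Pool.Agent.Helper24.UB.Last

/-!
# Polytopes: a small perturbation inside the interior (after helper20's Shrink)
-/

set_option autoImplicit false

namespace Pool.Agent.Helper21.BS

open Matrix
open Pool.Agent.Helper22.Sym (toR)

variable {ι : Type} [Finite ι]

/-- the set given by linear inequalities around the point `c` -/
def Pol (n : ι → Fin 3 → ℝ) (c : Fin 3 → ℝ) (β : ι → ℝ) : Set (Fin 3 → ℝ) :=
  {x | ∀ i, n i ⬝ᵥ (x - c) ≤ β i}

omit [Finite ι] in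
theorem Pol_closed (n : ι → Fin 3 → ℝ) (c : Fin 3 → ℝ) (β : ι → ℝ) : IsClosed (Pol n c β) := by
  have : Pol n c β = ⋂ i, {x | n i ⬝ᵥ (x - c) ≤ β i} := by
    ext x
    simp [Pol]
  rw [this]
  refine isClosed_iInter fun i => isClosed_le ?_ continuous_const
  unfold dotProduct
  fun_prop

theorem Pol_open (n : ι → Fin 3 → ℝ) (c : Fin 3 → ℝ) (β : ι → ℝ) :
    IsOpen {x : Fin 3 → ℝ | ∀ i, n i ⬝ᵥ (x - c) < β i} := by
  have : {x : Fin 3 → ℝ | ∀ i, n i ⬝ᵥ (x - c) < β i} = ⋂ i, {x | n i ⬝ᵥ (x - c) < β i} := by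
    ext x
    simp
  rw [this]
  refine isOpen_iInter_of_finite fun i => isOpen_lt ?_ continuous_const
  unfold dotProduct
  fun_prop

theorem Pol_interior (n : ι → Fin 3 → ℝ) (c : Fin 3 → ℝ) (β : ι → ℝ) {x : Fin 3 → ℝ}
    (hx : ∀ i, n i ⬝ᵥ (x - c) < β i) : x ∈ interior (Pol n c β) :=
  mem_interior.2 ⟨{x : Fin 3 → ℝ | ∀ i, n i ⬝ᵥ (x - c) < β i}, fun _ hy i => (hy i).le,
    Pol_open n c β, hx⟩

theorem dot_diff_le (u v : Fin 3 → ℝ) (η R : ℝ) (hη : 0 ≤ η) (hu : ∀ a, |u a| ≤ η) (hv : ∀ a, |v a| ≤ R) :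
    |u ⬝ᵥ v| ≤ 3 * η * R := by
  unfold dotProduct
  refine (Finset.abs_sum_le_sum_abs _ _).trans ?_
  have h1 : ∀ a : Fin 3, |u a * v a| ≤ η * R := fun a => by
    rw [abs_mul]
    exact mul_le_mul (hu a) (hv a) (abs_nonneg _) hη
  calc ∑ a, |u a * v a| ≤ ∑ _a : Fin 3, η * R := Finset.sum_le_sum fun a _ => h1 a
    _ = 3 * η * R := by simp; ring

/-- **Perturbation.** -/
theorem shrink [Nonempty ι] (n : ι → Fin 3 → ℝ) (c : Fin 3 → ℝ) (β : ι → ℝ) (hβ : ∀ i, 0 < β i)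
    (hcomp : IsCompact (Pol n c β)) (W : ℝ) (hW0 : 0 < W)
    (hW : ∀ r : Fin 3 → ℤ, r ≠ 0 → ∃ x ∈ Pol n c β, ∃ x' ∈ Pol n c β, W < toR r ⬝ᵥ (x - x')) :
    ∃ (η : ℝ) (β' : ι → ℝ), 0 < η ∧ (∀ i, 0 < β' i) ∧
      ∀ n' : ι → Fin 3 → ℝ, (∀ i a, |n' i a - n i a| ≤ η) →
        Pol n' c β' ⊆ interior (Pol n c β) ∧ IsCompact (Pol n' c β') ∧
        ∀ r : Fin 3 → ℤ, r ≠ 0 → ∃ x ∈ Pol n' c β', ∃ x' ∈ Pol n' c β', W < toR r ⬝ᵥ (x - x') := by
  classical
  have hint : (interior (Pol n c β)).Nonempty :=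
    ⟨c, Pol_interior n c β fun i => by rw [sub_self, dotProduct_zero]; exact hβ i⟩
  obtain ⟨W1, hW1, hwid⟩ := Pool.Agent.Helper24.UB.width_gap (Pol n c β) hint W hW
  have hW10 : 0 < W1 := hW0.trans hW1
  obtain ⟨R0, hR0⟩ := hcomp.isBounded.exists_norm_le
  set R : ℝ := max 1 (R0 + ‖c‖) with hR
  have hR1 : 1 ≤ R := le_max_left _ _
  have hRK : ∀ x ∈ Pol n c β, ∀ a, |(x - c) a| ≤ R := by
    intro x hx a
    have h1 : ‖x - c‖ ≤ R0 + ‖c‖ := (norm_sub_le x c).trans (by linarith [hR0 x hx])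
    have h2 := norm_le_pi_norm (x - c) a
    rw [Real.norm_eq_abs] at h2
    exact h2.trans (h1.trans (le_max_right _ _))
  obtain ⟨i0, hi0⟩ := Finite.exists_min β
  set δ : ℝ := (W1 - W) / (2 * W1) with hδ
  have hδ0 : 0 < δ := by rw [hδ]; exact div_pos (by linarith) (by linarith)
  have hδ1 : δ < 1 / 2 := by
    rw [hδ, div_lt_div_iff₀ (by linarith) (by norm_num)]
    linarith
  have hδW : (1 - 2 * δ) * W1 = W := by
    rw [hδ]
    field_simp
    ring
  set η : ℝ := δ * β i0 / (12 * R) with hη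
  have hη0 : 0 < η := by
    rw [hη]
    have := hβ i0
    positivity
  have hηR : 3 * η * R = δ * β i0 / 4 := by
    rw [hη]
    field_simp
    ring
  refine ⟨η, fun i => (1 - δ) * β i, hη0, fun i => mul_pos (by linarith) (hβ i), ?_⟩
  intro n' hn'
  have hclose : ∀ x ∈ Pol n c β, ∀ i, |n' i ⬝ᵥ (x - c) - n i ⬝ᵥ (x - c)| ≤ δ * β i / 4 := by
    intro x hx i
    rw [← sub_dotProduct]
    refine (dot_diff_le (n' i - n i) (x - c) η R hη0.le (fun a => hn' i a) (hRK x hx)).trans ?_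
    rw [hηR]
    have h1 := mul_le_mul_of_nonneg_left (hi0 i) hδ0.le
    linarith
  have hsub : Pol n' c (fun i => (1 - δ) * β i) ⊆ interior (Pol n c β) := by
    intro x hx
    by_contra hcon
    have hex : ∃ i, (1 - δ / 2) * β i < n i ⬝ᵥ (x - c) := by
      by_contra hno
      push Not at hno
      refine hcon (Pol_interior n c β fun i => (hno i).trans_lt ?_)
      have := hβ i
      nlinarith
    obtain ⟨i1, hi1⟩ := Finite.exists_max fun i => n i ⬝ᵥ (x - c) / β i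
    set μ : ℝ := n i1 ⬝ᵥ (x - c) / β i1 with hμ
    have hμ1 : 1 - δ / 2 < μ := by
      obtain ⟨i, hi⟩ := hex
      refine lt_of_lt_of_le ?_ (hi1 i)
      rw [lt_div_iff₀ (hβ i)]
      exact hi
    have hμ0 : 0 < μ := by linarith
    set s : ℝ := (1 - δ / 2) / μ with hs
    have hs0 : 0 < s := div_pos (by linarith) hμ0
    have hs1 : s ≤ 1 := by
      rw [hs, div_le_one hμ0]
      exact hμ1.le
    have hsμ : s * μ = 1 - δ / 2 := by
      rw [hs]
      field_simp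
    set x' : Fin 3 → ℝ := c + s • (x - c) with hx'
    have hxc : ∀ m : Fin 3 → ℝ, m ⬝ᵥ (x' - c) = s * (m ⬝ᵥ (x - c)) := by
      intro m
      rw [hx', add_sub_cancel_left, dotProduct_smul, smul_eq_mul]
    have hle : ∀ i, n i ⬝ᵥ (x - c) ≤ μ * β i := by
      intro i
      have h1 := hi1 i
      rwa [div_le_iff₀ (hβ i)] at h1
    have hxK : x' ∈ Pol n c β := by
      intro i
      rw [hxc]
      have h1 := mul_le_mul_of_nonneg_left (hle i) hs0.le
      have h2 : s * (μ * β i) = (1 - δ / 2) * β i := by rw [← mul_assoc, hsμ]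
      have := hβ i
      nlinarith
    have h1 := (abs_le.1 (hclose x' hxK i1)).1
    rw [hxc, hxc] at h1
    have h2 : s * (n i1 ⬝ᵥ (x - c)) = (1 - δ / 2) * β i1 := by
      have h3 : n i1 ⬝ᵥ (x - c) = μ * β i1 := by
        rw [hμ]
        field_simp [(hβ i1).ne']
      rw [h3, ← mul_assoc, hsμ]
    have h4 : s * (n' i1 ⬝ᵥ (x - c)) ≤ s * ((1 - δ) * β i1) :=
      mul_le_mul_of_nonneg_left (hx i1) hs0.le
    have h5 : s * ((1 - δ) * β i1) ≤ 1 * ((1 - δ) * β i1) :=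
      mul_le_mul_of_nonneg_right hs1 (mul_nonneg (by linarith) (hβ i1).le)
    have h6 := mul_pos hδ0 (hβ i1)
    rw [h2] at h1
    nlinarith
  refine ⟨hsub, ?_, ?_⟩
  · exact hcomp.of_isClosed_subset (Pol_closed _ _ _) (hsub.trans interior_subset)
  · intro r hr
    obtain ⟨x, hx, x', hx', hlt⟩ := hwid r hr
    have hmem : ∀ y ∈ Pol n c β, c + (1 - 2 * δ) • (y - c) ∈ Pol n' c (fun i => (1 - δ) * β i) := by
      intro y hy i
      rw [add_sub_cancel_left, dotProduct_smul, smul_eq_mul]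
      have h1 := (abs_le.1 (hclose y hy i)).2
      have h2 := hy i
      have h3 := mul_pos hδ0 (hβ i)
      have h4 : n' i ⬝ᵥ (y - c) ≤ β i + δ * β i / 4 := by linarith
      have h5 := mul_le_mul_of_nonneg_left h4 (show (0 : ℝ) ≤ 1 - 2 * δ by linarith)
      refine h5.trans ?_
      nlinarith
    refine ⟨_, hmem x hx, _, hmem x' hx', ?_⟩
    have h1 : (c + (1 - 2 * δ) • (x - c)) - (c + (1 - 2 * δ) • (x' - c)) = (1 - 2 * δ) • (x - x') := by
      funext a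
      simp only [Pi.sub_apply, Pi.add_apply, Pi.smul_apply, smul_eq_mul]
      ring
    rw [h1, dotProduct_smul, smul_eq_mul, ← hδW]
    exact mul_lt_mul_of_pos_left hlt (by linarith)

end Pool.Agent.Helper21.BS
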