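import Pool.Agent.Helper21.BS.FixG
import Pool.Agent.Helper21.BS.State

/-!
# MP_be0fb5: the state inside one Delaunay cell, grouped form: the limit
-/

set_option autoImplicit false

namespace Pool.Agent.Helper21.BS

open Matrix Filter Topology
open Pool.Agent.Helper21.FX (ct dot_sq_le dot_self_nonneg' clamp_vi sq_le_dot)

section

variable {T Γ : Type} [Fintype T] [DecidableEq T] [Fintype Γ]

omit [DecidableEq T] in
theorem QG_cont (A : Γ → T → ℝ) (w : T → Fin 3 → ℝ) : Continuous fun q : (T → ℝ) × (Fin 3 → ℝ) => QG A w q.1 q.2 := by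
  unfold QG Nv dotProduct
  fun_prop

omit [DecidableEq T] in
theorem QG_smul (A : Γ → T → ℝ) (w : T → Fin 3 → ℝ) (L : T → ℝ) (a : ℝ) (y : Fin 3 → ℝ) :
    QG A w L (a • y) = a ^ 2 * QG A w L y := by
  unfold QG
  rw [smul_dotProduct, dotProduct_smul, smul_eq_mul, smul_eq_mul, mul_add, Finset.mul_sum]
  congr 1
  · ring
  · refine Finset.sum_congr rfl fun g _ => ?_
    rw [← mul_pow, Finset.mul_sum]
    congr 1
    refine Finset.sum_congr rfl fun t _ => ?_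
    rw [dotProduct_smul, smul_eq_mul]
    ring

/-- uniform bounds of the form on the simplex -/
theorem QG_bounds [Nonempty T] (A : Γ → T → ℝ) (w : T → Fin 3 → ℝ)
    (hpos : ∀ L : T → ℝ, (∀ t, 0 ≤ L t) → ∑ t, L t = 1 → Nv w L = 0 → ∀ y, y ≠ 0 →
      0 < ∑ g, (∑ t, A g t * (L t * (w t ⬝ᵥ y))) ^ 2) :
    ∃ κ C1 : ℝ, 0 < κ ∧ 0 ≤ C1 ∧
      (∀ L : T → ℝ, (∀ t, 0 ≤ L t) → ∑ t, L t = 1 → ∀ y, κ * (y ⬝ᵥ y) ≤ QG A w L y) ∧
      (∀ L : T → ℝ, (∀ t, 0 ≤ L t) → ∑ t, L t = 1 → ∀ y, QG A w L y ≤ C1 * (y ⬝ᵥ y)) := by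
  classical
  set S1 : Set (T → ℝ) := {L | (∀ t, 0 ≤ L t) ∧ ∑ t, L t = 1} with hS1
  set S2 : Set (Fin 3 → ℝ) := {y | y ⬝ᵥ y = 1} with hS2
  have hc1 : IsCompact S1 := by
    refine IsCompact.of_isClosed_subset (isCompact_univ_pi (fun _ : T => isCompact_Icc (a := (0 : ℝ)) (b := 1)))
      ?_ ?_
    · have h1 : S1 = (⋂ t, {L : T → ℝ | 0 ≤ L t}) ∩ {L | ∑ t, L t = 1} := by
        ext L
        simp [hS1]
      rw [h1]
      refine IsClosed.inter ?_ ?_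
      · exact isClosed_iInter fun t => isClosed_le continuous_const (continuous_apply t)
      · exact isClosed_eq (continuous_finsetSum _ fun t _ => continuous_apply t) continuous_const
    · intro L hL t _
      refine ⟨hL.1 t, ?_⟩
      rw [← hL.2]
      exact Finset.single_le_sum (f := fun t => L t) (fun t _ => hL.1 t) (Finset.mem_univ t)
  have hc2 : IsCompact S2 := by
    refine IsCompact.of_isClosed_subset
      (isCompact_univ_pi (fun _ : Fin 3 => isCompact_Icc (a := (-1 : ℝ)) (b := 1))) ?_ ?_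
    · exact isClosed_eq (by unfold dotProduct; fun_prop) continuous_const
    · intro y hy i _
      have h1 := sq_le_dot y i
      rw [show y ⬝ᵥ y = 1 from hy] at h1
      exact abs_le.1 (abs_le_one_iff_mul_self_le_one.2 (by nlinarith))
  have hne1 : S1.Nonempty := by
    obtain ⟨t0⟩ := ‹Nonempty T›
    refine ⟨Pi.single t0 1, fun t => ?_, ?_⟩
    · by_cases h : t = t0
      · rw [h, Pi.single_eq_same]
        exact zero_le_one
      · rw [Pi.single_eq_of_ne h]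
    · rw [Finset.sum_pi_single']
      simp
  have hne2 : S2.Nonempty := ⟨Pi.single 0 1, by
    show (Pi.single 0 1 : Fin 3 → ℝ) ⬝ᵥ Pi.single 0 1 = 1
    simp⟩
  have hc := hc1.prod hc2
  have hne := hne1.prod hne2
  obtain ⟨q0, hq0, hmin⟩ := hc.exists_isMinOn hne (QG_cont A w).continuousOn
  obtain ⟨q1, hq1, hmax⟩ := hc.exists_isMaxOn hne (QG_cont A w).continuousOn
  have hκ : 0 < QG A w q0.1 q0.2 := by
    have hy : q0.2 ≠ 0 := by
      intro h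
      have h1 : q0.2 ⬝ᵥ q0.2 = 1 := hq0.2
      rw [h, zero_dotProduct] at h1
      exact zero_ne_one h1
    unfold QG
    by_cases hN : Nv w q0.1 = 0
    · have h1 := hpos q0.1 hq0.1.1 hq0.1.2 hN q0.2 hy
      rw [hN, zero_dotProduct, zero_mul, zero_add]
      exact h1
    · have h1 : 0 < Nv w q0.1 ⬝ᵥ Nv w q0.1 :=
        lt_of_le_of_ne (dot_self_nonneg' _) fun h => hN (dotProduct_self_eq_zero.1 h.symm)
      have h2 : q0.2 ⬝ᵥ q0.2 = 1 := hq0.2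
      rw [h2, mul_one]
      exact add_pos_of_pos_of_nonneg h1 (Finset.sum_nonneg fun t _ => sq_nonneg _)
  have hscale : ∀ y : Fin 3 → ℝ, y ≠ 0 → ∃ a : ℝ, ∃ y0 ∈ S2, y = a • y0 ∧ a ^ 2 = y ⬝ᵥ y := by
    intro y hy
    have h1 : 0 < y ⬝ᵥ y := lt_of_le_of_ne (dot_self_nonneg' _) fun h => hy (dotProduct_self_eq_zero.1 h.symm)
    refine ⟨Real.sqrt (y ⬝ᵥ y), (Real.sqrt (y ⬝ᵥ y))⁻¹ • y, ?_, ?_, Real.sq_sqrt h1.le⟩
    · show ((Real.sqrt (y ⬝ᵥ y))⁻¹ • y) ⬝ᵥ ((Real.sqrt (y ⬝ᵥ y))⁻¹ • y) = 1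
      rw [smul_dotProduct, dotProduct_smul, smul_eq_mul, smul_eq_mul, ← mul_assoc, ← mul_inv,
        Real.mul_self_sqrt h1.le, inv_mul_cancel₀ h1.ne']
    · rw [smul_smul, mul_inv_cancel₀ (Real.sqrt_pos.2 h1).ne', one_smul]
  refine ⟨QG A w q0.1 q0.2, max 0 (QG A w q1.1 q1.2), hκ, le_max_left _ _, ?_, ?_⟩
  · intro L hL0 hL1 y
    by_cases hy : y = 0
    · rw [hy, zero_dotProduct, mul_zero]
      unfold QG
      exact add_nonneg (mul_nonneg (dot_self_nonneg' _) (dot_self_nonneg' _))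
        (Finset.sum_nonneg fun t _ => sq_nonneg _)
    · obtain ⟨a, y0, hy0, hya, ha⟩ := hscale y hy
      have h1 : QG A w q0.1 q0.2 ≤ QG A w L y0 := isMinOn_iff.1 hmin (L, y0) ⟨⟨hL0, hL1⟩, hy0⟩
      rw [← ha, hya, QG_smul, mul_comm]
      exact mul_le_mul_of_nonneg_left h1 (sq_nonneg a)
  · intro L hL0 hL1 y
    by_cases hy : y = 0
    · have h1 : QG A w L (0 : Fin 3 → ℝ) = 0 := by
        unfold QG
        simp
      rw [hy, h1, zero_dotProduct, mul_zero]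
    · obtain ⟨a, y0, hy0, hya, ha⟩ := hscale y hy
      have h1 : QG A w L y0 ≤ QG A w q1.1 q1.2 := isMaxOn_iff.1 hmax (L, y0) ⟨⟨hL0, hL1⟩, hy0⟩
      rw [← ha, hya, QG_smul, mul_comm]
      exact mul_le_mul_of_nonneg_right (h1.trans (le_max_right _ _)) (sq_nonneg a)

/-- **The state inside one Delaunay cell.** -/
theorem brouwer_stateG (A : Γ → T → ℝ) (w : T → Fin 3 → ℝ) (lab : (Fin 3 → ℤ) → T)
    (hpos : ∀ L : T → ℝ, (∀ t, 0 ≤ L t) → ∑ t, L t = 1 → Nv w L = 0 → ∀ y, y ≠ 0 →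
      0 < ∑ g, (∑ t, A g t * (L t * (w t ⬝ᵥ y))) ^ 2)
    (hfar : ∀ R : ℝ, ∃ M0 : ℝ, ∀ (x : Fin 3 → ℝ) (z : Fin 3 → ℤ), (∃ i, M0 ≤ |x i|) →
      (x - ct z) ⬝ᵥ (x - ct z) ≤ R → 0 < w (lab z) ⬝ᵥ x) :
    ∃ (x : Fin 3 → ℝ) (L : T → ℝ) (μ : (Fin 3 → ℤ) → ℝ) (D : Finset (Fin 3 → ℤ)),
      (∀ z ∈ D, 0 < μ z) ∧ (∑ z ∈ D, μ z = 1) ∧ (∀ t, L t = ∑ z ∈ D, if lab z = t then μ z else 0) ∧
      Nv w L = 0 ∧
      (∀ z ∈ D, ∀ y : Fin 3 → ℤ, ∑ g, (∑ t, A g t * (L t * (w t ⬝ᵥ (x - ct z)))) ^ 2 ≤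
        ∑ g, (∑ t, A g t * (L t * (w t ⬝ᵥ (x - ct y)))) ^ 2) := by
  classical
  have : Nonempty T := ⟨lab 0⟩
  obtain ⟨κ, C1, hκ, hC1, hlow, hup⟩ := QG_bounds A w hpos
  obtain ⟨R1, hR1⟩ : ∃ R1 : ℝ, C1 * 3 + 1 = κ * R1 := ⟨(C1 * 3 + 1) / κ, by field_simp⟩
  obtain ⟨M0, hM0⟩ := hfar R1
  obtain ⟨M, hM⟩ := exists_nat_ge (max M0 1)
  have hM1 : (1 : ℝ) ≤ (M : ℝ) := (le_max_right _ _).trans hM
  have hMM : M0 ≤ (M : ℝ) := (le_max_left _ _).trans hM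
  set sN : ℝ := C1 * 3 / κ with hsN
  have hsN0 : 0 ≤ sN := by positivity
  obtain ⟨N, hN⟩ := exists_nat_ge ((M : ℝ) + sN + 1)
  set B : Finset (Fin 3 → ℤ) := Finset.Icc (fun _ => -(N : ℤ)) (fun _ => (N : ℤ)) with hB
  have hmem : ∀ v, v ∈ B ↔ ∀ i, -(N : ℤ) ≤ v i ∧ v i ≤ N := by
    intro v
    rw [hB, Finset.mem_Icc, Pi.le_def, Pi.le_def]
    exact ⟨fun h i => ⟨h.1 i, h.2 i⟩, fun h => ⟨fun i => (h i).1, fun i => (h i).2⟩⟩
  have hMN : (M : ℤ) ≤ N := by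
    have : (M : ℝ) ≤ N := by linarith
    exact_mod_cast this
  have hBfl : ∀ x : Fin 3 → ℝ, (∀ i, |x i| ≤ (M : ℝ)) → (fun i => ⌊x i⌋) ∈ B := by
    intro x hx
    rw [hmem]
    intro i
    have a1 := abs_le.1 (hx i)
    constructor
    · rw [Int.le_floor]
      have h1 : ((-(N : ℤ) : ℤ) : ℝ) ≤ -(M : ℝ) := by
        push_cast
        linarith
      linarith
    · have h3 : ((⌊x i⌋ : ℤ) : ℝ) ≤ ((M : ℤ) : ℝ) := by
        push_cast
        exact (Int.floor_le _).trans a1.2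
      have h4 : ⌊x i⌋ ≤ (M : ℤ) := by exact_mod_cast h3
      omega
  have hout : ∀ x : Fin 3 → ℝ, (∀ i, |x i| ≤ (M : ℝ)) → (∃ i, |x i| = (M : ℝ)) →
      ∀ z : Fin 3 → ℤ, (x - ct z) ⬝ᵥ (x - ct z) ≤ R1 → 0 < w (lab z) ⬝ᵥ x := by
    intro x _ ⟨i, hi⟩ z hz
    exact hM0 x z ⟨i, by rw [hi]; exact hMM⟩ hz
  -- the approximate fixed points
  have hex : ∀ k : ℕ, ∃ p : (Fin 3 → ℝ) × (T → ℝ) × (↥B → ℝ), (∀ i, |p.1 i| ≤ (M : ℝ)) ∧
      (∀ z, 0 ≤ p.2.2 z ∧ p.2.2 z ≤ 1) ∧ (∑ z, p.2.2 z = 1) ∧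
      (∀ t, p.2.1 t = ∑ z, if lab z.1 = t then p.2.2 z else 0) ∧
      (∀ t, 0 ≤ p.2.1 t ∧ p.2.1 t ≤ 1) ∧ (∑ t, p.2.1 t = 1) ∧ Nv w p.2.1 = 0 ∧
      (∀ z : ↥B, p.2.2 z ≠ 0 → ∀ y ∈ B,
        QG A w p.2.1 (p.1 - ct z.1) ≤ QG A w p.2.1 (p.1 - ct y) + 1 / ((k : ℝ) + 1)) := by
    intro k
    have hk : 0 < 1 / ((k : ℝ) + 1) := Nat.one_div_pos_of_nat
    have hk1 : 1 / ((k : ℝ) + 1) ≤ 1 := by
      rw [div_le_one (by positivity)]
      have : (0 : ℝ) ≤ k := Nat.cast_nonneg k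
      linarith
    obtain ⟨x, L, μ, h1, h2, h3, h4, h5, h6, h7, h8, h9⟩ := fix_labG A w lab B (1 / ((k : ℝ) + 1)) κ C1 M R1 hk hκ
      (by linarith) hlow hup hC1 (by linarith) hBfl hout
    refine ⟨(x, L, fun z => μ z.1), h1, fun z => h2 z.1, ?_, ?_, h6, h7, h8, ?_⟩
    · show ∑ z : ↥B, μ z.1 = 1
      rw [← h4]
      exact Finset.sum_coe_sort B μ
    · intro t
      show L t = ∑ z : ↥B, if lab z.1 = t then μ z.1 else 0
      rw [h5 t]
      exact (Finset.sum_coe_sort B fun z => if lab z = t then μ z else 0).symm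
    · intro z hz y hy
      exact h9 z.1 z.2 hz y hy
  choose u hu using hex
  -- compactness
  have hcomp : IsCompact ((Set.pi Set.univ fun _ : Fin 3 => Set.Icc (-(M : ℝ)) M) ×ˢ
      ((Set.pi Set.univ fun _ : T => Set.Icc (0 : ℝ) 1) ×ˢ
      (Set.pi Set.univ fun _ : ↥B => Set.Icc (0 : ℝ) 1))) :=
    (isCompact_univ_pi (fun _ => isCompact_Icc)).prod
      ((isCompact_univ_pi (fun _ => isCompact_Icc)).prod (isCompact_univ_pi (fun _ => isCompact_Icc)))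
  obtain ⟨p, hp, φ, hφ, hlim⟩ := hcomp.tendsto_subseq (x := u) (by
    intro k
    refine ⟨fun i _ => ?_, fun t _ => (hu k).2.2.2.2.1 t, fun z _ => (hu k).2.1 z⟩
    exact abs_le.1 ((hu k).1 i))
  have hpM : ∀ i, |p.1 i| ≤ (M : ℝ) := fun i => abs_le.2 (hp.1 i (Set.mem_univ _))
  have hlimf : ∀ F : (Fin 3 → ℝ) × (T → ℝ) × (↥B → ℝ) → ℝ, Continuous F →
      Tendsto (fun k => F (u (φ k))) atTop (𝓝 (F p)) := fun F hF => (hF.tendsto p).comp hlim
  have clam : ∀ t, Continuous fun q : (Fin 3 → ℝ) × (T → ℝ) × (↥B → ℝ) => q.2.1 t := fun t => by fun_prop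
  have cmu : ∀ z, Continuous fun q : (Fin 3 → ℝ) × (T → ℝ) × (↥B → ℝ) => q.2.2 z := fun z => by fun_prop
  have cQ : ∀ z : Fin 3 → ℤ, Continuous fun q : (Fin 3 → ℝ) × (T → ℝ) × (↥B → ℝ) =>
      QG A w q.2.1 (q.1 - ct z) := by
    intro z
    exact (QG_cont A w).comp ((continuous_fst.comp continuous_snd).prodMk
      (continuous_fst.sub continuous_const))
  have heq : ∀ F G : (Fin 3 → ℝ) × (T → ℝ) × (↥B → ℝ) → ℝ, Continuous F → Continuous G →
      (∀ k, F (u k) = G (u k)) → F p = G p := by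
    intro F G hF hG h
    refine tendsto_nhds_unique (hlimf F hF) ?_
    exact (hlimf G hG).congr fun k => (h (φ k)).symm
  have hL0 : ∀ t, 0 ≤ p.2.1 t := fun t => (hp.2.1 t (Set.mem_univ _)).1
  have hμ0 : ∀ z, 0 ≤ p.2.2 z := fun z => (hp.2.2 z (Set.mem_univ _)).1
  have hμ1 : ∑ z, p.2.2 z = 1 := heq (fun q => ∑ z, q.2.2 z) (fun _ => 1)
    (continuous_finsetSum _ fun z _ => cmu z) continuous_const fun k => (hu k).2.2.1
  have hL1 : ∑ t, p.2.1 t = 1 := heq (fun q => ∑ t, q.2.1 t) (fun _ => 1)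
    (continuous_finsetSum _ fun t _ => clam t) continuous_const fun k => (hu k).2.2.2.2.2.1
  have hLμ : ∀ t, p.2.1 t = ∑ z, if lab z.1 = t then p.2.2 z else 0 := fun t =>
    heq (fun q => q.2.1 t) (fun q => ∑ z : ↥B, if lab z.1 = t then q.2.2 z else 0) (clam t)
      (continuous_finsetSum _ fun z _ => by
        split_ifs
        · exact cmu z
        · exact continuous_const) fun k => (hu k).2.2.2.1 t
  have hN0 : Nv w p.2.1 = 0 := by
    funext i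
    exact heq (fun q => Nv w q.2.1 i) (fun _ => 0)
      (continuous_finsetSum _ fun t _ => (clam t).mul continuous_const) continuous_const
      fun k => congrFun (hu k).2.2.2.2.2.2.1 i
  have hδ0 : Tendsto (fun k => 1 / (((φ k : ℕ) : ℝ) + 1)) atTop (𝓝 0) :=
    tendsto_one_div_add_atTop_nhds_zero_nat.comp hφ.tendsto_atTop
  have hDB : ∀ z : ↥B, p.2.2 z ≠ 0 → ∀ y ∈ B, QG A w p.2.1 (p.1 - ct z.1) ≤ QG A w p.2.1 (p.1 - ct y) := by
    intro z hne y hy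
    have h1 := hlimf _ (cmu z)
    have h2 : ∀ᶠ k in atTop, (u (φ k)).2.2 z ≠ 0 := h1.eventually_ne hne
    have h3 := hlimf _ (cQ z.1)
    have h4 := (hlimf _ (cQ y)).add hδ0
    rw [add_zero] at h4
    refine le_of_tendsto_of_tendsto h3 h4 (h2.mono (fun k hk => ?_))
    exact (hu (φ k)).2.2.2.2.2.2.2 z hk y hy
  have hAll : ∀ z : ↥B, p.2.2 z ≠ 0 → ∀ y : Fin 3 → ℤ,
      QG A w p.2.1 (p.1 - ct z.1) ≤ QG A w p.2.1 (p.1 - ct y) := by
    intro z hne y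
    by_cases hy : y ∈ B
    · exact hDB z hne y hy
    · have h1 := hDB z hne _ (hBfl p.1 hpM)
      have h3 := hup p.2.1 hL0 hL1 (p.1 - ct (fun i => ⌊p.1 i⌋))
      have h4 : (p.1 - ct (fun i => ⌊p.1 i⌋)) ⬝ᵥ (p.1 - ct (fun i => ⌊p.1 i⌋)) ≤ 3 := by
        have h5 : ∀ i, ((p.1 - ct (fun i => ⌊p.1 i⌋)) i) ^ 2 ≤ 1 := by
          intro i
          have h6 : (p.1 - ct (fun i => ⌊p.1 i⌋)) i = Int.fract (p.1 i) := rfl
          rw [h6]
          have := Int.fract_nonneg (p.1 i)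
          have := (Int.fract_lt_one (p.1 i)).le
          nlinarith
        have h7 : (p.1 - ct (fun i => ⌊p.1 i⌋)) ⬝ᵥ (p.1 - ct (fun i => ⌊p.1 i⌋)) =
            ∑ i, ((p.1 - ct (fun i => ⌊p.1 i⌋)) i) ^ 2 := by
          unfold dotProduct
          exact Finset.sum_congr rfl (fun i _ => by ring)
        rw [h7, Fin.sum_univ_three]
        have := h5 0
        have := h5 1
        have := h5 2
        linarith
      have h5 := mul_le_mul_of_nonneg_left h4 hC1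
      have h6 := hlow p.2.1 hL0 hL1 (p.1 - ct y)
      have h7 : ∃ i, (N : ℤ) < |y i| := by
        by_contra hcon
        push Not at hcon
        apply hy
        rw [hmem]
        intro i
        exact abs_le.1 (hcon i)
      obtain ⟨i, hi⟩ := h7
      have h8 : (N : ℝ) < |(y i : ℝ)| := by exact_mod_cast hi
      have h9 : sN + 1 ≤ |(p.1 - ct y) i| := by
        have e1 : |(y i : ℝ)| ≤ |p.1 i| + |(p.1 - ct y) i| := by
          have e2 : (y i : ℝ) = p.1 i - (p.1 - ct y) i := by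
            show (y i : ℝ) = p.1 i - (p.1 i - (y i : ℝ))
            ring
          rw [e2]
          exact abs_sub _ _
        have := hpM i
        linarith
      have h10 : sN ≤ ((p.1 - ct y) i) ^ 2 := by
        rw [← sq_abs]
        nlinarith
      have h11 := sq_le_dot (p.1 - ct y) i
      have h12 : C1 * 3 ≤ κ * ((p.1 - ct y) ⬝ᵥ (p.1 - ct y)) := by
        have h13 : κ * sN = C1 * 3 := by
          rw [hsN]
          field_simp
        rw [← h13]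
        exact mul_le_mul_of_nonneg_left (h10.trans h11) hκ.le
      linarith
  -- output
  obtain ⟨μ, hμ⟩ : ∃ μ : (Fin 3 → ℤ) → ℝ, μ = fun z => if h : z ∈ B then p.2.2 ⟨z, h⟩ else 0 := ⟨_, rfl⟩
  have hμB : ∀ z : ↥B, μ z.1 = p.2.2 z := fun z => by
    rw [hμ]
    exact dif_pos z.2
  have hsumD : ∀ G : (Fin 3 → ℤ) → ℝ → ℝ, (∀ z, G z 0 = 0) →
      ∑ z ∈ B.filter (fun z => μ z ≠ 0), G z (μ z) = ∑ z : ↥B, G z.1 (p.2.2 z) := by
    intro G hG
    rw [Finset.sum_filter]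
    rw [← Finset.sum_coe_sort B]
    refine Finset.sum_congr rfl fun z _ => ?_
    rw [hμB z]
    split_ifs with h
    · rfl
    · push Not at h
      rw [h, hG]
  refine ⟨p.1, p.2.1, μ, B.filter (fun z => μ z ≠ 0), ?_, ?_, ?_, hN0, ?_⟩
  · intro z hz
    obtain ⟨hzB, hne⟩ := Finset.mem_filter.1 hz
    refine lt_of_le_of_ne ?_ (Ne.symm hne)
    rw [hμB ⟨z, hzB⟩]
    exact hμ0 _
  · rw [hsumD (fun _ a => a) fun _ => rfl]
    exact hμ1
  · intro t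
    rw [hsumD (fun z a => if lab z = t then a else 0) fun z => by simp]
    exact hLμ t
  · intro z hz y
    obtain ⟨hzB, hne⟩ := Finset.mem_filter.1 hz
    have h1 := hAll ⟨z, hzB⟩ (by rw [← hμB ⟨z, hzB⟩]; exact hne) y
    unfold QG at h1
    rw [hN0, zero_dotProduct, zero_mul, zero_mul, zero_add, zero_add] at h1
    exact h1

end

end Pool.Agent.Helper21.BS
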