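import Pool.Agent.Helper21.BS.FixP
import Pool.Agent.Helper21.BS.StateG

/-!
# MP_be0fb5: the state inside one Delaunay cell, anti-blocking bodies, labels with priority: the limit
-/

set_option autoImplicit false

namespace Pool.Agent.Helper21.BS

open Matrix Filter Topology
open Pool.Agent.Helper21.FX (ct dot_sq_le dot_self_nonneg' clamp_vi sq_le_dot)

section

variable {G Γ : Type} [Fintype G] [DecidableEq G] [Fintype Γ]

/-- **The state inside one Delaunay cell.** -/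
theorem brouwer_stateP (A : Γ → (Fin 3 ⊕ G) → ℝ) (w : Fin 3 ⊕ G → Fin 3 → ℝ) (h : Fin 3 → ℝ) (cc : G → Fin 3 → ℝ)
    (hcc : ∀ t i, 0 ≤ cc t i) (hw : ∀ t, w (Sum.inr t) = - ∑ i, cc t i • w (Sum.inl i))
    (hdet : (Matrix.of fun i => w (Sum.inl i)).det ≠ 0) (lab : (Fin 3 → ℤ) → Fin 3 ⊕ G)
    (hl1 : ∀ z i, lab z = Sum.inl i → h i ≤ w (Sum.inl i) ⬝ᵥ ct z)
    (hl2 : ∀ z t, lab z = Sum.inr t → ∀ i, w (Sum.inl i) ⬝ᵥ ct z ≤ h i)
    (hpos : ∀ L : Fin 3 ⊕ G → ℝ, (∀ t, 0 ≤ L t) → ∑ t, L t = 1 → Nv w L = 0 → ∀ y, y ≠ 0 →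
      0 < ∑ g, (∑ t, A g t * (L t * (w t ⬝ᵥ y))) ^ 2) :
    ∃ (x : Fin 3 → ℝ) (L : Fin 3 ⊕ G → ℝ) (μ : (Fin 3 → ℤ) → ℝ) (D : Finset (Fin 3 → ℤ)),
      (∀ z ∈ D, 0 < μ z) ∧ (∑ z ∈ D, μ z = 1) ∧ (∀ t, L t = ∑ z ∈ D, if lab z = t then μ z else 0) ∧
      Nv w L = 0 ∧
      (∀ z ∈ D, ∀ y : Fin 3 → ℤ, ∑ g, (∑ t, A g t * (L t * (w t ⬝ᵥ (x - ct z)))) ^ 2 ≤
        ∑ g, (∑ t, A g t * (L t * (w t ⬝ᵥ (x - ct y)))) ^ 2) := by
  classical
  have : Nonempty (Fin 3 ⊕ G) := ⟨lab 0⟩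
  obtain ⟨κ, C1, hκ, hC1, hlow, hup⟩ := QG_bounds A w hpos
  obtain ⟨R1, hR1⟩ : ∃ R1 : ℝ, C1 * 3 + 1 = κ * R1 := ⟨(C1 * 3 + 1) / κ, by field_simp⟩
  -- the coordinates of the three planes
  set Wm : Matrix (Fin 3) (Fin 3) ℝ := Matrix.of fun i => w (Sum.inl i) with hWm
  have hu : IsUnit Wm.det := isUnit_iff_ne_zero.2 hdet
  obtain ⟨px, hpxd⟩ : ∃ px : (Fin 3 → ℝ) → Fin 3 → ℝ, px = fun X => Wm⁻¹ *ᵥ (h - X) := ⟨_, rfl⟩
  have hpx : Continuous px := by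
    rw [hpxd]
    exact Continuous.matrix_mulVec continuous_const (continuous_const.sub continuous_id)
  have hpxi : ∀ X i, w (Sum.inl i) ⬝ᵥ px X = h i - X i := by
    intro X i
    have h1 : Wm *ᵥ px X = h - X := by
      rw [hpxd]
      simp only
      rw [Matrix.mulVec_mulVec, Matrix.mul_nonsing_inv _ hu, Matrix.one_mulVec]
    exact congrFun h1 i
  obtain ⟨M, hM⟩ := exists_nat_gt (1 + (∑ i, w (Sum.inl i) ⬝ᵥ w (Sum.inl i)) * |R1|)
  have hw2 : ∀ i, 0 ≤ w (Sum.inl i) ⬝ᵥ w (Sum.inl i) := fun i => dot_self_nonneg' _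
  have hM0 : (0 : ℝ) ≤ (∑ i, w (Sum.inl i) ⬝ᵥ w (Sum.inl i)) * |R1| :=
    mul_nonneg (Finset.sum_nonneg fun i _ => hw2 i) (abs_nonneg _)
  have hM1 : (1 : ℝ) ≤ (M : ℝ) := by linarith
  have hclose : ∀ (X : Fin 3 → ℝ) (z : Fin 3 → ℤ), (px X - ct z) ⬝ᵥ (px X - ct z) ≤ R1 → ∀ i,
      |w (Sum.inl i) ⬝ᵥ (px X - ct z)| < M := by
    intro X z hz i
    have h1 := dot_sq_le (w (Sum.inl i)) (px X - ct z)
    have h2 : (w (Sum.inl i) ⬝ᵥ w (Sum.inl i)) * ((px X - ct z) ⬝ᵥ (px X - ct z)) ≤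
        (∑ i, w (Sum.inl i) ⬝ᵥ w (Sum.inl i)) * |R1| :=
      mul_le_mul (Finset.single_le_sum (f := fun i => w (Sum.inl i) ⬝ᵥ w (Sum.inl i)) (fun i _ => hw2 i)
        (Finset.mem_univ i)) (hz.trans (le_abs_self _)) (dot_self_nonneg' _) (Finset.sum_nonneg fun i _ => hw2 i)
    refine abs_lt_of_sq_lt_sq ?_ (by linarith)
    nlinarith
  obtain ⟨Mx, hMx⟩ := (isCompact_univ_pi (fun _ : Fin 3 => isCompact_Icc (a := -(M : ℝ)) (b := (M : ℝ)))).exists_bound_of_continuousOn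
    hpx.continuousOn
  have hMxi : ∀ X : Fin 3 → ℝ, (∀ i, |X i| ≤ (M : ℝ)) → ∀ i, |px X i| ≤ Mx := by
    intro X hX i
    have h1 := hMx X (fun i _ => abs_le.1 (hX i))
    exact (by simpa [Real.norm_eq_abs] using norm_le_pi_norm (px X) i : |px X i| ≤ ‖px X‖).trans h1
  set sN : ℝ := C1 * 3 / κ with hsN
  have hsN0 : 0 ≤ sN := by positivity
  have hMx0 : 0 ≤ Mx := (abs_nonneg _).trans (hMxi 0 (fun i => by simp) 0)
  obtain ⟨N, hN⟩ := exists_nat_ge (Mx + sN + 1)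
  set B : Finset (Fin 3 → ℤ) := Finset.Icc (fun _ => -(N : ℤ)) (fun _ => (N : ℤ)) with hB
  have hmem : ∀ v, v ∈ B ↔ ∀ i, -(N : ℤ) ≤ v i ∧ v i ≤ N := by
    intro v
    rw [hB, Finset.mem_Icc, Pi.le_def, Pi.le_def]
    exact ⟨fun h i => ⟨h.1 i, h.2 i⟩, fun h => ⟨fun i => (h i).1, fun i => (h i).2⟩⟩
  have hBfl : ∀ X : Fin 3 → ℝ, (∀ i, |X i| ≤ (M : ℝ)) → (fun i => ⌊px X i⌋) ∈ B := by
    intro X hX
    rw [hmem]
    intro i
    have a1 := abs_le.1 (hMxi X hX i)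
    constructor
    · rw [Int.le_floor]
      push_cast
      linarith
    · have h3 : ((⌊px X i⌋ : ℤ) : ℝ) ≤ ((N : ℤ) : ℝ) := by
        push_cast
        exact (Int.floor_le _).trans (by linarith)
      exact_mod_cast h3
  have hout1 : ∀ X : Fin 3 → ℝ, (∀ i, |X i| ≤ (M : ℝ)) → ∀ z : Fin 3 → ℤ,
      (px X - ct z) ⬝ᵥ (px X - ct z) ≤ R1 → ∀ i, lab z = Sum.inl i → X i < M := by
    intro X _ z hz i hl
    have h1 := (abs_lt.1 (hclose X z hz i)).1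
    rw [dotProduct_sub, hpxi] at h1
    have h2 := hl1 z i hl
    linarith
  have hout2 : ∀ X : Fin 3 → ℝ, (∀ i, |X i| ≤ (M : ℝ)) → ∀ z : Fin 3 → ℤ,
      (px X - ct z) ⬝ᵥ (px X - ct z) ≤ R1 → ∀ t, lab z = Sum.inr t → ∀ i, -(M : ℝ) < X i := by
    intro X _ z hz t hl i
    have h1 := (abs_lt.1 (hclose X z hz i)).2
    rw [dotProduct_sub, hpxi] at h1
    have h2 := hl2 z t hl i
    linarith
  -- the approximate fixed points
  have hex : ∀ k : ℕ, ∃ p : (Fin 3 → ℝ) × (Fin 3 ⊕ G → ℝ) × (↥B → ℝ), (∀ i, |p.1 i| ≤ (M : ℝ)) ∧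
      (∀ z, 0 ≤ p.2.2 z ∧ p.2.2 z ≤ 1) ∧ (∑ z, p.2.2 z = 1) ∧
      (∀ t, p.2.1 t = ∑ z, if lab z.1 = t then p.2.2 z else 0) ∧
      (∀ t, 0 ≤ p.2.1 t ∧ p.2.1 t ≤ 1) ∧ (∑ t, p.2.1 t = 1) ∧ Nv w p.2.1 = 0 ∧
      (∀ z : ↥B, p.2.2 z ≠ 0 → ∀ y ∈ B,
        QG A w p.2.1 (px p.1 - ct z.1) ≤ QG A w p.2.1 (px p.1 - ct y) + 1 / ((k : ℝ) + 1)) := by
    intro k
    have hk : 0 < 1 / ((k : ℝ) + 1) := Nat.one_div_pos_of_nat
    have hk1 : 1 / ((k : ℝ) + 1) ≤ 1 := by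
      rw [div_le_one (by positivity)]
      have : (0 : ℝ) ≤ k := Nat.cast_nonneg k
      linarith
    obtain ⟨x, L, μ, h1, h2, h3, h4, h5, h6, h7, h8, h9⟩ := fix_labP A w cc hcc hw px hpx lab B (1 / ((k : ℝ) + 1)) κ
      C1 M R1 hk hκ (by linarith) hlow hup hC1 (by linarith) hBfl hout1 hout2
    refine ⟨(x, L, fun z => μ z.1), h1, fun z => h2 z.1, ?_, ?_, h6, h7, h8, ?_⟩
    · show ∑ z : ↥B, μ z.1 = 1
      rw [← h4]
      exact Finset.sum_coe_sort B μ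
    · intro t
      show L t = ∑ z : ↥B, if lab z.1 = t then μ z.1 else 0
      rw [h5 t]
      exact (Finset.sum_coe_sort B fun z => if lab z = t then μ z else 0).symm
    · intro z hz y hy
      exact h9 z.1 z.2 hz y hy
  choose u hu using hex
  -- compactness
  have hcomp : IsCompact ((Set.pi Set.univ fun _ : Fin 3 => Set.Icc (-(M : ℝ)) M) ×ˢ
      ((Set.pi Set.univ fun _ : Fin 3 ⊕ G => Set.Icc (0 : ℝ) 1) ×ˢ
      (Set.pi Set.univ fun _ : ↥B => Set.Icc (0 : ℝ) 1))) :=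
    (isCompact_univ_pi (fun _ => isCompact_Icc)).prod
      ((isCompact_univ_pi (fun _ => isCompact_Icc)).prod (isCompact_univ_pi (fun _ => isCompact_Icc)))
  obtain ⟨p, hp, φ, hφ, hlim⟩ := hcomp.tendsto_subseq (x := u) (by
    intro k
    refine ⟨fun i _ => ?_, fun t _ => (hu k).2.2.2.2.1 t, fun z _ => (hu k).2.1 z⟩
    exact abs_le.1 ((hu k).1 i))
  have hpM : ∀ i, |p.1 i| ≤ (M : ℝ) := fun i => abs_le.2 (hp.1 i (Set.mem_univ _))
  have hlimf : ∀ F : (Fin 3 → ℝ) × (Fin 3 ⊕ G → ℝ) × (↥B → ℝ) → ℝ, Continuous F →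
      Tendsto (fun k => F (u (φ k))) atTop (𝓝 (F p)) := fun F hF => (hF.tendsto p).comp hlim
  have clam : ∀ t, Continuous fun q : (Fin 3 → ℝ) × (Fin 3 ⊕ G → ℝ) × (↥B → ℝ) => q.2.1 t := fun t => by fun_prop
  have cmu : ∀ z, Continuous fun q : (Fin 3 → ℝ) × (Fin 3 ⊕ G → ℝ) × (↥B → ℝ) => q.2.2 z := fun z => by fun_prop
  have cQ : ∀ z : Fin 3 → ℤ, Continuous fun q : (Fin 3 → ℝ) × (Fin 3 ⊕ G → ℝ) × (↥B → ℝ) =>
      QG A w q.2.1 (px q.1 - ct z) := by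
    intro z
    exact (QG_cont A w).comp ((continuous_fst.comp continuous_snd).prodMk
      ((hpx.comp continuous_fst).sub continuous_const))
  have heq : ∀ F G : (Fin 3 → ℝ) × (Fin 3 ⊕ G → ℝ) × (↥B → ℝ) → ℝ, Continuous F → Continuous G →
      (∀ k, F (u k) = G (u k)) → F p = G p := by
    intro F G hF hG h
    refine tendsto_nhds_unique (hlimf F hF) ?_
    exact (hlimf G hG).congr fun k => (h (φ k)).symm
  have hL0 : ∀ t, 0 ≤ p.2.1 t := fun t => (hp.2.1 t (Set.mem_univ _)).1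
  have hμ0 : ∀ z, 0 ≤ p.2.2 z := fun z => (hp.2.2 z (Set.mem_univ _)).1
  have hμ1 : ∑ z, p.2.2 z = 1 := heq (fun q => ∑ z, q.2.2 z) (fun _ => 1)
    (continuous_finsetSum _ fun z _ => cmu z) continuous_const fun k => (hu k).2.2.1
  have hL1 : ∑ t, p.2.1 t = 1 := heq (fun q => ∑ t, q.2.1 t) (fun _ => 1)
    (continuous_finsetSum _ fun t _ => clam t) continuous_const fun k => (hu k).2.2.2.2.2.1
  have hLμ : ∀ t, p.2.1 t = ∑ z, if lab z.1 = t then p.2.2 z else 0 := fun t =>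
    heq (fun q => q.2.1 t) (fun q => ∑ z : ↥B, if lab z.1 = t then q.2.2 z else 0) (clam t)
      (continuous_finsetSum _ fun z _ => by
        split_ifs
        · exact cmu z
        · exact continuous_const) fun k => (hu k).2.2.2.1 t
  have hN0 : Nv w p.2.1 = 0 := by
    funext i
    exact heq (fun q => Nv w q.2.1 i) (fun _ => 0)
      (continuous_finsetSum _ fun t _ => (clam t).mul continuous_const) continuous_const
      fun k => congrFun (hu k).2.2.2.2.2.2.1 i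
  have hδ0 : Tendsto (fun k => 1 / (((φ k : ℕ) : ℝ) + 1)) atTop (𝓝 0) :=
    tendsto_one_div_add_atTop_nhds_zero_nat.comp hφ.tendsto_atTop
  have hDB : ∀ z : ↥B, p.2.2 z ≠ 0 → ∀ y ∈ B, QG A w p.2.1 (px p.1 - ct z.1) ≤ QG A w p.2.1 (px p.1 - ct y) := by
    intro z hne y hy
    have h1 := hlimf _ (cmu z)
    have h2 : ∀ᶠ k in atTop, (u (φ k)).2.2 z ≠ 0 := h1.eventually_ne hne
    have h3 := hlimf _ (cQ z.1)
    have h4 := (hlimf _ (cQ y)).add hδ0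
    rw [add_zero] at h4
    refine le_of_tendsto_of_tendsto h3 h4 (h2.mono (fun k hk => ?_))
    exact (hu (φ k)).2.2.2.2.2.2.2 z hk y hy
  have hAll : ∀ z : ↥B, p.2.2 z ≠ 0 → ∀ y : Fin 3 → ℤ,
      QG A w p.2.1 (px p.1 - ct z.1) ≤ QG A w p.2.1 (px p.1 - ct y) := by
    intro z hne y
    by_cases hy : y ∈ B
    · exact hDB z hne y hy
    · have h1 := hDB z hne _ (hBfl p.1 hpM)
      have h3 := hup p.2.1 hL0 hL1 (px p.1 - ct (fun i => ⌊px p.1 i⌋))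
      have h4 : (px p.1 - ct (fun i => ⌊px p.1 i⌋)) ⬝ᵥ (px p.1 - ct (fun i => ⌊px p.1 i⌋)) ≤ 3 := by
        have h5 : ∀ i, ((px p.1 - ct (fun i => ⌊px p.1 i⌋)) i) ^ 2 ≤ 1 := by
          intro i
          have h6 : (px p.1 - ct (fun i => ⌊px p.1 i⌋)) i = Int.fract (px p.1 i) := rfl
          rw [h6]
          have := Int.fract_nonneg (px p.1 i)
          have := (Int.fract_lt_one (px p.1 i)).le
          nlinarith
        have h7 : (px p.1 - ct (fun i => ⌊px p.1 i⌋)) ⬝ᵥ (px p.1 - ct (fun i => ⌊px p.1 i⌋)) =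
            ∑ i, ((px p.1 - ct (fun i => ⌊px p.1 i⌋)) i) ^ 2 := by
          unfold dotProduct
          exact Finset.sum_congr rfl (fun i _ => by ring)
        rw [h7, Fin.sum_univ_three]
        have := h5 0
        have := h5 1
        have := h5 2
        linarith
      have h5 := mul_le_mul_of_nonneg_left h4 hC1
      have h6 := hlow p.2.1 hL0 hL1 (px p.1 - ct y)
      have h7 : ∃ i, (N : ℤ) < |y i| := by
        by_contra hcon
        push Not at hcon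
        apply hy
        rw [hmem]
        intro i
        exact abs_le.1 (hcon i)
      obtain ⟨i, hi⟩ := h7
      have h8 : (N : ℝ) < |(y i : ℝ)| := by exact_mod_cast hi
      have h9 : sN + 1 ≤ |(px p.1 - ct y) i| := by
        have e1 : |(y i : ℝ)| ≤ |px p.1 i| + |(px p.1 - ct y) i| := by
          have e2 : (y i : ℝ) = px p.1 i - (px p.1 - ct y) i := by
            show (y i : ℝ) = px p.1 i - (px p.1 i - (y i : ℝ))
            ring
          rw [e2]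
          exact abs_sub _ _
        have := hMxi p.1 hpM i
        linarith
      have h10 : sN ≤ ((px p.1 - ct y) i) ^ 2 := by
        rw [← sq_abs]
        nlinarith
      have h11 := sq_le_dot (px p.1 - ct y) i
      have h12 : C1 * 3 ≤ κ * ((px p.1 - ct y) ⬝ᵥ (px p.1 - ct y)) := by
        have h13 : κ * sN = C1 * 3 := by
          rw [hsN]
          field_simp
        rw [← h13]
        exact mul_le_mul_of_nonneg_left (h10.trans h11) hκ.le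
      linarith
  -- output
  obtain ⟨μ, hμ⟩ : ∃ μ : (Fin 3 → ℤ) → ℝ, μ = fun z => if h : z ∈ B then p.2.2 ⟨z, h⟩ else 0 := ⟨_, rfl⟩
  have hμB : ∀ z : ↥B, μ z.1 = p.2.2 z := fun z => by
    rw [hμ]
    exact dif_pos z.2
  have hsumD : ∀ G : (Fin 3 → ℤ) → ℝ → ℝ, (∀ z, G z 0 = 0) →
      ∑ z ∈ B.filter (fun z => μ z ≠ 0), G z (μ z) = ∑ z : ↥B, G z.1 (p.2.2 z) := by
    intro G hG
    rw [Finset.sum_filter]
    rw [← Finset.sum_coe_sort B]
    refine Finset.sum_congr rfl fun z _ => ?_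
    rw [hμB z]
    split_ifs with h
    · rfl
    · push Not at h
      rw [h, hG]
  refine ⟨px p.1, p.2.1, μ, B.filter (fun z => μ z ≠ 0), ?_, ?_, ?_, hN0, ?_⟩
  · intro z hz
    obtain ⟨hzB, hne⟩ := Finset.mem_filter.1 hz
    refine lt_of_le_of_ne ?_ (Ne.symm hne)
    rw [hμB ⟨z, hzB⟩]
    exact hμ0 _
  · rw [hsumD (fun _ a => a) fun _ => rfl]
    exact hμ1
  · intro t
    rw [hsumD (fun z a => if lab z = t then a else 0) fun z => by simp]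
    exact hLμ t
  · intro z hz y
    obtain ⟨hzB, hne⟩ := Finset.mem_filter.1 hz
    have h1 := hAll ⟨z, hzB⟩ (by rw [← hμB ⟨z, hzB⟩]; exact hne) y
    unfold QG at h1
    rw [hN0, zero_dotProduct, zero_mul, zero_mul, zero_add, zero_add] at h1
    exact h1

end

end Pool.Agent.Helper21.BS
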